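import Mathlib

-- part Pool.Agent.Lib.MP_fe1582_an.Basic
section

/-!
Basic tools: the character `ex`, a band limited nonnegative weight `w`, the weight `1/(1+x^2)`,
Cauchy-Schwarz for lower integrals.
-/

namespace Pool.Agent.Lib.MP_fe1582_an

open MeasureTheory Complex FourierTransform SchwartzMap
open scoped ENNReal NNReal Real ComplexConjugate ComplexInnerProductSpace ContDiff

/-- `exp (i θ)` -/
noncomputable def ex (θ : ℝ) : ℂ := cexp (θ * I)

@[simp] lemma norm_ex (θ : ℝ) : ‖ex θ‖ = 1 := by simp [ex]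

@[simp] lemma enorm_ex (θ : ℝ) : ‖ex θ‖ₑ = 1 := by
  rw [← ofReal_norm, norm_ex]; simp

lemma ex_add (a b : ℝ) : ex (a + b) = ex a * ex b := by
  simp only [ex, ← Complex.exp_add]; push_cast; ring_nf

@[simp] lemma ex_zero : ex 0 = 1 := by simp [ex]

lemma conj_ex (a : ℝ) : conj (ex a) = ex (-a) := by
  simp only [ex, ← Complex.exp_conj, map_mul, conj_ofReal, conj_I]; push_cast; ring_nf

lemma ex_sub (a b : ℝ) : ex (a - b) = ex a * conj (ex b) := by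
  rw [conj_ex, ← ex_add, sub_eq_add_neg]

@[fun_prop] lemma continuous_ex : Continuous ex := by unfold ex; fun_prop

@[fun_prop] lemma measurable_ex : Measurable ex := continuous_ex.measurable

lemma exists_weight : ∃ w : ℝ → ℝ, Continuous w ∧ (∀ x, 0 ≤ w x) ∧ 0 < w 0 ∧
    (∃ C : ℝ, ∀ x, w x * (1 + x ^ 2) ^ 7 ≤ C) ∧
    ∀ θ : ℝ, 1 ≤ |θ| → ∫ x, (w x : ℂ) * ex (x * θ) = 0 := by
  let b : ContDiffBump (0 : ℝ) := ⟨1 / 32, 1 / 16, by norm_num, by norm_num⟩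
  have hsm : ∀ c : ℝ, ContDiff ℝ ∞ (fun x : ℝ => ((b (x - c) : ℝ) : ℂ)) := fun c =>
    Complex.ofRealCLM.contDiff.comp (b.contDiff.comp (contDiff_id.sub contDiff_const))
  have hcs : ∀ c : ℝ, HasCompactSupport (fun x : ℝ => ((b (x - c) : ℝ) : ℂ)) := fun c => by
    have h1 : HasCompactSupport (fun x : ℝ => b (x - c)) :=
      b.hasCompactSupport.comp_homeomorph (Homeomorph.subRight c)
    exact h1.comp_left (g := fun y : ℝ => (y : ℂ)) (by simp)
  let Ψ : ℝ → 𝓢(ℝ, ℂ) := fun c => (hcs c).toSchwartzMap (hsm c)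
  have hΨ : ∀ c x, Ψ c x = ((b (x - c) : ℝ) : ℂ) := fun c x => rfl
  have hF : ∀ c x, 𝓕 (Ψ c) x = 𝓕 (Ψ 0) x * ex (x * (-(2 * π * c))) := by
    intro c x
    rw [fourier_coe, fourier_coe, Real.fourier_real_eq_integral_exp_smul,
      Real.fourier_real_eq_integral_exp_smul, ← integral_mul_const]
    rw [← integral_add_right_eq_self _ c]
    refine integral_congr_ae (Filter.Eventually.of_forall fun v => ?_)
    simp only [hΨ, add_sub_cancel_right, sub_zero, smul_eq_mul, ex]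
    rw [mul_right_comm (cexp _) _ (cexp _), ← Complex.exp_add]
    congr 2
    push_cast; ring
  refine ⟨fun x => ‖𝓕 (Ψ 0) x‖ ^ 2, (𝓕 (Ψ 0)).continuous.norm.pow 2, fun x => by positivity,
    ?_, ?_, ?_⟩
  · have h0 : 𝓕 (Ψ 0) 0 = ((∫ x, b x : ℝ) : ℂ) := by
      rw [fourier_coe, Real.fourier_real_eq_integral_exp_smul, ← integral_complex_ofReal]
      simp [hΨ]
    have := b.integral_pos (μ := volume)
    simp only [h0, norm_real, Real.norm_eq_abs]
    positivity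
  · obtain ⟨C0, -, h0⟩ := (𝓕 (Ψ 0)).decay 0 0
    obtain ⟨C7, -, h7⟩ := (𝓕 (Ψ 0)).decay 7 0
    simp only [pow_zero, norm_iteratedFDeriv_zero, one_mul] at h0 h7
    refine ⟨2 ^ 7 * (C0 ^ 2 + C7 ^ 2), fun x => ?_⟩
    have h1 : (1 + x ^ 2) ^ 7 ≤ 2 ^ 7 * (1 + (x ^ 2) ^ 7) := by
      have := add_pow_le (show (0 : ℝ) ≤ 1 by norm_num) (sq_nonneg x) 7
      have h2 : (0 : ℝ) ≤ (x ^ 2) ^ 7 := by positivity
      norm_num at this ⊢
      linarith
    have hn := norm_nonneg (𝓕 (Ψ 0) x)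
    have h3 : ‖𝓕 (Ψ 0) x‖ ^ 2 ≤ C0 ^ 2 := pow_le_pow_left₀ hn (h0 x) 2
    have h4 : (‖x‖ ^ 7 * ‖𝓕 (Ψ 0) x‖) ^ 2 ≤ C7 ^ 2 := pow_le_pow_left₀ (by positivity) (h7 x) 2
    have h5 : (‖x‖ ^ 7 * ‖𝓕 (Ψ 0) x‖) ^ 2 = ‖𝓕 (Ψ 0) x‖ ^ 2 * (x ^ 2) ^ 7 := by
      rw [mul_pow, ← pow_mul, Real.norm_eq_abs, show 7 * 2 = 2 * 7 by norm_num, pow_mul, sq_abs]
      ring
    calc ‖𝓕 (Ψ 0) x‖ ^ 2 * (1 + x ^ 2) ^ 7
        ≤ ‖𝓕 (Ψ 0) x‖ ^ 2 * (2 ^ 7 * (1 + (x ^ 2) ^ 7)) := by gcongr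
      _ = 2 ^ 7 * (‖𝓕 (Ψ 0) x‖ ^ 2 + ‖𝓕 (Ψ 0) x‖ ^ 2 * (x ^ 2) ^ 7) := by ring
      _ ≤ _ := by rw [← h5]; gcongr
  · intro θ hθ
    have hpi := Real.pi_pos
    have hpi4 := Real.pi_le_four
    set c : ℝ := -θ / (2 * π) with hc
    have hcθ : -(2 * π * c) = θ := by rw [hc]; field_simp
    have hP := integral_inner_fourier_fourier (Ψ 0) (Ψ c)
    have hL : ∀ x, ⟪𝓕 (Ψ 0) x, 𝓕 (Ψ c) x⟫ = ((‖𝓕 (Ψ 0) x‖ ^ 2 : ℝ) : ℂ) * ex (x * θ) := by
      intro x
      rw [hF c, hcθ, RCLike.inner_apply, mul_right_comm, Complex.mul_conj, normSq_eq_norm_sq]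
    have hR : ∀ x, ⟪Ψ 0 x, Ψ c x⟫ = 0 := by
      intro x
      rw [RCLike.inner_apply, hΨ, hΨ]
      by_cases hx : |x| < 1 / 16
      · have : b (x - c) = 0 := by
          apply b.zero_of_le_dist
          show (1 / 16 : ℝ) ≤ dist (x - c) 0
          rw [Real.dist_eq, sub_zero]
          have hc' : 1 / 8 ≤ |c| := by
            rw [hc, abs_div, abs_neg, abs_of_pos (by positivity : 0 < 2 * π), le_div_iff₀ (by positivity)]
            linarith
          have := abs_sub_abs_le_abs_sub c x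
          rw [abs_sub_comm] at this
          linarith
        simp [this]
      · have : b (x - 0) = 0 := by
          apply b.zero_of_le_dist
          show (1 / 16 : ℝ) ≤ dist (x - 0) 0
          rw [Real.dist_eq, sub_zero, sub_zero]
          exact not_lt.mp hx
        rw [this]; simp
    simp_rw [hL, hR] at hP
    simpa using hP

/-- the band limited weight -/
noncomputable def w : ℝ → ℝ := exists_weight.choose

@[fun_prop] lemma w_cont : Continuous w := exists_weight.choose_spec.1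
@[fun_prop] lemma w_meas : Measurable w := w_cont.measurable
lemma w_nonneg (x : ℝ) : 0 ≤ w x := exists_weight.choose_spec.2.1 x
lemma w_pos : 0 < w 0 := exists_weight.choose_spec.2.2.1
lemma w_ft {θ : ℝ} (h : 1 ≤ |θ|) : ∫ x, (w x : ℂ) * ex (x * θ) = 0 :=
  exists_weight.choose_spec.2.2.2.2 θ h

/-- decay constant of `w` -/
noncomputable def Cw : ℝ := exists_weight.choose_spec.2.2.2.1.choose

lemma w_decay (x : ℝ) : w x * (1 + x ^ 2) ^ 7 ≤ Cw :=
  exists_weight.choose_spec.2.2.2.1.choose_spec x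

lemma Cw_pos : 0 < Cw := by
  have := w_decay 0
  have h := w_pos
  simp at this
  linarith

lemma w_mul_le (x : ℝ) (j : ℕ) (hj : j ≤ 6) : w x * (1 + x ^ 2) ^ j ≤ Cw * (1 + x ^ 2)⁻¹ := by
  have h1 : (1 : ℝ) ≤ 1 + x ^ 2 := by nlinarith [sq_nonneg x]
  have h2 : (0 : ℝ) < 1 + x ^ 2 := by linarith
  rw [← div_eq_mul_inv, le_div_iff₀ h2, mul_assoc, ← pow_succ]
  refine le_trans ?_ (w_decay x)
  exact mul_le_mul_of_nonneg_left (pow_le_pow_right₀ h1 (by omega)) (w_nonneg x)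

lemma w_le (x : ℝ) : w x ≤ Cw * (1 + x ^ 2)⁻¹ := by simpa using w_mul_le x 0 (by norm_num)

lemma w_integrable : Integrable w := by
  refine (integrable_inv_one_add_sq.const_mul Cw).mono' w_cont.aestronglyMeasurable
    (Filter.Eventually.of_forall fun x => ?_)
  rw [Real.norm_eq_abs, abs_of_nonneg (w_nonneg x)]
  exact w_le x

/-- total mass of `w` -/
noncomputable def Iw : ℝ := ∫ x, w x

lemma Iw_nonneg : 0 ≤ Iw := integral_nonneg w_nonneg

lemma norm_w_ft_le (θ : ℝ) : ‖∫ x, (w x : ℂ) * ex (x * θ)‖ ≤ Iw := by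
  refine (norm_integral_le_integral_norm _).trans (le_of_eq ?_)
  simp [Iw, abs_of_nonneg (w_nonneg _)]

/-- `w` is bounded below near the origin -/
lemma exists_w_lower : ∃ r c : ℝ, 0 < r ∧ r ≤ 1 ∧ 0 < c ∧ ∀ x, |x| ≤ r → c ≤ w x := by
  have h := w_cont.continuousAt (x := 0)
  have h2 : ∀ᶠ x in nhds (0 : ℝ), w 0 / 2 < w x :=
    h.eventually (lt_mem_nhds (by linarith [w_pos]))
  obtain ⟨ε, hε, hb⟩ := Metric.eventually_nhds_iff.mp h2
  refine ⟨min (ε / 2) 1, w 0 / 2, by positivity, min_le_right _ _, by linarith [w_pos],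
    fun x hx => le_of_lt (hb ?_)⟩
  rw [Real.dist_eq, sub_zero]
  have := min_le_left (ε / 2) 1
  linarith

/-- the weight `1/(1+x^2)` -/
noncomputable def P (x : ℝ) : ℝ≥0∞ := ENNReal.ofReal (1 + x ^ 2)⁻¹

/-- `w` as an extended real -/
noncomputable def we (x : ℝ) : ℝ≥0∞ := ENNReal.ofReal (w x)

@[fun_prop] lemma P_meas : Measurable P := by unfold P; fun_prop
@[fun_prop] lemma we_meas : Measurable we := by unfold we; fun_prop

lemma P_le_one (x : ℝ) : P x ≤ 1 := by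
  unfold P
  rw [ENNReal.ofReal_le_one]
  exact inv_le_one_of_one_le₀ (by nlinarith [sq_nonneg x])

lemma P_ne_top (x : ℝ) : P x ≠ ⊤ := ENNReal.ofReal_ne_top

lemma P_neg (x : ℝ) : P (-x) = P x := by simp [P]

lemma lintegral_P : ∫⁻ x, P x ≤ 4 := by
  unfold P
  rw [← ofReal_integral_eq_lintegral_ofReal integrable_inv_one_add_sq
    (Filter.Eventually.of_forall fun x => by positivity), integral_univ_inv_one_add_sq]
  have := Real.pi_le_four
  calc ENNReal.ofReal π ≤ ENNReal.ofReal 4 := ENNReal.ofReal_le_ofReal this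
    _ = 4 := by simp

lemma lintegral_P_sub (a : ℝ) : ∫⁻ x, P (a - x) ≤ 4 := by
  rw [lintegral_sub_left_eq_self P a]; exact lintegral_P

lemma lintegral_P_sub' (a : ℝ) : ∫⁻ x, P (x - a) ≤ 4 := by
  rw [lintegral_sub_right_eq_self P a]; exact lintegral_P

lemma lintegral_we : ∫⁻ x, we x = ENNReal.ofReal Iw := by
  unfold we Iw
  rw [ofReal_integral_eq_lintegral_ofReal w_integrable (Filter.Eventually.of_forall w_nonneg)]

/-- Peetre inequality -/
lemma peetre (u v : ℝ) : (1 + u ^ 2)⁻¹ ≤ 2 * (1 + (u - v) ^ 2) * (1 + v ^ 2)⁻¹ := by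
  have hu : (0 : ℝ) < 1 + u ^ 2 := by positivity
  have hv : (0 : ℝ) < 1 + v ^ 2 := by positivity
  rw [← div_eq_mul_inv, inv_eq_one_div, div_le_div_iff₀ hu hv]
  nlinarith [sq_nonneg (u - (v - u)), sq_nonneg (u * (u - v)), sq_nonneg (u - v), sq_nonneg u,
    sq_nonneg (2 * u - v)]

lemma P_le_peetre (u v : ℝ) : P u ≤ ENNReal.ofReal (2 * (1 + (u - v) ^ 2)) * P v := by
  unfold P
  rw [← ENNReal.ofReal_mul (by positivity)]
  exact ENNReal.ofReal_le_ofReal (peetre u v)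

/-- Cauchy-Schwarz for lower integrals -/
lemma sq_lintegral_le {X : Type*} [MeasurableSpace X] (μ : Measure X) {h a b : X → ℝ≥0∞}
    (ha : AEMeasurable a μ) (hb : AEMeasurable b μ) (hab : ∀ x, h x ^ 2 ≤ a x * b x) :
    (∫⁻ x, h x ∂μ) ^ 2 ≤ (∫⁻ x, a x ∂μ) * ∫⁻ x, b x ∂μ := by
  have h1 : ∫⁻ x, h x ∂μ ≤ ∫⁻ x, a x ^ (1 / 2 : ℝ) * b x ^ (1 / 2 : ℝ) ∂μ := by
    refine lintegral_mono fun x => ?_
    rw [← ENNReal.mul_rpow_of_nonneg _ _ (by norm_num)]
    have := ENNReal.rpow_le_rpow (hab x) (show (0 : ℝ) ≤ 1 / 2 by norm_num)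
    rwa [← ENNReal.rpow_natCast, ← ENNReal.rpow_mul, show ((2 : ℕ) : ℝ) * (1 / 2) = 1 by norm_num,
      ENNReal.rpow_one] at this
  have h2 := ENNReal.lintegral_mul_norm_pow_le ha hb (show (0 : ℝ) ≤ 1 / 2 by norm_num)
    (show (0 : ℝ) ≤ 1 / 2 by norm_num) (by norm_num)
  have h3 := pow_le_pow_left₀ zero_le (h1.trans h2) 2
  refine h3.trans (le_of_eq ?_)
  rw [mul_pow, ← ENNReal.rpow_natCast, ← ENNReal.rpow_natCast, ← ENNReal.rpow_mul,
    ← ENNReal.rpow_mul]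
  norm_num

lemma sq_sum_le {ι : Type*} (s : Finset ι) {h a b : ι → ℝ≥0∞}
    (hab : ∀ x, h x ^ 2 ≤ a x * b x) :
    (∑ x ∈ s, h x) ^ 2 ≤ (∑ x ∈ s, a x) * ∑ x ∈ s, b x := by
  classical
  let _ : MeasurableSpace s := ⊤
  have := sq_lintegral_le (Measure.count : Measure s) (h := fun x => h x) (a := fun x => a x)
    (b := fun x => b x) (Measurable.of_discrete.aemeasurable) (Measurable.of_discrete.aemeasurable)
    (fun x => hab x)
  simp only [lintegral_count, tsum_fintype] at this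
  rwa [Finset.sum_coe_sort s h, Finset.sum_coe_sort s a, Finset.sum_coe_sort s b] at this

lemma le_sum_of_pow_four_le {x a b c d : ℝ≥0∞} (h : x ^ 4 ≤ a * b * c * d) :
    x ≤ a + b + c + d := by
  have h2 : a * b * c * d ≤ (a + b + c + d) ^ 4 := by
    have e : (a + b + c + d) ^ 4 = (a + b + c + d) * (a + b + c + d) * (a + b + c + d) *
      (a + b + c + d) := by ring
    rw [e]
    gcongr
    · exact le_add_right (le_add_right le_self_add)
    · exact le_add_right (le_add_right le_add_self)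
    · exact le_add_right le_add_self
    · exact le_add_self
  exact (ENNReal.pow_le_pow_left_iff (by norm_num)).mp (h.trans h2)

lemma le_add_of_sq_le {x a b : ℝ≥0∞} (h : x ^ 2 ≤ a * b) : x ≤ a + b := by
  have h2 : a * b ≤ (a + b) ^ 2 := by
    rw [sq]; gcongr
    · exact le_self_add
    · exact le_add_self
  exact (ENNReal.pow_le_pow_left_iff (by norm_num)).mp (h.trans h2)

/-- `P` is dominated by an average of translates of `w` -/
lemma exists_P_le_conv : ∃ C : ℝ≥0, ∀ t : ℝ, P t ≤ C * ∫⁻ u, P u * we (t - u) := by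
  obtain ⟨r, c, hr, hr1, hc, hw⟩ := exists_w_lower
  refine ⟨Real.toNNReal (4 / (2 * r * c)), fun t => ?_⟩
  have h1 : ∫⁻ u in Set.Icc (t - r) (t + r), ENNReal.ofReal (c / 4) * P t ≤
      ∫⁻ u, P u * we (t - u) := by
    refine le_trans (setLIntegral_mono' measurableSet_Icc fun u hu => ?_)
      (setLIntegral_le_lintegral _ _)
    have hu' : |t - u| ≤ r := abs_le.mpr ⟨by linarith [hu.2], by linarith [hu.1]⟩
    have h2 : (t - u) ^ 2 ≤ 1 := by
      rw [← sq_abs]; nlinarith [abs_nonneg (t - u)]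
    have h3 := peetre t u
    unfold P we
    rw [← ENNReal.ofReal_mul (by positivity), ← ENNReal.ofReal_mul (by positivity)]
    refine ENNReal.ofReal_le_ofReal ?_
    have h4 := hw _ hu'
    have h5 : (0 : ℝ) < (1 + u ^ 2)⁻¹ := by positivity
    calc c / 4 * (1 + t ^ 2)⁻¹ ≤ c / 4 * (4 * (1 + u ^ 2)⁻¹) := by
          gcongr; nlinarith
      _ = (1 + u ^ 2)⁻¹ * c := by ring
      _ ≤ _ := by gcongr
  rw [setLIntegral_const, Real.volume_Icc] at h1
  refine le_trans ?_ (mul_le_mul_right h1 _)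
  have e : ((Real.toNNReal (4 / (2 * r * c)) : ℝ≥0) : ℝ≥0∞) = ENNReal.ofReal (4 / (2 * r * c)) :=
    rfl
  rw [e, mul_right_comm (ENNReal.ofReal (c / 4)), ← mul_assoc, ← ENNReal.ofReal_mul (by positivity),
    ← ENNReal.ofReal_mul (by positivity)]
  have : 4 / (2 * r * c) * (c / 4 * (t + r - (t - r))) = 1 := by field_simp; ring
  rw [this]; simp

end Pool.Agent.Lib.MP_fe1582_an
end

-- part Pool.Agent.Lib.MP_fe1582_an.Orth
section

/-!
Exponential integrals, their spectrum, almost orthogonality and the Schur test.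
-/

namespace Pool.Agent.Lib.MP_fe1582_an

open MeasureTheory Complex
open scoped ENNReal NNReal Real ComplexConjugate

/-- superposition of space-time exponentials -/
noncomputable def EI {Y : Type*} [MeasurableSpace Y] (m : Measure Y) (a : Y → ℂ) (ζ τ : Y → ℝ)
    (z : ℝ × ℝ) : ℂ := ∫ y, a y * ex (z.2 * ζ y - z.1 * τ y) ∂m

section EI

variable {Y Y' : Type*} [MeasurableSpace Y] [MeasurableSpace Y'] {m : Measure Y}
  {m' : Measure Y'} {a : Y → ℂ} {a' : Y' → ℂ} {ζ τ : Y → ℝ} {ζ' τ' : Y' → ℝ}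

lemma EI_integrand_integrable (ha : Integrable a m) (hζ : Measurable ζ) (hτ : Measurable τ)
    (z : ℝ × ℝ) : Integrable (fun y => a y * ex (z.2 * ζ y - z.1 * τ y)) m := by
  refine ha.norm.mono' (ha.aestronglyMeasurable.mul (Measurable.aestronglyMeasurable (by fun_prop)))
    (Filter.Eventually.of_forall fun y => ?_)
  simp

lemma EI_continuous (ha : Integrable a m) (hζ : Measurable ζ) (hτ : Measurable τ) :
    Continuous (EI m a ζ τ) := by
  unfold EI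
  refine continuous_of_dominated (bound := fun y => ‖a y‖) (fun z => ?_) (fun z => ?_) ha.norm ?_
  · exact (EI_integrand_integrable ha hζ hτ z).aestronglyMeasurable
  · exact Filter.Eventually.of_forall fun y => by simp
  · exact Filter.Eventually.of_forall fun y => by fun_prop

lemma norm_EI_le (z : ℝ × ℝ) : ‖EI m a ζ τ z‖ ≤ ∫ y, ‖a y‖ ∂m := by
  refine (norm_integral_le_integral_norm _).trans (le_of_eq ?_)
  simp

lemma enorm_EI_le (z : ℝ × ℝ) : ‖EI m a ζ τ z‖ₑ ≤ ∫⁻ y, ‖a y‖ₑ ∂m := by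
  refine (enorm_integral_le_lintegral_enorm _).trans (le_of_eq ?_)
  simp [enorm_mul]

lemma EI_mul [SFinite m] [SFinite m'] (z : ℝ × ℝ) :
    EI m a ζ τ z * EI m' a' ζ' τ' z =
      EI (m.prod m') (fun y => a y.1 * a' y.2) (fun y => ζ y.1 + ζ' y.2)
        (fun y => τ y.1 + τ' y.2) z := by
  unfold EI
  rw [← integral_prod_mul]
  refine integral_congr_ae (Filter.Eventually.of_forall fun y => ?_)
  simp only
  rw [show z.2 * (ζ y.1 + ζ' y.2) - z.1 * (τ y.1 + τ' y.2) =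
    (z.2 * ζ y.1 - z.1 * τ y.1) + (z.2 * ζ' y.2 - z.1 * τ' y.2) by ring, ex_add]
  ring

lemma conj_EI (z : ℝ × ℝ) :
    conj (EI m a ζ τ z) = EI m (fun y => conj (a y)) (fun y => -ζ y) (fun y => -τ y) z := by
  unfold EI
  rw [← integral_conj]
  refine integral_congr_ae (Filter.Eventually.of_forall fun y => ?_)
  simp only [map_mul, conj_ex]
  congr 2; ring

/-- Fourier transform of a weight -/
noncomputable def What (W : ℝ × ℝ → ℝ) (ζ τ : ℝ) : ℂ :=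
  ∫ z : ℝ × ℝ, (W z : ℂ) * ex (z.2 * ζ - z.1 * τ)

lemma integral_weight_EI [SFinite m] {W : ℝ × ℝ → ℝ} (hW : Integrable W) (ha : Integrable a m)
    (hζ : Measurable ζ) (hτ : Measurable τ) :
    ∫ z, (W z : ℂ) * EI m a ζ τ z = ∫ y, a y * What W (ζ y) (τ y) ∂m := by
  unfold EI What
  simp_rw [← integral_const_mul]
  rw [integral_integral_swap]
  · refine integral_congr_ae (Filter.Eventually.of_forall fun y => ?_)
    refine integral_congr_ae (Filter.Eventually.of_forall fun z => ?_)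
    simp only; ring
  · have h1 : Integrable (fun p : (ℝ × ℝ) × Y => (W p.1 : ℂ) * a p.2) (volume.prod m) :=
      hW.ofReal.mul_prod ha
    refine h1.norm.mono' ?_ (Filter.Eventually.of_forall fun p => ?_)
    · have h2 : AEStronglyMeasurable
          (fun p : (ℝ × ℝ) × Y => ex (p.1.2 * ζ p.2 - p.1.1 * τ p.2)) (volume.prod m) :=
        Measurable.aestronglyMeasurable (by fun_prop)
      refine (h1.aestronglyMeasurable.mul h2).congr (Filter.Eventually.of_forall fun p => ?_)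
      simp only [Function.uncurry, Pi.mul_apply]; ring
    · simp [Function.uncurry]

end EI

/-- `Φ` is a superposition of exponentials with frequencies in `A` -/
def HasSpec (Φ : ℝ × ℝ → ℂ) (A : Set (ℝ × ℝ)) : Prop :=
  ∃ (Y : Type) (_ : MeasurableSpace Y) (m : Measure Y) (_ : SFinite m) (a : Y → ℂ) (ζ τ : Y → ℝ),
    Integrable a m ∧ Measurable ζ ∧ Measurable τ ∧ (∀ y, a y ≠ 0 → (ζ y, τ y) ∈ A) ∧
      ∀ z, Φ z = EI m a ζ τ z

lemma HasSpec.mul {Φ Ψ : ℝ × ℝ → ℂ} {A B : Set (ℝ × ℝ)} (h : HasSpec Φ A) (h' : HasSpec Ψ B) :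
    HasSpec (fun z => Φ z * Ψ z) {p | ∃ q ∈ A, ∃ r ∈ B, p = q + r} := by
  obtain ⟨Y, _, m, _, a, ζ, τ, ha, hζ, hτ, hA, hΦ⟩ := h
  obtain ⟨Y', _, m', _, a', ζ', τ', ha', hζ', hτ', hB, hΨ⟩ := h'
  refine ⟨Y × Y', inferInstance, m.prod m', inferInstance, fun y => a y.1 * a' y.2,
    fun y => ζ y.1 + ζ' y.2, fun y => τ y.1 + τ' y.2, ha.mul_prod ha', by fun_prop, by fun_prop,
    fun y hy => ?_, fun z => ?_⟩
  · exact ⟨_, hA _ (left_ne_zero_of_mul hy), _, hB _ (right_ne_zero_of_mul hy), rfl⟩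
  · simp only [hΦ, hΨ, EI_mul]

lemma HasSpec.conj {Φ : ℝ × ℝ → ℂ} {A : Set (ℝ × ℝ)} (h : HasSpec Φ A) :
    HasSpec (fun z => conj (Φ z)) {p | -p ∈ A} := by
  obtain ⟨Y, _, m, _, a, ζ, τ, ha, hζ, hτ, hA, hΦ⟩ := h
  refine ⟨Y, inferInstance, m, inferInstance, fun y => conj (a y), fun y => -ζ y, fun y => -τ y,
    ?_, by fun_prop, by fun_prop, fun y hy => ?_, fun z => ?_⟩
  · exact (Complex.conjCLE.toContinuousLinearMap.integrable_comp ha)
  · have := hA y (by simpa using hy)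
    simpa using this
  · simp only [hΦ, conj_EI]

lemma HasSpec.integral_eq_zero {Φ : ℝ × ℝ → ℂ} {A : Set (ℝ × ℝ)} (h : HasSpec Φ A)
    {W : ℝ × ℝ → ℝ} (hW : Integrable W) (hA : ∀ p ∈ A, What W p.1 p.2 = 0) :
    ∫ z, (W z : ℂ) * Φ z = 0 := by
  obtain ⟨Y, _, m, _, a, ζ, τ, ha, hζ, hτ, hA', hΦ⟩ := h
  simp_rw [hΦ]
  rw [integral_weight_EI hW ha hζ hτ]
  refine (integral_congr_ae (Filter.Eventually.of_forall fun y => ?_)).trans (integral_zero _ _)
  by_cases hy : a y = 0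
  · simp [hy]
  · simp [hA _ (hA' y hy)]

lemma HasSpec.continuous {Φ : ℝ × ℝ → ℂ} {A : Set (ℝ × ℝ)} (h : HasSpec Φ A) : Continuous Φ := by
  obtain ⟨Y, _, m, _, a, ζ, τ, ha, hζ, hτ, hA', hΦ⟩ := h
  have : Φ = EI m a ζ τ := funext hΦ
  rw [this]; exact EI_continuous ha hζ hτ

lemma HasSpec.bdd {Φ : ℝ × ℝ → ℂ} {A : Set (ℝ × ℝ)} (h : HasSpec Φ A) :
    ∃ C, ∀ z, ‖Φ z‖ ≤ C := by
  obtain ⟨Y, _, m, _, a, ζ, τ, ha, hζ, hτ, hA', hΦ⟩ := h
  exact ⟨_, fun z => by rw [hΦ]; exact norm_EI_le z⟩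

section weighted

variable {X : Type*} [MeasurableSpace X] {μ : Measure X} {W : X → ℝ}

lemma integrable_weight_mul (hW : Integrable W μ) {f : X → ℂ} (hf : AEStronglyMeasurable f μ)
    (hb : ∃ C, ∀ x, ‖f x‖ ≤ C) : Integrable (fun x => (W x : ℂ) * f x) μ := by
  obtain ⟨C, hC⟩ := hb
  exact hW.ofReal.mul_bdd hf (Filter.Eventually.of_forall hC)

lemma integrable_weight_sq (hW : Integrable W μ) {f : X → ℂ} (hf : AEStronglyMeasurable f μ)
    (hb : ∃ C, ∀ x, ‖f x‖ ≤ C) : Integrable (fun x => W x * ‖f x‖ ^ 2) μ := by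
  obtain ⟨C, hC⟩ := hb
  refine hW.mul_bdd (c := C ^ 2) (hf.norm.pow 2) (Filter.Eventually.of_forall fun x => ?_)
  rw [norm_pow, norm_norm]
  exact pow_le_pow_left₀ (norm_nonneg _) (hC x) 2

lemma lintegral_weight_sq (hW : Integrable W μ) (hW0 : ∀ x, 0 ≤ W x) {f : X → ℂ}
    (hf : AEStronglyMeasurable f μ) (hb : ∃ C, ∀ x, ‖f x‖ ≤ C) :
    ∫⁻ x, ENNReal.ofReal (W x) * ‖f x‖ₑ ^ 2 ∂μ = ENNReal.ofReal (∫ x, W x * ‖f x‖ ^ 2 ∂μ) := by
  rw [ofReal_integral_eq_lintegral_ofReal (integrable_weight_sq hW hf hb)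
    (Filter.Eventually.of_forall fun x => mul_nonneg (hW0 x) (by positivity))]
  refine lintegral_congr fun x => ?_
  rw [ENNReal.ofReal_mul (hW0 x), ENNReal.ofReal_pow (norm_nonneg _), ofReal_norm]

lemma integral_weight_sq_eq (f : X → ℂ) :
    ((∫ x, W x * ‖f x‖ ^ 2 ∂μ : ℝ) : ℂ) = ∫ x, (W x : ℂ) * (f x * conj (f x)) ∂μ := by
  rw [← integral_complex_ofReal]
  refine integral_congr_ae (Filter.Eventually.of_forall fun x => ?_)
  simp only [Complex.mul_conj, normSq_eq_norm_sq]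
  push_cast; ring

open Classical in
/-- almost orthogonality for a finite family -/
lemma orth_sum (hW : Integrable W μ) (hW0 : ∀ x, 0 ≤ W x) {ι : Type*} (s : Finset ι)
    (Φ : ι → X → ℂ) (hm : ∀ i, AEStronglyMeasurable (Φ i) μ) (hb : ∀ i, ∃ C, ∀ x, ‖Φ i x‖ ≤ C)
    (K : ℕ) (hK : ∀ i ∈ s,
      (s.filter fun j => ∫ x, (W x : ℂ) * (Φ i x * conj (Φ j x)) ∂μ ≠ 0).card ≤ K) :
    ∫⁻ x, ENNReal.ofReal (W x) * ‖∑ i ∈ s, Φ i x‖ₑ ^ 2 ∂μ ≤
      K * ∑ i ∈ s, ∫⁻ x, ENNReal.ofReal (W x) * ‖Φ i x‖ₑ ^ 2 ∂μ := by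
  have hms : AEStronglyMeasurable (fun x => ∑ i ∈ s, Φ i x) μ :=
    Finset.aestronglyMeasurable_fun_sum s fun i _ => hm i
  have hbs : ∃ C, ∀ x, ‖∑ i ∈ s, Φ i x‖ ≤ C := by
    choose C hC using hb
    exact ⟨∑ i ∈ s, C i, fun x => (norm_sum_le _ _).trans (Finset.sum_le_sum fun i _ => hC i x)⟩
  set n : ι → ℝ := fun i => ∫ x, W x * ‖Φ i x‖ ^ 2 ∂μ with hn
  have hn0 : ∀ i, 0 ≤ n i := fun i =>
    integral_nonneg fun x => mul_nonneg (hW0 x) (by positivity)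
  set ip : ι → ι → ℂ := fun i j => ∫ x, (W x : ℂ) * (Φ i x * conj (Φ j x)) ∂μ with hip
  have hint : ∀ i j, Integrable (fun x => (W x : ℂ) * (Φ i x * conj (Φ j x))) μ := by
    intro i j
    refine integrable_weight_mul hW ((hm i).mul (Complex.continuous_conj.comp_aestronglyMeasurable
      (hm j))) ?_
    obtain ⟨C, hC⟩ := hb i
    obtain ⟨C', hC'⟩ := hb j
    refine ⟨C * C', fun x => ?_⟩
    rw [norm_mul, RCLike.norm_conj]
    exact mul_le_mul (hC x) (hC' x) (norm_nonneg _) ((norm_nonneg _).trans (hC x))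
  have hsymm : ∀ i j, ip j i = conj (ip i j) := by
    intro i j
    simp only [hip]
    rw [← integral_conj]
    refine integral_congr_ae (Filter.Eventually.of_forall fun x => ?_)
    simp only [map_mul, conj_ofReal, conj_conj]; ring
  have hle : ∀ i j, ‖ip i j‖ ≤ (n i + n j) / 2 := by
    intro i j
    have h1 : (n i + n j) / 2 = ∫ x, (W x * ‖Φ i x‖ ^ 2 + W x * ‖Φ j x‖ ^ 2) / 2 ∂μ := by
      rw [integral_div, integral_add (integrable_weight_sq hW (hm i) (hb i))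
        (integrable_weight_sq hW (hm j) (hb j))]
    rw [h1]
    refine norm_integral_le_of_norm_le (((integrable_weight_sq hW (hm i) (hb i)).add
        (integrable_weight_sq hW (hm j) (hb j))).div_const 2)
      (Filter.Eventually.of_forall fun x => ?_)
    rw [norm_mul, norm_mul, RCLike.norm_conj, norm_real, Real.norm_eq_abs, abs_of_nonneg (hW0 x)]
    nlinarith [hW0 x, sq_nonneg (‖Φ i x‖ - ‖Φ j x‖)]
  have hexp : ((∫ x, W x * ‖∑ i ∈ s, Φ i x‖ ^ 2 ∂μ : ℝ) : ℂ) = ∑ i ∈ s, ∑ j ∈ s, ip i j := by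
    rw [integral_weight_sq_eq]
    simp only [hip]
    simp_rw [← integral_finsetSum _ (fun j _ => hint _ j)]
    rw [← integral_finsetSum _ (fun i _ => integrable_finsetSum _ fun j _ => hint i j)]
    refine integral_congr_ae (Filter.Eventually.of_forall fun x => ?_)
    simp only
    rw [map_sum, Finset.sum_mul_sum]
    simp only [Finset.mul_sum]
  have hreal : ∫ x, W x * ‖∑ i ∈ s, Φ i x‖ ^ 2 ∂μ ≤ K * ∑ i ∈ s, n i := by
    have h1 : ∫ x, W x * ‖∑ i ∈ s, Φ i x‖ ^ 2 ∂μ ≤ ‖∑ i ∈ s, ∑ j ∈ s, ip i j‖ := by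
      rw [← hexp, norm_real]; exact le_abs_self _
    have h2 : ‖∑ i ∈ s, ∑ j ∈ s, ip i j‖ ≤
        ∑ i ∈ s, ∑ j ∈ s, if ip i j ≠ 0 then (n i + n j) / 2 else 0 := by
      refine (norm_sum_le _ _).trans (Finset.sum_le_sum fun i _ => ?_)
      refine (norm_sum_le _ _).trans (Finset.sum_le_sum fun j _ => ?_)
      split_ifs with h
      · exact hle i j
      · simp only [ne_eq, not_not] at h; simp [h]
    have h3 : ∀ i ∈ s, ∑ j ∈ s, (if ip i j ≠ 0 then n i / 2 else 0) ≤ K * (n i / 2) := by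
      intro i hi
      rw [← Finset.sum_filter, Finset.sum_const, nsmul_eq_mul]
      have : (((s.filter fun j => ip i j ≠ 0).card : ℕ) : ℝ) ≤ K := by exact_mod_cast hK i hi
      exact mul_le_mul_of_nonneg_right this (by linarith [hn0 i])
    have h4 : ∑ i ∈ s, ∑ j ∈ s, (if ip i j ≠ 0 then (n i + n j) / 2 else 0) =
        ∑ i ∈ s, ∑ j ∈ s, (if ip i j ≠ 0 then n i / 2 else 0) +
        ∑ i ∈ s, ∑ j ∈ s, (if ip i j ≠ 0 then n i / 2 else 0) := by
      conv_rhs => arg 2; rw [Finset.sum_comm]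
      rw [← Finset.sum_add_distrib]
      refine Finset.sum_congr rfl fun i _ => ?_
      rw [← Finset.sum_add_distrib]
      refine Finset.sum_congr rfl fun j _ => ?_
      have : ip j i ≠ 0 ↔ ip i j ≠ 0 := by rw [hsymm i j]; simp
      simp only [this]
      split_ifs <;> ring
    have h5 := Finset.sum_le_sum h3
    rw [← Finset.mul_sum, ← Finset.sum_div] at h5
    linarith
  rw [lintegral_weight_sq hW hW0 hms hbs]
  simp_rw [fun i => lintegral_weight_sq hW hW0 (hm i) (hb i)]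
  rw [← ENNReal.ofReal_sum_of_nonneg (fun i _ => hn0 i), ← ENNReal.ofReal_natCast,
    ← ENNReal.ofReal_mul (Nat.cast_nonneg _)]
  exact ENNReal.ofReal_le_ofReal hreal

end weighted

/-- Schur test -/
lemma schur {Y : Type*} [MeasurableSpace Y] {m : Measure Y} [SFinite m] {a : Y → ℂ}
    {ζ τ : Y → ℝ} (ham : Measurable a) (ha : Integrable a m) (hζ : Measurable ζ)
    (hτ : Measurable τ) {W : ℝ × ℝ → ℝ} (hW : Integrable W) (hW0 : ∀ z, 0 ≤ W z)
    {H : Y × Y → ℝ≥0∞} (hH : Measurable H) (hsymm : ∀ y y', H (y, y') = H (y', y))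
    (hle : ∀ y y', a y ≠ 0 → a y' ≠ 0 → ‖What W (ζ y - ζ y') (τ y - τ y')‖ₑ ≤ H (y, y'))
    {B : ℝ≥0∞} (hB : ∀ y, ∫⁻ y', H (y, y') ∂m ≤ B) :
    ∫⁻ z, ENNReal.ofReal (W z) * ‖EI m a ζ τ z‖ₑ ^ 2 ≤ B * ∫⁻ y, ‖a y‖ₑ ^ 2 ∂m := by
  have hc := EI_continuous ha hζ hτ
  rw [lintegral_weight_sq hW hW0 hc.aestronglyMeasurable ⟨_, fun z => norm_EI_le z⟩]
  have h1 : ENNReal.ofReal (∫ z, W z * ‖EI m a ζ τ z‖ ^ 2) ≤
      ‖∫ z, (W z : ℂ) * (EI m a ζ τ z * conj (EI m a ζ τ z))‖ₑ := by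
    rw [← integral_weight_sq_eq, ← ofReal_norm, norm_real]
    exact ENNReal.ofReal_le_ofReal (le_abs_self _)
  refine h1.trans ?_
  have hac : Integrable (fun y => conj (a y)) m :=
    Complex.conjCLE.toContinuousLinearMap.integrable_comp ha
  simp_rw [conj_EI, EI_mul]
  rw [integral_weight_EI hW (ha.mul_prod hac) (by fun_prop) (by fun_prop)]
  refine (enorm_integral_le_lintegral_enorm _).trans ?_
  have h2 : ∫⁻ y : Y × Y, ‖a y.1 * conj (a y.2) * What W (ζ y.1 + -ζ y.2) (τ y.1 + -τ y.2)‖ₑ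
      ∂(m.prod m) ≤ ∫⁻ y : Y × Y, ‖a y.1‖ₑ * ‖a y.2‖ₑ * H y ∂(m.prod m) := by
    refine lintegral_mono fun y => ?_
    by_cases h : a y.1 = 0
    · simp [h]
    by_cases h' : a y.2 = 0
    · simp [h']
    have := hle y.1 y.2 h h'
    simp only [enorm_mul, RCLike.enorm_conj, ← sub_eq_add_neg]
    gcongr
  refine h2.trans ?_
  have h3 := sq_lintegral_le (m.prod m) (h := fun y : Y × Y => ‖a y.1‖ₑ * ‖a y.2‖ₑ * H y)
    (a := fun y => ‖a y.1‖ₑ ^ 2 * H y) (b := fun y => ‖a y.2‖ₑ ^ 2 * H y)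
    (Measurable.aemeasurable (by fun_prop)) (Measurable.aemeasurable (by fun_prop))
    (fun y => le_of_eq (by ring))
  have h4 : ∫⁻ y : Y × Y, ‖a y.1‖ₑ ^ 2 * H y ∂(m.prod m) ≤ B * ∫⁻ y, ‖a y‖ₑ ^ 2 ∂m := by
    rw [lintegral_prod _ (Measurable.aemeasurable (by fun_prop)), mul_comm,
      ← lintegral_mul_const _ (by fun_prop)]
    refine lintegral_mono fun y => ?_
    simp only
    rw [lintegral_const_mul _ (by fun_prop)]
    gcongr; exact hB y
  have h5 : ∫⁻ y : Y × Y, ‖a y.2‖ₑ ^ 2 * H y ∂(m.prod m) ≤ B * ∫⁻ y, ‖a y‖ₑ ^ 2 ∂m := by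
    rw [lintegral_prod_symm _ (Measurable.aemeasurable (by fun_prop)), mul_comm,
      ← lintegral_mul_const _ (by fun_prop)]
    refine lintegral_mono fun y => ?_
    simp only
    rw [lintegral_const_mul _ (by fun_prop)]
    simp_rw [hsymm _ y]
    gcongr; exact hB y
  have h6 := h3.trans (mul_le_mul' h4 h5)
  rw [← sq] at h6
  exact (ENNReal.pow_le_pow_left_iff (by norm_num)).mp h6

/-- the box weight -/
noncomputable def Wt (D ε s b c : ℝ) (z : ℝ × ℝ) : ℝ :=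
  w (D * (z.1 - s)) * w (ε * (z.2 - b - 2 * c * z.1))

lemma Wt_nonneg (D ε s b c : ℝ) (z : ℝ × ℝ) : 0 ≤ Wt D ε s b c z :=
  mul_nonneg (w_nonneg _) (w_nonneg _)

@[fun_prop] lemma Wt_cont (D ε s b c : ℝ) : Continuous (Wt D ε s b c) := by unfold Wt; fun_prop

lemma w_scale_integrable {a : ℝ} (ha : 0 < a) (s : ℝ) : Integrable fun x => w (a * (x - s)) :=
  (w_integrable.comp_mul_left' ha.ne').comp_sub_right s

lemma Wt_integrable {D ε : ℝ} (hD : 0 < D) (hε : 0 < ε) (s b c : ℝ) :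
    Integrable (Wt D ε s b c) := by
  rw [Measure.volume_eq_prod, integrable_prod_iff (Wt_cont D ε s b c).aestronglyMeasurable]
  constructor
  · refine Filter.Eventually.of_forall fun t => ?_
    unfold Wt
    simp only [sub_sub]
    exact (w_scale_integrable hε _).const_mul _
  · have : (fun t => ∫ x, ‖Wt D ε s b c (t, x)‖) =
        fun t => w (D * (t - s)) * ∫ x, w (ε * x) := by
      funext t
      simp only [Real.norm_eq_abs, abs_of_nonneg (Wt_nonneg _ _ _ _ _ _)]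
      unfold Wt
      simp only [sub_sub]
      rw [integral_const_mul, integral_sub_right_eq_self (fun x => w (ε * x))]
    rw [this]
    exact (w_scale_integrable hD s).mul_const _

lemma w_scale_ft {a : ℝ} (ha : 0 < a) (s θ : ℝ) :
    ∫ x, (w (a * (x - s)) : ℂ) * ex (x * θ) =
      ex (s * θ) * ((a⁻¹ : ℝ) : ℂ) * ∫ x, (w x : ℂ) * ex (x * (θ / a)) := by
  rw [← integral_add_right_eq_self _ s]
  simp only [add_sub_cancel_right, add_mul, ex_add, ← mul_assoc]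
  rw [integral_mul_const]
  have := Measure.integral_comp_mul_left (fun u : ℝ => (w u : ℂ) * ex (u * (θ / a))) a
  have e : ∀ x : ℝ, a * x * (θ / a) = x * θ := fun x => by field_simp
  simp only [e] at this
  rw [this, abs_of_pos (inv_pos.mpr ha), real_smul]
  ring

lemma What_Wt {D ε : ℝ} (hD : 0 < D) (hε : 0 < ε) (s b c ζ τ : ℝ) :
    What (Wt D ε s b c) ζ τ =
      ex (b * ζ) * ex (s * (2 * c * ζ - τ)) * ((D⁻¹ * ε⁻¹ : ℝ) : ℂ) *
        (∫ x, (w x : ℂ) * ex (x * (ζ / ε))) * ∫ x, (w x : ℂ) * ex (x * ((2 * c * ζ - τ) / D)) := by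
  unfold What
  rw [Measure.volume_eq_prod, integral_prod]
  · have h1 : ∀ t : ℝ, ∫ x : ℝ, (Wt D ε s b c (t, x) : ℂ) * ex (x * ζ - t * τ) =
        (ex (b * ζ) * ((ε⁻¹ : ℝ) : ℂ) * ∫ x, (w x : ℂ) * ex (x * (ζ / ε))) *
          ((w (D * (t - s)) : ℂ) * ex (t * (2 * c * ζ - τ))) := by
      intro t
      have h2 := w_scale_ft hε (b + 2 * c * t) ζ
      have h3 : ∀ x : ℝ, (Wt D ε s b c (t, x) : ℂ) * ex (x * ζ - t * τ) =
          ((w (D * (t - s)) : ℂ) * ex (-(t * τ))) *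
            ((w (ε * (x - (b + 2 * c * t))) : ℂ) * ex (x * ζ)) := by
        intro x
        unfold Wt
        simp only [sub_sub, sub_eq_add_neg (x * ζ), ex_add]
        push_cast; ring
      simp_rw [h3]
      rw [integral_const_mul, h2, show t * (2 * c * ζ - τ) = 2 * c * t * ζ + -(t * τ) by ring,
        add_mul, ex_add, ex_add]
      ring
    simp_rw [h1]
    rw [integral_const_mul, w_scale_ft hD]
    push_cast; ring
  · rw [← Measure.volume_eq_prod]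
    exact integrable_weight_mul (Wt_integrable hD hε s b c)
      (Continuous.aestronglyMeasurable (by fun_prop)) ⟨1, fun z => by simp⟩

lemma What_Wt_eq_zero {D ε : ℝ} (hD : 0 < D) (hε : 0 < ε) (s b c : ℝ) {ζ τ : ℝ}
    (h : ε ≤ |ζ| ∨ D ≤ |τ - 2 * c * ζ|) : What (Wt D ε s b c) ζ τ = 0 := by
  rw [What_Wt hD hε]
  rcases h with h | h
  · rw [w_ft (θ := ζ / ε)]
    · simp
    · rwa [abs_div, abs_of_pos hε, le_div_iff₀ hε, one_mul]
  · rw [w_ft (θ := (2 * c * ζ - τ) / D)]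
    · simp
    · rwa [abs_div, abs_of_pos hD, le_div_iff₀ hD, one_mul, abs_sub_comm]

lemma norm_What_Wt_le {D ε : ℝ} (hD : 0 < D) (hε : 0 < ε) (s b c ζ τ : ℝ) :
    ‖What (Wt D ε s b c) ζ τ‖ ≤ D⁻¹ * ε⁻¹ * Iw ^ 2 := by
  rw [What_Wt hD hε]
  simp only [norm_mul, norm_ex, one_mul, norm_real, Real.norm_eq_abs]
  rw [abs_of_pos (inv_pos.mpr hD), abs_of_pos (inv_pos.mpr hε), mul_assoc, sq]
  gcongr
  · exact Iw_nonneg
  · exact norm_w_ft_le _
  · exact norm_w_ft_le _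

end Pool.Agent.Lib.MP_fe1582_an
end

-- part Pool.Agent.Lib.MP_fe1582_an.Arith
section

/-!
Divisor bound, counting lemmas and the `L^4` bound for exponential sums over squares.
-/

namespace Pool.Agent.Lib.MP_fe1582_an

open MeasureTheory Complex
open scoped ENNReal NNReal Real ComplexConjugate

lemma divisor_bound {ε : ℝ} (hε : 0 < ε) :
    ∃ C : ℝ, 1 ≤ C ∧ ∀ n : ℕ, n ≠ 0 → (n.divisors.card : ℝ) ≤ C * (n : ℝ) ^ ε := by
  have hl : 0 < Real.log 2 := Real.log_pos (by norm_num)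
  set c : ℝ := 1 + 1 / (ε * Real.log 2) with hc
  have hc1 : 1 ≤ c := by rw [hc]; have : 0 < 1 / (ε * Real.log 2) := by positivity
                         linarith
  set L : ℕ := ⌈(2 : ℝ) ^ (1 / ε)⌉₊ with hL
  refine ⟨c ^ L, one_le_pow₀ hc1, fun n hn => ?_⟩
  have key : ∀ p ∈ n.primeFactors, ((n.factorization p + 1 : ℕ) : ℝ) ≤
      (if p < L then c else 1) * (((p : ℝ) ^ n.factorization p) ^ ε) := by
    intro p hp
    have hp2 : (2 : ℝ) ≤ p := by exact_mod_cast (Nat.prime_of_mem_primeFactors hp).two_le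
    set a := n.factorization p
    have ha0 : (0 : ℝ) ≤ a := Nat.cast_nonneg a
    split_ifs with h
    · have h1 : ((2 : ℝ) ^ a) ^ ε ≤ ((p : ℝ) ^ a) ^ ε := by gcongr
      have h2 : 1 + a * (ε * Real.log 2) ≤ ((2 : ℝ) ^ a) ^ ε := by
        rw [Real.rpow_def_of_pos (by positivity), Real.log_pow]
        have := Real.add_one_le_exp (a * Real.log 2 * ε)
        nlinarith
      have h3 : ((a + 1 : ℕ) : ℝ) ≤ c * (1 + a * (ε * Real.log 2)) := by
        have hx : 0 < ε * Real.log 2 := by positivity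
        have : c * (1 + a * (ε * Real.log 2)) =
            1 + a * (ε * Real.log 2) + 1 / (ε * Real.log 2) + a := by rw [hc]; field_simp; ring
        rw [this]; push_cast
        have : 0 < 1 / (ε * Real.log 2) := by positivity
        nlinarith [mul_nonneg ha0 hx.le]
      exact h3.trans (mul_le_mul_of_nonneg_left (h2.trans h1) (by linarith))
    · have h1 : (2 : ℝ) ^ (1 / ε) ≤ p := by
        have : (L : ℝ) ≤ p := by exact_mod_cast not_lt.mp h
        exact (Nat.le_ceil _).trans this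
      have h2 : (2 : ℝ) ≤ (p : ℝ) ^ ε := by
        have := Real.rpow_le_rpow (by positivity) h1 hε.le
        rwa [← Real.rpow_mul (by norm_num), one_div_mul_cancel hε.ne', Real.rpow_one] at this
      have h3 : ((p : ℝ) ^ a) ^ ε = ((p : ℝ) ^ ε) ^ a := by
        rw [← Real.rpow_natCast, ← Real.rpow_natCast, ← Real.rpow_mul (by positivity),
          ← Real.rpow_mul (by positivity), mul_comm]
      rw [one_mul, h3]
      have h4 : ((a + 1 : ℕ) : ℝ) ≤ 2 ^ a := by exact_mod_cast Nat.lt_two_pow_self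
      exact h4.trans (pow_le_pow_left₀ (by norm_num) h2 a)
  rw [Nat.card_divisors hn, Nat.cast_prod]
  refine (Finset.prod_le_prod (fun p _ => by positivity) key).trans ?_
  rw [Finset.prod_mul_distrib, Real.finsetProd_rpow _ _ (fun p _ => by positivity)]
  have h5 : ∏ p ∈ n.primeFactors, (p : ℝ) ^ n.factorization p = n := by
    have := Nat.prod_factorization_pow_eq_self hn
    rw [Finsupp.prod, Nat.support_factorization] at this
    exact_mod_cast this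
  rw [h5]
  refine mul_le_mul_of_nonneg_right ?_ (by positivity)
  rw [← Finset.prod_filter, Finset.prod_const]
  refine pow_le_pow_right₀ hc1 ?_
  calc (n.primeFactors.filter fun p => p < L).card ≤ (Finset.range L).card :=
        Finset.card_le_card fun p hp => Finset.mem_range.mpr (Finset.mem_filter.mp hp).2
    _ = L := Finset.card_range L

lemma card_le_of_diam (s : Finset ℤ) {d : ℝ} (hd : 0 ≤ d)
    (h : ∀ a ∈ s, ∀ b ∈ s, (b : ℝ) - a ≤ d) : (s.card : ℝ) ≤ d + 1 := by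
  rcases s.eq_empty_or_nonempty with rfl | hs
  · simp; linarith
  have h1 : s ⊆ Finset.Icc (s.min' hs) (s.max' hs) := fun x hx =>
    Finset.mem_Icc.mpr ⟨s.min'_le x hx, s.le_max' x hx⟩
  have h2 := Finset.card_le_card h1
  rw [Int.card_Icc] at h2
  have h3 := h _ (s.min'_mem hs) _ (s.max'_mem hs)
  have h4 : s.min' hs ≤ s.max' hs := s.min'_le _ (s.max'_mem hs)
  have h5 : (s.card : ℤ) ≤ s.max' hs + 1 - s.min' hs := by omega
  have h6 : (s.card : ℝ) ≤ s.max' hs + 1 - s.min' hs := by exact_mod_cast h5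
  linarith

open Classical in
lemma card_sq_window (Λ : Finset ℤ) {M : ℝ} (hM : 0 < M) (h : ∀ n ∈ Λ, n = 0 ∨ M ≤ |(n : ℝ)|)
    (c : ℝ) {L : ℝ} (hL : 0 ≤ L) :
    ((Λ.filter fun n : ℤ => |(n : ℝ) ^ 2 - c| ≤ L).card : ℝ) ≤ 3 + 2 * L / M := by
  set A := Λ.filter fun n : ℤ => |(n : ℝ) ^ 2 - c| ≤ L ∧ M ≤ (n : ℝ)
  set B := Λ.filter fun n : ℤ => |(n : ℝ) ^ 2 - c| ≤ L ∧ (n : ℝ) ≤ -M
  have hsub : (Λ.filter fun n : ℤ => |(n : ℝ) ^ 2 - c| ≤ L) ⊆ {0} ∪ (A ∪ B) := by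
    intro n hn
    obtain ⟨h1, h2⟩ := Finset.mem_filter.mp hn
    simp only [Finset.mem_union, Finset.mem_singleton, A, B, Finset.mem_filter]
    rcases h n h1 with h3 | h3
    · exact Or.inl h3
    · rcases le_abs.mp h3 with h4 | h4
      · exact Or.inr (Or.inl ⟨h1, h2, h4⟩)
      · exact Or.inr (Or.inr ⟨h1, h2, by linarith⟩)
  have hA : (A.card : ℝ) ≤ L / M + 1 := by
    refine card_le_of_diam A (by positivity) fun a ha b hb => ?_
    obtain ⟨-, ha1, ha2⟩ := Finset.mem_filter.mp ha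
    obtain ⟨-, hb1, hb2⟩ := Finset.mem_filter.mp hb
    rw [le_div_iff₀ hM]
    rw [abs_le] at ha1 hb1
    by_cases hab : (b : ℝ) - a ≤ 0
    · nlinarith
    · nlinarith
  have hB : (B.card : ℝ) ≤ L / M + 1 := by
    refine card_le_of_diam B (by positivity) fun a ha b hb => ?_
    obtain ⟨-, ha1, ha2⟩ := Finset.mem_filter.mp ha
    obtain ⟨-, hb1, hb2⟩ := Finset.mem_filter.mp hb
    rw [le_div_iff₀ hM]
    rw [abs_le] at ha1 hb1
    by_cases hab : (b : ℝ) - a ≤ 0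
    · nlinarith
    · nlinarith
  have h1 := Finset.card_le_card hsub
  have h2 := Finset.card_union_le ({0} : Finset ℤ) (A ∪ B)
  have h3 := Finset.card_union_le A B
  rw [Finset.card_singleton] at h2
  have h4 : (((Λ.filter fun n : ℤ => |(n : ℝ) ^ 2 - c| ≤ L).card : ℕ) : ℝ) ≤
      1 + A.card + B.card := by
    have h5 : (Λ.filter fun n : ℤ => |(n : ℝ) ^ 2 - c| ≤ L).card ≤ 1 + A.card + B.card := by omega
    have h6 := (Nat.cast_le (α := ℝ)).mpr h5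
    rwa [Nat.cast_add, Nat.cast_add, Nat.cast_one] at h6
  have : 2 * L / M = L / M + L / M := by ring
  linarith

lemma card_fiber_le {ε : ℝ} (hε : 0 < ε) : ∃ C : ℝ, 1 ≤ C ∧ ∀ (N : ℝ) (n0 : ℤ) (Λ : Finset ℤ),
    1 ≤ N → (∀ n ∈ Λ, |(n : ℝ) - n0| ≤ N) → ∀ l : ℤ, l ≠ 0 →
      (((Λ ×ˢ Λ).filter fun q : ℤ × ℤ => q.1 ^ 2 - q.2 ^ 2 = l).card : ℝ) ≤ C * N ^ ε := by
  obtain ⟨C, hC1, hC⟩ := divisor_bound (show 0 < ε / 3 by positivity)
  have h16 : (1 : ℝ) ≤ 16 ^ (ε / 3) := Real.one_le_rpow (by norm_num) (by positivity)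
  refine ⟨2 * C * 16 ^ (ε / 3), by nlinarith, fun N n0 Λ hN hΛ l hl => ?_⟩
  have hNε : 1 ≤ N ^ ε := Real.one_le_rpow hN hε.le
  set S := (Λ ×ˢ Λ).filter fun q : ℤ × ℤ => q.1 ^ 2 - q.2 ^ 2 = l with hS
  have hmem : ∀ q ∈ S, q.1 ∈ Λ ∧ q.2 ∈ Λ ∧ (q.1 - q.2) * (q.1 + q.2) = l := by
    intro q hq
    obtain ⟨h1, h2⟩ := Finset.mem_filter.mp hq
    obtain ⟨h3, h4⟩ := Finset.mem_product.mp h1
    exact ⟨h3, h4, by rw [← h2]; ring⟩
  have hinj : Set.InjOn (fun q : ℤ × ℤ => q.1 - q.2) S := by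
    intro q hq q' hq' h
    obtain ⟨-, -, h1⟩ := hmem q hq
    obtain ⟨-, -, h2⟩ := hmem q' hq'
    simp only at h
    have h0 : q.1 - q.2 ≠ 0 := by rintro h0; rw [h0] at h1; simp at h1; exact hl h1.symm
    have h3 : q.1 + q.2 = q'.1 + q'.2 := by
      apply mul_left_cancel₀ h0
      rw [h1, h, h2]
    ext <;> omega
  by_cases hcard : S.card ≤ 1
  · have : (S.card : ℝ) ≤ 1 := by exact_mod_cast hcard
    nlinarith [mul_le_mul hC1 h16 zero_le_one (by linarith)]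
  obtain ⟨q, hq, q', hq', hne⟩ := Finset.one_lt_card.mp (not_le.mp hcard)
  have hne' : q.1 - q.2 ≠ q'.1 - q'.2 := fun h => hne (hinj hq hq' h)
  obtain ⟨h1, h2, h3⟩ := hmem q hq
  obtain ⟨h1', h2', h3'⟩ := hmem q' hq'
  have hlb : |(l : ℝ)| ≤ 16 * N ^ 3 := by
    have e1 := abs_le.mp (hΛ _ h1)
    have e2 := abs_le.mp (hΛ _ h2)
    have e3 := abs_le.mp (hΛ _ h1')
    have e4 := abs_le.mp (hΛ _ h2')
    have ha : |(q.1 : ℝ) - q.2| ≤ 2 * N := abs_le.mpr ⟨by linarith, by linarith⟩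
    have ha' : |(q'.1 : ℝ) - q'.2| ≤ 2 * N := abs_le.mpr ⟨by linarith, by linarith⟩
    have he : |((q'.1 : ℝ) + q'.2) - (q.1 + q.2)| ≤ 4 * N := abs_le.mpr ⟨by linarith, by linarith⟩
    have hd : (1 : ℝ) ≤ |((q.1 : ℝ) - q.2) - (q'.1 - q'.2)| := by
      have : (1 : ℤ) ≤ |(q.1 - q.2) - (q'.1 - q'.2)| := Int.one_le_abs (sub_ne_zero.mpr hne')
      exact_mod_cast this
    have h4 : ((q.1 : ℝ) - q.2) * (q.1 + q.2) = l := by exact_mod_cast h3
    have h5 : ((q'.1 : ℝ) - q'.2) * (q'.1 + q'.2) = l := by exact_mod_cast h3'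
    have h6 : (((q.1 : ℝ) - q.2) - (q'.1 - q'.2)) * (q.1 + q.2) =
        (q'.1 - q'.2) * (((q'.1 : ℝ) + q'.2) - (q.1 + q.2)) := by linear_combination h4 - h5
    have h7 : |(q.1 : ℝ) + q.2| ≤ 8 * N ^ 2 := by
      have h8 := congrArg abs h6
      rw [abs_mul, abs_mul] at h8
      have h9 : |(q'.1 : ℝ) - q'.2| * |((q'.1 : ℝ) + q'.2) - (q.1 + q.2)| ≤ (2 * N) * (4 * N) :=
        mul_le_mul ha' he (abs_nonneg _) (by linarith)
      nlinarith [abs_nonneg ((q.1 : ℝ) + q.2)]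
    rw [← h4, abs_mul]
    calc _ ≤ (2 * N) * (8 * N ^ 2) := mul_le_mul ha h7 (abs_nonneg _) (by linarith)
      _ = _ := by ring
  have hl' : l.natAbs ≠ 0 := Int.natAbs_ne_zero.mpr hl
  have hsub : S.card ≤ 2 * l.natAbs.divisors.card := by
    have hmap : Set.MapsTo (fun q : ℤ × ℤ => q.1 - q.2) S
        ((l.natAbs.divisors.image fun d : ℕ => (d : ℤ)) ∪
          (l.natAbs.divisors.image fun d : ℕ => -(d : ℤ)) : Finset ℤ) := by
      intro r hr
      obtain ⟨-, -, h4⟩ := hmem r hr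
      have h5 : (r.1 - r.2).natAbs ∈ l.natAbs.divisors :=
        Nat.mem_divisors.mpr ⟨Int.natAbs_dvd_natAbs.mpr ⟨_, h4.symm⟩, hl'⟩
      simp only [Finset.coe_union, Finset.coe_image, Set.mem_union, Set.mem_image,
        Finset.mem_coe]
      rcases Int.natAbs_eq (r.1 - r.2) with h6 | h6
      · exact Or.inl ⟨_, h5, h6.symm⟩
      · exact Or.inr ⟨_, h5, h6.symm⟩
    have h4 := Finset.card_le_card_of_injOn _ hmap hinj
    have h5 := Finset.card_union_le (l.natAbs.divisors.image fun d : ℕ => (d : ℤ))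
      (l.natAbs.divisors.image fun d : ℕ => -(d : ℤ))
    have h6 := Finset.card_image_le (s := l.natAbs.divisors) (f := fun d : ℕ => (d : ℤ))
    have h7 := Finset.card_image_le (s := l.natAbs.divisors) (f := fun d : ℕ => -(d : ℤ))
    omega
  have h8 := hC _ hl'
  have h9 : ((l.natAbs : ℕ) : ℝ) ^ (ε / 3) ≤ 16 ^ (ε / 3) * N ^ ε := by
    have : ((l.natAbs : ℕ) : ℝ) = |(l : ℝ)| := by
      rw [← Int.cast_abs, Nat.cast_natAbs]
    rw [this]
    calc |(l : ℝ)| ^ (ε / 3) ≤ (16 * N ^ 3) ^ (ε / 3) := by gcongr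
      _ = 16 ^ (ε / 3) * N ^ ε := by
          rw [Real.mul_rpow (by norm_num) (by positivity), ← Real.rpow_natCast N 3,
            ← Real.rpow_mul (by linarith)]
          congr 2; push_cast; ring
  have h10 : (S.card : ℝ) ≤ 2 * l.natAbs.divisors.card := by exact_mod_cast hsub
  calc (S.card : ℝ) ≤ 2 * (C * (16 ^ (ε / 3) * N ^ ε)) := by
        refine h10.trans ?_
        gcongr
        exact h8.trans (by gcongr)
    _ = _ := by ring

/-- exponential sum over squares -/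
noncomputable def Gs (Λ : Finset ℤ) (a : ℤ → ℂ) (t : ℝ) : ℂ :=
  ∑ n ∈ Λ, a n * ex (-(t * (n : ℝ) ^ 2))

lemma Gs_cont (Λ : Finset ℤ) (a : ℤ → ℂ) : Continuous (Gs Λ a) := by unfold Gs; fun_prop

lemma diag_sum_le (Λ : Finset ℤ) (a : ℤ → ℝ) :
    ∑ q ∈ (Λ ×ˢ Λ).filter (fun q : ℤ × ℤ => q.1 ^ 2 - q.2 ^ 2 = 0), a q.1 * a q.2 ≤
      2 * ∑ n ∈ Λ, a n ^ 2 := by
  have hc : ∀ n : ℤ, (Λ.filter fun m : ℤ => n ^ 2 - m ^ 2 = 0).card ≤ 2 := by
    intro n
    have : (Λ.filter fun m : ℤ => n ^ 2 - m ^ 2 = 0) ⊆ {n, -n} := by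
      intro m hm
      have h := (Finset.mem_filter.mp hm).2
      have h2 : (m - n) * (m + n) = 0 := by linear_combination -h
      rcases mul_eq_zero.mp h2 with h3 | h3
      · simp [show m = n by omega]
      · simp [show m = -n by omega]
    exact (Finset.card_le_card this).trans Finset.card_le_two
  have h1 : ∀ f : ℤ → ℝ, (∀ n, 0 ≤ f n) →
      ∑ q ∈ (Λ ×ˢ Λ).filter (fun q : ℤ × ℤ => q.1 ^ 2 - q.2 ^ 2 = 0), f q.1 ≤
        2 * ∑ n ∈ Λ, f n := by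
    intro f hf
    rw [Finset.sum_filter, Finset.sum_product, Finset.mul_sum]
    refine Finset.sum_le_sum fun n _ => ?_
    simp only
    rw [← Finset.sum_filter, Finset.sum_const, nsmul_eq_mul]
    exact mul_le_mul_of_nonneg_right (by exact_mod_cast hc n) (hf n)
  have h2 : ∀ f : ℤ → ℝ, (∀ n, 0 ≤ f n) →
      ∑ q ∈ (Λ ×ˢ Λ).filter (fun q : ℤ × ℤ => q.1 ^ 2 - q.2 ^ 2 = 0), f q.2 ≤
        2 * ∑ n ∈ Λ, f n := by
    intro f hf
    rw [Finset.sum_filter, Finset.sum_product_right, Finset.mul_sum]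
    refine Finset.sum_le_sum fun n _ => ?_
    simp only
    rw [← Finset.sum_filter, Finset.sum_const, nsmul_eq_mul]
    refine mul_le_mul_of_nonneg_right ?_ (hf n)
    have : (Λ.filter fun m : ℤ => m ^ 2 - n ^ 2 = 0) = Λ.filter fun m : ℤ => n ^ 2 - m ^ 2 = 0 :=
      Finset.filter_congr fun m _ => by constructor <;> intro h <;> linarith
    rw [this]
    exact_mod_cast hc n
  have h3 := h1 (fun n => a n ^ 2) fun n => sq_nonneg _
  have h4 := h2 (fun n => a n ^ 2) fun n => sq_nonneg _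
  have h5 : ∑ q ∈ (Λ ×ˢ Λ).filter (fun q : ℤ × ℤ => q.1 ^ 2 - q.2 ^ 2 = 0), a q.1 * a q.2 ≤
      ∑ q ∈ (Λ ×ˢ Λ).filter (fun q : ℤ × ℤ => q.1 ^ 2 - q.2 ^ 2 = 0),
        (a q.1 ^ 2 + a q.2 ^ 2) / 2 :=
    Finset.sum_le_sum fun q _ => by nlinarith [sq_nonneg (a q.1 - a q.2)]
  rw [← Finset.sum_div, Finset.sum_add_distrib] at h5
  linarith

lemma lintegral_we_sub (u : ℝ) : ∫⁻ t, we (t - u) = ENNReal.ofReal Iw := by
  rw [lintegral_sub_right_eq_self we u, lintegral_we]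

/-- `L^4` bound for squares, with a band limited weight -/
lemma Gs_L4_w (Λ : Finset ℤ) (K : ℕ) (hK : ∀ l : ℤ, l ≠ 0 →
      ((Λ ×ˢ Λ).filter fun q : ℤ × ℤ => q.1 ^ 2 - q.2 ^ 2 = l).card ≤ K) (a : ℤ → ℂ) (u : ℝ) :
    ∫⁻ t, we (t - u) * ‖Gs Λ a t‖ₑ ^ 4 ≤
      (8 + 2 * K) * ENNReal.ofReal Iw * (∑ n ∈ Λ, ‖a n‖ₑ ^ 2) ^ 2 := by
  classical
  set Φ : ℤ × ℤ → ℝ → ℂ := fun q t =>
    a q.1 * conj (a q.2) * ex (-(t * ((q.1 : ℝ) ^ 2 - (q.2 : ℝ) ^ 2))) with hΦ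
  set S := (Λ ×ˢ Λ).filter fun q : ℤ × ℤ => ¬ (q.1 ^ 2 - q.2 ^ 2 = 0) with hS
  set ρ : ℝ := ∑ n ∈ Λ, ‖a n‖ ^ 2 with hρ
  have hρ0 : 0 ≤ ρ := Finset.sum_nonneg fun n _ => by positivity
  have hρe : ∑ n ∈ Λ, ‖a n‖ₑ ^ 2 = ENNReal.ofReal ρ := by
    rw [hρ, ENNReal.ofReal_sum_of_nonneg fun n _ => by positivity]
    exact Finset.sum_congr rfl fun n _ => by rw [ENNReal.ofReal_pow (norm_nonneg _), ofReal_norm]
  have hnΦ : ∀ q t, ‖Φ q t‖ = ‖a q.1‖ * ‖a q.2‖ := by intro q t; simp [hΦ]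
  have hpt : ∀ t, ‖Gs Λ a t‖ ^ 4 ≤ 8 * ρ ^ 2 + 2 * ‖∑ q ∈ S, Φ q t‖ ^ 2 := by
    intro t
    have h1 : Gs Λ a t * conj (Gs Λ a t) = ∑ q ∈ Λ ×ˢ Λ, Φ q t := by
      unfold Gs
      rw [map_sum, Finset.sum_mul_sum, Finset.sum_product]
      refine Finset.sum_congr rfl fun n _ => Finset.sum_congr rfl fun m _ => ?_
      simp only [hΦ, map_mul, conj_ex]
      rw [show -(t * ((n : ℝ) ^ 2 - (m : ℝ) ^ 2)) = -(t * (n : ℝ) ^ 2) + - -(t * (m : ℝ) ^ 2) by ring,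
        ex_add]
      ring
    have h2 : ‖Gs Λ a t‖ ^ 2 = ‖∑ q ∈ Λ ×ˢ Λ, Φ q t‖ := by
      rw [← h1, norm_mul, RCLike.norm_conj, sq]
    rw [← Finset.sum_filter_add_sum_filter_not (Λ ×ˢ Λ)
      (fun q : ℤ × ℤ => q.1 ^ 2 - q.2 ^ 2 = 0)] at h2
    have h3 : ‖∑ q ∈ (Λ ×ˢ Λ).filter (fun q : ℤ × ℤ => q.1 ^ 2 - q.2 ^ 2 = 0), Φ q t‖ ≤ 2 * ρ := by
      refine (norm_sum_le _ _).trans ?_
      simp_rw [hnΦ]
      exact diag_sum_le Λ fun n => ‖a n‖
    have h4 : ‖Gs Λ a t‖ ^ 2 ≤ 2 * ρ + ‖∑ q ∈ S, Φ q t‖ := by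
      rw [h2]; exact (norm_add_le _ _).trans (by gcongr)
    have h5 := pow_le_pow_left₀ (by positivity) h4 2
    rw [← pow_mul] at h5
    nlinarith [sq_nonneg (2 * ρ - ‖∑ q ∈ S, Φ q t‖)]
  have hW : Integrable (fun t => w (t - u)) := w_integrable.comp_sub_right u
  have hcont : ∀ q, Continuous (Φ q) := fun q => by simp only [hΦ]; fun_prop
  have horth := orth_sum hW (fun t => w_nonneg _) S Φ (fun q => (hcont q).aestronglyMeasurable)
    (fun q => ⟨_, fun t => (hnΦ q t).le⟩) K (by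
      intro q hq
      refine le_trans (Finset.card_le_card fun r hr => ?_) (hK _ (Finset.mem_filter.mp hq).2)
      obtain ⟨hr1, hr2⟩ := Finset.mem_filter.mp hr
      refine Finset.mem_filter.mpr ⟨(Finset.mem_filter.mp hr1).1, ?_⟩
      by_contra hne
      apply hr2
      set θ : ℝ := ((r.1 : ℝ) ^ 2 - (r.2 : ℝ) ^ 2) - ((q.1 : ℝ) ^ 2 - (q.2 : ℝ) ^ 2) with hθ
      have h1 : ∀ t, (w (t - u) : ℂ) * (Φ q t * conj (Φ r t)) =
          (a q.1 * conj (a q.2) * conj (a r.1 * conj (a r.2))) *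
            ((w (1 * (t - u)) : ℂ) * ex (t * θ)) := by
        intro t
        simp only [hΦ, map_mul, conj_ex, one_mul]
        rw [show t * θ = -(t * ((q.1 : ℝ) ^ 2 - (q.2 : ℝ) ^ 2)) +
          - -(t * ((r.1 : ℝ) ^ 2 - (r.2 : ℝ) ^ 2)) by rw [hθ]; ring, ex_add]
        ring
      simp_rw [h1]
      rw [integral_const_mul, w_scale_ft one_pos, w_ft]
      · simp
      · have : (1 : ℤ) ≤ |(r.1 ^ 2 - r.2 ^ 2) - (q.1 ^ 2 - q.2 ^ 2)| :=
          Int.one_le_abs (sub_ne_zero.mpr hne)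
        rw [div_one, hθ]
        exact_mod_cast this)
  have hsum : ∑ q ∈ S, ∫⁻ t, ENNReal.ofReal (w (t - u)) * ‖Φ q t‖ₑ ^ 2 ≤
      ENNReal.ofReal Iw * ENNReal.ofReal ρ ^ 2 := by
    have h1 : ∀ q, ∫⁻ t, ENNReal.ofReal (w (t - u)) * ‖Φ q t‖ₑ ^ 2 =
        ENNReal.ofReal Iw * (‖a q.1‖ₑ ^ 2 * ‖a q.2‖ₑ ^ 2) := by
      intro q
      have : ∀ t, ‖Φ q t‖ₑ ^ 2 = ‖a q.1‖ₑ ^ 2 * ‖a q.2‖ₑ ^ 2 := by
        intro t; simp [hΦ, enorm_mul, mul_pow]
      simp_rw [this]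
      rw [lintegral_mul_const _ (by fun_prop), ← lintegral_we_sub u]
      rfl
    simp_rw [h1]
    rw [← Finset.mul_sum, ← hρe, sq, Finset.sum_mul_sum, ← Finset.sum_product']
    gcongr
    exact Finset.filter_subset _ _
  calc ∫⁻ t, we (t - u) * ‖Gs Λ a t‖ₑ ^ 4
      ≤ ∫⁻ t, (we (t - u) * (8 * ENNReal.ofReal ρ ^ 2) +
          2 * (ENNReal.ofReal (w (t - u)) * ‖∑ q ∈ S, Φ q t‖ₑ ^ 2)) := by
        refine lintegral_mono fun t => ?_
        have h1 : ‖Gs Λ a t‖ₑ ^ 4 ≤ 8 * ENNReal.ofReal ρ ^ 2 + 2 * ‖∑ q ∈ S, Φ q t‖ₑ ^ 2 := by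
          have := ENNReal.ofReal_le_ofReal (hpt t)
          rw [ENNReal.ofReal_pow (norm_nonneg _), ofReal_norm,
            ENNReal.ofReal_add (by positivity) (by positivity), ENNReal.ofReal_mul (by norm_num),
            ENNReal.ofReal_mul (by norm_num), ENNReal.ofReal_pow hρ0,
            ENNReal.ofReal_pow (norm_nonneg _), ofReal_norm] at this
          simpa using this
        calc we (t - u) * ‖Gs Λ a t‖ₑ ^ 4 ≤ we (t - u) *
            (8 * ENNReal.ofReal ρ ^ 2 + 2 * ‖∑ q ∈ S, Φ q t‖ₑ ^ 2) := by gcongr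
          _ = _ := by unfold we; ring
    _ = ENNReal.ofReal Iw * (8 * ENNReal.ofReal ρ ^ 2) +
          2 * ∫⁻ t, ENNReal.ofReal (w (t - u)) * ‖∑ q ∈ S, Φ q t‖ₑ ^ 2 := by
        rw [lintegral_add_left (by fun_prop), lintegral_mul_const _ (by fun_prop), lintegral_we_sub,
          lintegral_const_mul' _ _ (by simp)]
    _ ≤ ENNReal.ofReal Iw * (8 * ENNReal.ofReal ρ ^ 2) +
          2 * (K * (ENNReal.ofReal Iw * ENNReal.ofReal ρ ^ 2)) := by
        gcongr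
        exact horth.trans (by gcongr)
    _ = _ := by rw [hρe]; ring

/-- passing from the band limited weight to the weight `P` -/
lemma exists_P_of_w : ∃ C : ℝ≥0, ∀ (f : ℝ → ℝ≥0∞), Measurable f → ∀ A : ℝ≥0∞,
    (∀ u, ∫⁻ t, we (t - u) * f t ≤ A) → ∫⁻ t, P t * f t ≤ C * A := by
  obtain ⟨C, hC⟩ := exists_P_le_conv
  refine ⟨4 * C, fun f hf A hA => ?_⟩
  calc ∫⁻ t, P t * f t ≤ ∫⁻ t, C * ∫⁻ u, P u * (we (t - u) * f t) := by
        refine lintegral_mono fun t => ?_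
        simp_rw [← mul_assoc]
        rw [lintegral_mul_const _ (by fun_prop), ← mul_assoc]
        gcongr; exact hC t
    _ = C * ∫⁻ u, P u * ∫⁻ t, we (t - u) * f t := by
        rw [lintegral_const_mul' _ _ (by simp), lintegral_lintegral_swap
          (Measurable.aemeasurable (by fun_prop))]
        congr 1
        refine lintegral_congr fun u => ?_
        rw [lintegral_const_mul _ (by fun_prop)]
    _ ≤ C * ∫⁻ u, P u * A := by gcongr with u; exact hA u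
    _ ≤ C * (4 * A) := by
        rw [lintegral_mul_const _ (by fun_prop)]
        gcongr; exact lintegral_P
    _ = _ := by push_cast; ring

/-- the `L^4` constant of a set of integers -/
def L4 (Λ : Finset ℤ) (R : ℝ≥0∞) : Prop :=
  ∀ a : ℤ → ℂ, ∫⁻ t, P t * ‖Gs Λ a t‖ₑ ^ 4 ≤ R * (∑ n ∈ Λ, ‖a n‖ₑ ^ 2) ^ 2

lemma exists_L4 {ε : ℝ} (hε : 0 < ε) : ∃ C : ℝ, 1 ≤ C ∧ ∀ (N : ℝ) (n0 : ℤ) (Λ : Finset ℤ),
    1 ≤ N → (∀ n ∈ Λ, |(n : ℝ) - n0| ≤ N) → L4 Λ (ENNReal.ofReal (C * N ^ ε)) := by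
  obtain ⟨C1, hC1, h1⟩ := card_fiber_le hε
  obtain ⟨C2, h2⟩ := exists_P_of_w
  refine ⟨1 + C2 * ((8 + 2 * C1) * Iw), by
    have := Iw_nonneg
    have : 0 ≤ C2 * ((8 + 2 * C1) * Iw) := by positivity
    linarith, fun N n0 Λ hN hΛ a => ?_⟩
  have hNε : 1 ≤ N ^ ε := Real.one_le_rpow hN hε.le
  have hI := Iw_nonneg
  have h3 := h2 (fun t => ‖Gs Λ a t‖ₑ ^ 4) ((Gs_cont Λ a).measurable.enorm.pow_const 4) _
    (Gs_L4_w Λ ⌊C1 * N ^ ε⌋₊ (fun l hl => Nat.le_floor (h1 N n0 Λ hN hΛ l hl)) a)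
  refine h3.trans ?_
  rw [← mul_assoc]
  gcongr
  have h4 : ((⌊C1 * N ^ ε⌋₊ : ℕ) : ℝ≥0∞) ≤ ENNReal.ofReal (C1 * N ^ ε) := by
    rw [← ENNReal.ofReal_natCast]
    exact ENNReal.ofReal_le_ofReal (Nat.floor_le (by positivity))
  calc (C2 : ℝ≥0∞) * ((8 + 2 * (⌊C1 * N ^ ε⌋₊ : ℕ)) * ENNReal.ofReal Iw)
      ≤ ENNReal.ofReal C2 * ((ENNReal.ofReal 8 + ENNReal.ofReal 2 * ENNReal.ofReal (C1 * N ^ ε)) *
          ENNReal.ofReal Iw) := by
        rw [ENNReal.ofReal_coe_nnreal]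
        gcongr <;> simp
    _ = ENNReal.ofReal (C2 * ((8 + 2 * (C1 * N ^ ε)) * Iw)) := by
        rw [← ENNReal.ofReal_mul (by norm_num), ← ENNReal.ofReal_add (by norm_num) (by positivity),
          ← ENNReal.ofReal_mul (by positivity), ← ENNReal.ofReal_mul (by positivity)]
    _ ≤ _ := by
        refine ENNReal.ofReal_le_ofReal ?_
        have h5 : (8 + 2 * (C1 * N ^ ε)) ≤ (8 + 2 * C1) * N ^ ε := by nlinarith
        have h6 : (C2 : ℝ) * ((8 + 2 * (C1 * N ^ ε)) * Iw) ≤ C2 * (((8 + 2 * C1) * N ^ ε) * Iw) := by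
          gcongr
        nlinarith

end Pool.Agent.Lib.MP_fe1582_an
end
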