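import Pool.Agent.Lib.MP_fe1582_an.Arith

-- part Pool.Agent.Lib.MP_fe1582_an.Setup
section

/-!
The extension operator on `ℝ × ℤ`, global `L^2` bounds, decomposition into blocks.
-/

namespace Pool.Agent.Lib.MP_fe1582_an

open MeasureTheory Complex
open scoped ENNReal NNReal Real ComplexConjugate

lemma Iw_pos : 0 < Iw := by
  obtain ⟨r, c, hr, -, hc, hw⟩ := exists_w_lower
  have h1 : ∫ x in Set.Icc (-r) r, c ≤ ∫ x in Set.Icc (-r) r, w x :=
    setIntegral_mono_on (by simp) w_integrable.integrableOn measurableSet_Icc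
      fun x hx => hw x (abs_le.mpr hx)
  have h2 : ∫ x in Set.Icc (-r) r, w x ≤ Iw :=
    setIntegral_le_integral w_integrable (Filter.Eventually.of_forall w_nonneg)
  have h3 : 0 < ∫ x in Set.Icc (-r) r, c := by
    rw [setIntegral_const, smul_eq_mul, Real.volume_real_Icc_of_le (by linarith)]
    have : 0 < r - -r := by linarith
    positivity
  linarith

/-- global `L^2` bound in the space variable -/
lemma exists_globalL2 : ∃ C : ℝ≥0, ∀ {Y : Type} [MeasurableSpace Y] {m : Measure Y} [SFinite m]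
    {a : Y → ℂ} {ζ τ : Y → ℝ}, Measurable a → Integrable a m → Measurable ζ → Measurable τ →
    ∀ {S : Set Y}, MeasurableSet S → (∀ y, a y ≠ 0 → y ∈ S) → ∀ {ε0 : ℝ}, 0 < ε0 →
    ∀ {B : ℝ≥0∞}, (∀ ε, 0 < ε → ε ≤ ε0 → ∀ y ∈ S,
      m {y' | y' ∈ S ∧ |ζ y - ζ y'| < ε ∧ |τ y - τ y'| < 1} ≤ B * ENNReal.ofReal ε) →
    ∀ u : ℝ, ∫⁻ z : ℝ × ℝ, we (z.1 - u) * ‖EI m a ζ τ z‖ₑ ^ 2 ≤ C * B * ∫⁻ y, ‖a y‖ₑ ^ 2 ∂m := by
  refine ⟨Real.toNNReal (Iw ^ 2 / w 0), ?_⟩
  intro Y _ m _ a ζ τ ham ha hζ hτ S hS haS ε0 hε0 B hB u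
  have hstep : ∀ ε, 0 < ε → ε ≤ ε0 →
      ∫⁻ z : ℝ × ℝ, ENNReal.ofReal (Wt 1 ε u 0 0 z) * ‖EI m a ζ τ z‖ₑ ^ 2 ≤
        ENNReal.ofReal (Iw ^ 2) * B * ∫⁻ y, ‖a y‖ₑ ^ 2 ∂m := by
    intro ε hε hεε
    set T : Set (Y × Y) :=
      {p | p.1 ∈ S ∧ p.2 ∈ S ∧ |ζ p.1 - ζ p.2| < ε ∧ |τ p.1 - τ p.2| < 1} with hT
    have hm1 : Measurable fun p : Y × Y => |ζ p.1 - ζ p.2| := by fun_prop
    have hm2 : Measurable fun p : Y × Y => |τ p.1 - τ p.2| := by fun_prop
    have hTm : MeasurableSet T :=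
      (measurable_fst hS).inter ((measurable_snd hS).inter
        ((measurableSet_lt hm1 measurable_const).inter
          (measurableSet_lt hm2 measurable_const)))
    refine schur ham ha hζ hτ (Wt_integrable one_pos hε u 0 0) (Wt_nonneg _ _ _ _ _)
      (H := T.indicator fun _ => ENNReal.ofReal (ε⁻¹ * Iw ^ 2))
      (measurable_const.indicator hTm) (fun y y' => ?_) (fun y y' h h' => ?_) (fun y => ?_)
    · have : (y, y') ∈ T ↔ (y', y) ∈ T := by
        simp only [hT, Set.mem_ofPred_eq, abs_sub_comm (ζ y), abs_sub_comm (τ y)]; tauto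
      by_cases h : (y, y') ∈ T
      · rw [Set.indicator_of_mem h, Set.indicator_of_mem (this.mp h)]
      · rw [Set.indicator_of_notMem h, Set.indicator_of_notMem (fun h' => h (this.mpr h'))]
    · by_cases hm : (y, y') ∈ T
      · rw [Set.indicator_of_mem hm, ← ofReal_norm]
        refine ENNReal.ofReal_le_ofReal ?_
        simpa using norm_What_Wt_le one_pos hε u 0 0 (ζ y - ζ y') (τ y - τ y')
      · rw [What_Wt_eq_zero one_pos hε]
        · simp
        · simp only [hT, Set.mem_ofPred_eq, haS y h, haS y' h', true_and, not_and_or, not_lt] at hm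
          simpa using hm
    · by_cases hy : y ∈ S
      · have h1 : (fun y' => T.indicator (fun _ => ENNReal.ofReal (ε⁻¹ * Iw ^ 2)) (y, y')) =
            {y' | y' ∈ S ∧ |ζ y - ζ y'| < ε ∧ |τ y - τ y'| < 1}.indicator
              fun _ => ENNReal.ofReal (ε⁻¹ * Iw ^ 2) := by
          funext y'
          have : (y, y') ∈ T ↔ y' ∈ {y' | y' ∈ S ∧ |ζ y - ζ y'| < ε ∧ |τ y - τ y'| < 1} := by
            simp only [hT, Set.mem_ofPred_eq, hy, true_and]
          by_cases h : (y, y') ∈ T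
          · rw [Set.indicator_of_mem h, Set.indicator_of_mem (this.mp h)]
          · rw [Set.indicator_of_notMem h, Set.indicator_of_notMem (fun h' => h (this.mpr h'))]
        rw [h1]
        refine (lintegral_indicator_const_le _ _).trans ?_
        calc _ ≤ ENNReal.ofReal (ε⁻¹ * Iw ^ 2) * (B * ENNReal.ofReal ε) := by
              gcongr; exact hB ε hε hεε y hy
          _ = _ := by
              rw [mul_comm B, ← mul_assoc, ← ENNReal.ofReal_mul (by positivity)]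
              congr 2; field_simp
      · have h1 : (fun y' => T.indicator (fun _ => ENNReal.ofReal (ε⁻¹ * Iw ^ 2)) (y, y')) =
            fun _ => 0 := by
          funext y'
          simp [Set.indicator, hT, hy]
        rw [h1]; simp
  have hc := (EI_continuous ha hζ hτ).measurable
  set F : ℕ → ℝ × ℝ → ℝ≥0∞ := fun j z =>
    ENNReal.ofReal (Wt 1 (ε0 * (1 / ((j : ℝ) + 1))) u 0 0 z) * ‖EI m a ζ τ z‖ₑ ^ 2 with hF
  have hlim : ∀ z : ℝ × ℝ, Filter.Tendsto (fun j => F j z) Filter.atTop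
      (nhds (we 0 * (we (z.1 - u) * ‖EI m a ζ τ z‖ₑ ^ 2))) := by
    intro z
    have h1 : Filter.Tendsto (fun j : ℕ => ε0 * (1 / ((j : ℝ) + 1))) Filter.atTop (nhds 0) := by
      simpa using tendsto_one_div_add_atTop_nhds_zero_nat.const_mul ε0
    have h2 : Continuous fun ε : ℝ => Wt 1 ε u 0 0 z := by unfold Wt; fun_prop
    have h3 := ENNReal.tendsto_ofReal ((h2.tendsto 0).comp h1)
    have h4 := ENNReal.Tendsto.mul_const (b := ‖EI m a ζ τ z‖ₑ ^ 2) h3 (Or.inr (by simp))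
    have h5 : we 0 * (we (z.1 - u) * ‖EI m a ζ τ z‖ₑ ^ 2) =
        ENNReal.ofReal (Wt 1 0 u 0 0 z) * ‖EI m a ζ τ z‖ₑ ^ 2 := by
      simp only [Wt, we, one_mul, zero_mul]
      rw [ENNReal.ofReal_mul (w_nonneg _)]; ring
    rw [h5]
    exact h4
  have hfat := lintegral_liminf_le (μ := (volume : Measure (ℝ × ℝ))) (f := F) (u := Filter.atTop)
    (fun j => by simp only [hF]; fun_prop)
  simp_rw [fun z => (hlim z).liminf_eq] at hfat
  have hle : Filter.liminf (fun j => ∫⁻ z, F j z) Filter.atTop ≤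
      ENNReal.ofReal (Iw ^ 2) * B * ∫⁻ y, ‖a y‖ₑ ^ 2 ∂m := by
    refine Filter.liminf_le_of_frequently_le' (Filter.Frequently.of_forall fun j => ?_)
    refine hstep _ (by positivity) ?_
    have : 1 / ((j : ℝ) + 1) ≤ 1 := by
      rw [div_le_one (by positivity)]; linarith [Nat.cast_nonneg (α := ℝ) j]
    nlinarith
  rw [lintegral_const_mul _ (by fun_prop)] at hfat
  have h5 := hfat.trans hle
  have hw0 := w_pos
  have e : ((Real.toNNReal (Iw ^ 2 / w 0) : ℝ≥0) : ℝ≥0∞) = ENNReal.ofReal (Iw ^ 2 / w 0) := rfl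
  have e2 : ENNReal.ofReal (w 0)⁻¹ * we 0 = 1 := by
    unfold we; rw [← ENNReal.ofReal_mul (by positivity), inv_mul_cancel₀ hw0.ne']; simp
  calc _ = ENNReal.ofReal (w 0)⁻¹ * (we 0 * ∫⁻ z : ℝ × ℝ, we (z.1 - u) * ‖EI m a ζ τ z‖ₑ ^ 2) := by
        rw [← mul_assoc, e2, one_mul]
    _ ≤ ENNReal.ofReal (w 0)⁻¹ * (ENNReal.ofReal (Iw ^ 2) * B * ∫⁻ y, ‖a y‖ₑ ^ 2 ∂m) := by gcongr
    _ = _ := by
        rw [e, div_eq_inv_mul, ENNReal.ofReal_mul (by positivity)]; ring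

/-- Plancherel inequality -/
lemma exists_plancherel : ∃ C : ℝ≥0, ∀ a : ℝ → ℂ, Measurable a → Integrable a →
    ∫⁻ x : ℝ, ‖∫ ξ, a ξ * ex (x * ξ)‖ₑ ^ 2 ≤ C * ∫⁻ ξ, ‖a ξ‖ₑ ^ 2 := by
  obtain ⟨C, hC⟩ := exists_globalL2
  have hI := Iw_pos
  refine ⟨Real.toNNReal Iw⁻¹ * (C * 2), fun a ham ha => ?_⟩
  have h1 := hC (m := volume) (ζ := fun ξ => ξ) (τ := fun _ => 0) ham ha measurable_id
    measurable_const MeasurableSet.univ (fun _ _ => trivial) one_pos (B := 2) (by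
      intro ε hε _ y _
      have : {y' : ℝ | y' ∈ Set.univ ∧ |y - y'| < ε ∧ |(0 : ℝ) - 0| < 1} ⊆
          Set.Ioo (y - ε) (y + ε) := by
        intro y' hy'
        have := abs_lt.mp hy'.2.1
        exact ⟨by linarith, by linarith⟩
      refine (measure_mono this).trans (le_of_eq ?_)
      rw [Real.volume_Ioo, show y + ε - (y - ε) = 2 * ε by ring, ENNReal.ofReal_mul (by norm_num)]
      simp) 0
  have hc : Continuous fun x : ℝ => ∫ ξ, a ξ * ex (x * ξ) := by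
    have := (EI_continuous (m := volume) (ζ := fun ξ => ξ) (τ := fun _ => 0) ha measurable_id
      measurable_const).comp (Continuous.prodMk_right (0 : ℝ))
    convert this using 2 with x
    simp [EI]
  have h2 : ∫⁻ z : ℝ × ℝ, we (z.1 - 0) * ‖EI volume a (fun ξ => ξ) (fun _ => 0) z‖ₑ ^ 2 =
      ENNReal.ofReal Iw * ∫⁻ x : ℝ, ‖∫ ξ, a ξ * ex (x * ξ)‖ₑ ^ 2 := by
    rw [← lintegral_we, ← lintegral_prod_mul (by fun_prop)
      (hc.measurable.enorm.pow_const 2).aemeasurable, Measure.volume_eq_prod]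
    simp [EI]
  rw [h2] at h1
  have e : ((Real.toNNReal Iw⁻¹ : ℝ≥0) : ℝ≥0∞) = ENNReal.ofReal Iw⁻¹ := rfl
  have e2 : ENNReal.ofReal Iw⁻¹ * ENNReal.ofReal Iw = 1 := by
    rw [← ENNReal.ofReal_mul (by positivity), inv_mul_cancel₀ hI.ne']; simp
  calc _ = ENNReal.ofReal Iw⁻¹ * (ENNReal.ofReal Iw * ∫⁻ x : ℝ, ‖∫ ξ, a ξ * ex (x * ξ)‖ₑ ^ 2) := by
        rw [← mul_assoc, e2, one_mul]
    _ ≤ ENNReal.ofReal Iw⁻¹ * (C * 2 * ∫⁻ ξ, ‖a ξ‖ₑ ^ 2) := by gcongr
    _ = _ := by push_cast; rw [e]; ring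

/-- Lebesgue times counting measure -/
noncomputable def μ0 : Measure (ℝ × ℤ) := (volume : Measure ℝ).prod Measure.count

instance : SFinite μ0 := by unfold μ0; infer_instance

/-- the space frequency -/
def fx (y : ℝ × ℤ) : ℝ := y.1

/-- the time frequency -/
def ft (y : ℝ × ℤ) : ℝ := y.1 ^ 2 + (y.2 : ℝ) ^ 2

@[fun_prop] lemma meas_intCast : Measurable fun n : ℤ => (n : ℝ) := Measurable.of_discrete
@[fun_prop] lemma fx_meas : Measurable fx := measurable_fst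
@[fun_prop] lemma ft_meas : Measurable ft := by unfold ft; fun_prop

/-- the extension operator with frequencies restricted to `S` -/
noncomputable def E (g : ℝ × ℤ → ℂ) (S : Set (ℝ × ℤ)) : ℝ × ℝ → ℂ :=
  EI μ0 (S.indicator g) fx ft

/-- `L^2` mass on `S` -/
noncomputable def mass (g : ℝ × ℤ → ℂ) (S : Set (ℝ × ℤ)) : ℝ≥0∞ := ∫⁻ y in S, ‖g y‖ₑ ^ 2 ∂μ0

variable {g : ℝ × ℤ → ℂ} {S : Set (ℝ × ℤ)}

lemma E_eq (hS : MeasurableSet S) (z : ℝ × ℝ) :
    E g S z = ∫ y in S, g y * ex (z.2 * fx y - z.1 * ft y) ∂μ0 := by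
  unfold E EI
  rw [← integral_indicator hS]
  refine integral_congr_ae (Filter.Eventually.of_forall fun y => ?_)
  by_cases h : y ∈ S <;> simp [h]

lemma mass_eq (hS : MeasurableSet S) : mass g S = ∫⁻ y, ‖S.indicator g y‖ₑ ^ 2 ∂μ0 := by
  unfold mass
  rw [← lintegral_indicator hS]
  refine lintegral_congr fun y => ?_
  by_cases h : y ∈ S <;> simp [h]

lemma mass_mono {S T : Set (ℝ × ℤ)} (h : S ⊆ T) : mass g S ≤ mass g T :=
  lintegral_mono_set h

lemma E_hasSpec (hg : Integrable g μ0) (hS : MeasurableSet S) :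
    HasSpec (E g S) {p | ∃ y ∈ S, p = (fx y, ft y)} :=
  ⟨ℝ × ℤ, inferInstance, μ0, inferInstance, S.indicator g, fx, ft, hg.indicator hS, fx_meas,
    ft_meas, fun y hy => ⟨y, Set.mem_of_indicator_ne_zero hy, rfl⟩, fun _ => rfl⟩

lemma E_cont (hg : Integrable g μ0) (hS : MeasurableSet S) : Continuous (E g S) :=
  (E_hasSpec hg hS).continuous

lemma E_biUnion (hg : Integrable g μ0) {ι : Type*} (s : Finset ι) (T : ι → Set (ℝ × ℤ))
    (hT : ∀ i, MeasurableSet (T i)) (hd : Set.PairwiseDisjoint (s : Set ι) T) (z : ℝ × ℝ) :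
    E g (⋃ i ∈ s, T i) z = ∑ i ∈ s, E g (T i) z := by
  rw [E_eq (Finset.measurableSet_biUnion s fun i _ => hT i), integral_biUnion_finset s
    (fun i _ => hT i) hd (fun i _ => (EI_integrand_integrable hg fx_meas ft_meas z).integrableOn)]
  exact Finset.sum_congr rfl fun i _ => (E_eq (hT i) z).symm

lemma mass_biUnion {ι : Type*} (s : Finset ι) (T : ι → Set (ℝ × ℤ))
    (hT : ∀ i, MeasurableSet (T i)) (hd : Set.PairwiseDisjoint (s : Set ι) T) :
    mass g (⋃ i ∈ s, T i) = ∑ i ∈ s, mass g (T i) :=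
  lintegral_biUnion_finset hd (fun i _ => hT i) _

/-- a block of frequencies -/
def blk (Λ : Finset ℤ) (a l : ℝ) : Set (ℝ × ℤ) := Set.Ico a (a + l) ×ˢ (Λ : Set ℤ)

lemma blk_meas (Λ : Finset ℤ) (a l : ℝ) : MeasurableSet (blk Λ a l) :=
  measurableSet_Ico.prod (MeasurableSet.of_discrete)

lemma mem_blk {Λ : Finset ℤ} {a l : ℝ} {y : ℝ × ℤ} :
    y ∈ blk Λ a l ↔ a ≤ y.1 ∧ y.1 < a + l ∧ y.2 ∈ Λ := by
  simp [blk, and_assoc]

lemma blk_split (Λ : Finset ℤ) (a : ℝ) {l : ℝ} (hl : 0 < l) (K : ℕ) :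
    blk Λ a (K * l) = ⋃ i ∈ Finset.range K, blk Λ (a + i * l) l := by
  ext y
  simp only [mem_blk, Set.mem_iUnion, Finset.mem_range, exists_prop]
  constructor
  · rintro ⟨h1, h2, h3⟩
    have h0 : 0 ≤ (y.1 - a) / l := div_nonneg (by linarith) hl.le
    refine ⟨⌊(y.1 - a) / l⌋₊, ?_, ?_, ?_, h3⟩
    · rw [Nat.floor_lt h0, div_lt_iff₀ hl]; linarith
    · have := Nat.floor_le h0
      rw [le_div_iff₀ hl] at this; linarith
    · have := Nat.lt_floor_add_one ((y.1 - a) / l)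
      rw [div_lt_iff₀ hl] at this; linarith
  · rintro ⟨i, hi, h1, h2, h3⟩
    have h4 : (i : ℝ) + 1 ≤ K := by exact_mod_cast hi
    have h5 : (0 : ℝ) ≤ i := Nat.cast_nonneg i
    exact ⟨by nlinarith, by nlinarith, h3⟩

lemma blk_disjoint (Λ : Finset ℤ) (a : ℝ) {l : ℝ} (hl : 0 < l) (s : Finset ℕ) :
    Set.PairwiseDisjoint (s : Set ℕ) fun i : ℕ => blk Λ (a + i * l) l := by
  intro i _ j _ hij
  refine Set.disjoint_left.mpr fun y h1 h2 => ?_
  rw [mem_blk] at h1 h2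
  rcases lt_or_gt_of_ne hij with h | h
  · have : (i : ℝ) + 1 ≤ j := by exact_mod_cast h
    nlinarith [h1.2.1, h2.1]
  · have : (j : ℝ) + 1 ≤ i := by exact_mod_cast h
    nlinarith [h2.2.1, h1.1]

lemma E_blk_split (hg : Integrable g μ0) (Λ : Finset ℤ) (a : ℝ) {l : ℝ} (hl : 0 < l) (K : ℕ)
    (z : ℝ × ℝ) : E g (blk Λ a (K * l)) z = ∑ i ∈ Finset.range K, E g (blk Λ (a + i * l) l) z := by
  rw [blk_split Λ a hl K, E_biUnion hg _ _ (fun i => blk_meas _ _ _) (blk_disjoint Λ a hl _)]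

lemma mass_blk_split (Λ : Finset ℤ) (a : ℝ) {l : ℝ} (hl : 0 < l) (K : ℕ) :
    mass g (blk Λ a (K * l)) = ∑ i ∈ Finset.range K, mass g (blk Λ (a + i * l) l) := by
  rw [blk_split Λ a hl K, mass_biUnion _ _ (fun i => blk_meas _ _ _) (blk_disjoint Λ a hl _)]

lemma mu0_restrict_single (J : Set ℝ) (n : ℤ) :
    μ0.restrict (J ×ˢ {n}) = Measure.map (fun ξ => (ξ, n)) (volume.restrict J) := by
  unfold μ0
  rw [← Measure.prod_restrict, Measure.restrict_singleton, Measure.count_singleton, one_smul,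
    Measure.prod_dirac]

lemma prod_finset_eq (J : Set ℝ) (Λ : Finset ℤ) :
    J ×ˢ (Λ : Set ℤ) = ⋃ n ∈ Λ, J ×ˢ ({n} : Set ℤ) := by
  ext y; simp

lemma prod_single_disjoint (J : Set ℝ) (Λ : Finset ℤ) :
    Set.PairwiseDisjoint (Λ : Set ℤ) fun n : ℤ => J ×ˢ ({n} : Set ℤ) := by
  intro i _ j _ hij
  refine Set.disjoint_left.mpr fun y h1 h2 => hij ?_
  rw [← h1.2, h2.2]

lemma integral_mu0_prod {J : Set ℝ} (hJ : MeasurableSet J) (Λ : Finset ℤ) {φ : ℝ × ℤ → ℂ}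
    (hφ : Integrable φ μ0) :
    ∫ y in J ×ˢ (Λ : Set ℤ), φ y ∂μ0 = ∑ n ∈ Λ, ∫ ξ in J, φ (ξ, n) := by
  rw [prod_finset_eq, integral_biUnion_finset Λ (fun n _ => hJ.prod (measurableSet_singleton n))
    (prod_single_disjoint J Λ) (fun _ _ => hφ.integrableOn)]
  refine Finset.sum_congr rfl fun n _ => ?_
  rw [mu0_restrict_single, (measurableEmbedding_prod_mk_right n).integral_map]

lemma lintegral_mu0_prod {J : Set ℝ} (hJ : MeasurableSet J) (Λ : Finset ℤ) (φ : ℝ × ℤ → ℝ≥0∞) :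
    ∫⁻ y in J ×ˢ (Λ : Set ℤ), φ y ∂μ0 = ∑ n ∈ Λ, ∫⁻ ξ in J, φ (ξ, n) := by
  rw [prod_finset_eq, lintegral_biUnion_finset (prod_single_disjoint J Λ)
    (fun n _ => hJ.prod (measurableSet_singleton n))]
  refine Finset.sum_congr rfl fun n _ => ?_
  rw [mu0_restrict_single, (measurableEmbedding_prod_mk_right n).lintegral_map]

lemma integrable_slice (hg : Integrable g μ0) (n : ℤ) : Integrable fun ξ => g (ξ, n) :=
  Measure.ae_count_iff.mp hg.prod_left_ae n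

lemma mu0_le (A : Set (ℝ × ℤ)) (T : Finset ℤ) (v : ℝ≥0∞) (hT : ∀ y ∈ A, y.2 ∈ T)
    (hv : ∀ n, volume {ξ | (ξ, n) ∈ A} ≤ v) : μ0 A ≤ T.card * v := by
  have h1 : A ⊆ ⋃ n ∈ T, {ξ | (ξ, n) ∈ A} ×ˢ ({n} : Set ℤ) := by
    intro y hy
    simp only [Set.mem_iUnion]
    exact ⟨y.2, hT y hy, hy, rfl⟩
  refine (measure_mono h1).trans ((measure_biUnion_finset_le _ _).trans ?_)
  rw [← nsmul_eq_mul, ← Finset.sum_const]
  refine Finset.sum_le_sum fun n _ => ?_
  unfold μ0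
  rw [Measure.prod_prod, Measure.count_singleton, mul_one]
  exact hv n

end Pool.Agent.Lib.MP_fe1582_an
end

-- part Pool.Agent.Lib.MP_fe1582_an.Tube
section

/-!
Wave packets: each unit cell of frequencies is dominated by an average over tubes.
-/

namespace Pool.Agent.Lib.MP_fe1582_an

open MeasureTheory Complex
open scoped ENNReal NNReal Real ComplexConjugate

lemma sq_norm_cpow_half (x : ℂ) : ‖x ^ (1 / 2 : ℂ)‖ ^ 2 = ‖x‖ := by
  have : (1 / 2 : ℂ) = ((1 / 2 : ℝ) : ℂ) := by push_cast; ring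
  rw [this, norm_cpow_real, ← Real.rpow_natCast, ← Real.rpow_mul (norm_nonneg _)]
  norm_num

lemma exp_neg_le (u : ℝ) (hu : 0 ≤ u) : Real.exp (-u) ≤ (1 + u)⁻¹ := by
  rw [Real.exp_neg]
  exact inv_anti₀ (by linarith) (by linarith [Real.add_one_le_exp u])

lemma exists_kernel (t : ℝ) : ∃ κ : ℝ → ℂ, Continuous κ ∧
    (∀ z, ‖κ z‖ ≤ 4 * (1 + t ^ 2) * (1 + z ^ 2)⁻¹) ∧
    ∀ η : ℝ, ∫ z, κ z * ex (z * η) = (Real.exp (-η ^ 2) : ℂ) * ex (-(t * η ^ 2)) := by
  set A : ℂ := 1 + t * I with hA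
  have hA0 : A ≠ 0 := fun h => by simpa [hA] using congrArg re h
  have hns : normSq A = 1 + t ^ 2 := by simp [hA, normSq_apply]; ring
  set b : ℂ := (4 * A)⁻¹ with hb
  have hbre : b.re = 1 / (4 * (1 + t ^ 2)) := by
    rw [hb, inv_re, map_mul, hns]
    simp [hA]
    field_simp
  have hb0 : 0 < b.re := by rw [hbre]; positivity
  set c : ℂ := (π / b) ^ (1 / 2 : ℂ) with hc
  have hcn : 1 ≤ ‖c‖ := by
    have h1 : ‖c‖ ^ 2 = π * (4 * ‖A‖) := by
      rw [hc, sq_norm_cpow_half, hb, div_inv_eq_mul, norm_mul, norm_mul, norm_real,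
        Real.norm_eq_abs, abs_of_pos Real.pi_pos]
      simp
    have h2 : 1 ≤ ‖A‖ := by simpa [hA] using re_le_norm A
    have h3 : 1 ≤ ‖c‖ ^ 2 := by rw [h1]; nlinarith [Real.pi_gt_three]
    nlinarith [norm_nonneg c]
  have hc0 : c ≠ 0 := fun h => by rw [h] at hcn; norm_num at hcn
  refine ⟨fun z => c⁻¹ * cexp (-b * (z : ℂ) ^ 2), by fun_prop, fun z => ?_, fun η => ?_⟩
  · rw [norm_mul, norm_inv, norm_cexp_neg_mul_sq, hbre]
    have h1 : ‖c‖⁻¹ ≤ 1 := inv_le_one_of_one_le₀ hcn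
    have h2 := exp_neg_le (1 / (4 * (1 + t ^ 2)) * z ^ 2) (by positivity)
    have h3 : (1 + 1 / (4 * (1 + t ^ 2)) * z ^ 2)⁻¹ ≤ 4 * (1 + t ^ 2) * (1 + z ^ 2)⁻¹ := by
      rw [← div_eq_mul_inv, inv_eq_one_div, div_le_div_iff₀ (by positivity) (by positivity)]
      have : 4 * (1 + t ^ 2) * (1 + 1 / (4 * (1 + t ^ 2)) * z ^ 2) = 4 * (1 + t ^ 2) + z ^ 2 := by
        field_simp
      rw [this]; nlinarith [sq_nonneg t]
    rw [neg_mul]
    calc _ ≤ 1 * Real.exp (-(1 / (4 * (1 + t ^ 2)) * z ^ 2)) := by gcongr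
      _ ≤ _ := by rw [one_mul]; exact h2.trans h3
  · have h1 := fourierIntegral_gaussian hb0 (η : ℂ)
    have h2 : ∀ z : ℝ, c⁻¹ * cexp (-b * (z : ℂ) ^ 2) * ex (z * η) =
        c⁻¹ * (cexp (I * η * z) * cexp (-b * (z : ℂ) ^ 2)) := by
      intro z
      simp only [ex]
      push_cast
      rw [show (z : ℂ) * η * I = I * η * z by ring]; ring
    simp_rw [h2]
    rw [integral_const_mul, h1, ← hc, ← mul_assoc, inv_mul_cancel₀ hc0, one_mul]
    simp only [ex]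
    push_cast
    rw [← Complex.exp_add]
    congr 1
    rw [hb]; field_simp; rw [hA]; ring

lemma EI_gauss {Y : Type*} [MeasurableSpace Y] {m : Measure Y} [SFinite m] {a : Y → ℂ}
    {ζ τ : Y → ℝ} (ha : Integrable a m) (hζ : Measurable ζ) (hτ : Measurable τ) (t x : ℝ) :
    ‖EI m (fun y => a y * (Real.exp (-ζ y ^ 2) : ℂ)) ζ (fun y => τ y + ζ y ^ 2) (t, x)‖ₑ ^ 2 ≤
      ENNReal.ofReal (64 * (1 + t ^ 2) ^ 2) * ∫⁻ v, P (x - v) * ‖EI m a ζ τ (t, v)‖ₑ ^ 2 := by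
  obtain ⟨κ, hκc, hκb, hκ⟩ := exists_kernel t
  have hκi : Integrable κ :=
    (integrable_inv_one_add_sq.const_mul (4 * (1 + t ^ 2))).mono' hκc.aestronglyMeasurable
      (Filter.Eventually.of_forall hκb)
  have h1 : EI m (fun y => a y * (Real.exp (-ζ y ^ 2) : ℂ)) ζ (fun y => τ y + ζ y ^ 2) (t, x) =
      ∫ z, κ z * EI m a ζ τ (t, x + z) := by
    unfold EI
    simp_rw [← integral_const_mul]
    rw [integral_integral_swap]
    · refine integral_congr_ae (Filter.Eventually.of_forall fun y => ?_)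
      have : ∀ z, κ z * (a y * ex ((x + z) * ζ y - t * τ y)) =
          a y * ex (x * ζ y - t * τ y) * (κ z * ex (z * ζ y)) := by
        intro z
        rw [show (x + z) * ζ y - t * τ y = (x * ζ y - t * τ y) + z * ζ y by ring, ex_add]; ring
      simp only
      simp_rw [this]
      rw [integral_const_mul, hκ, show x * ζ y - t * (τ y + ζ y ^ 2) =
        (x * ζ y - t * τ y) + -(t * ζ y ^ 2) by ring, ex_add]
      ring
    · have h1 : Integrable (fun p : ℝ × Y => κ p.1 * a p.2) (volume.prod m) := hκi.mul_prod ha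
      refine h1.norm.mono' ?_ (Filter.Eventually.of_forall fun p => ?_)
      · have h2 : AEStronglyMeasurable
            (fun p : ℝ × Y => ex ((x + p.1) * ζ p.2 - t * τ p.2)) (volume.prod m) :=
          Measurable.aestronglyMeasurable (by fun_prop)
        refine (h1.aestronglyMeasurable.mul h2).congr (Filter.Eventually.of_forall fun p => ?_)
        simp only [Function.uncurry, Pi.mul_apply]; ring
      · simp [Function.uncurry]
  have hc : Continuous fun v => EI m a ζ τ (t, v) :=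
    (EI_continuous ha hζ hτ).comp (Continuous.prodMk_right t)
  have hcm := hc.measurable
  have h2 : ‖∫ z, κ z * EI m a ζ τ (t, x + z)‖ₑ ≤
      ENNReal.ofReal (4 * (1 + t ^ 2)) * ∫⁻ v, P (x - v) * ‖EI m a ζ τ (t, v)‖ₑ := by
    refine (enorm_integral_le_lintegral_enorm _).trans ?_
    rw [← lintegral_add_left_eq_self (fun v => P (x - v) * ‖EI m a ζ τ (t, v)‖ₑ) x,
      ← lintegral_const_mul' _ _ ENNReal.ofReal_ne_top]
    refine lintegral_mono fun z => ?_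
    rw [enorm_mul, ← mul_assoc, show x - (x + z) = -z by ring, P_neg]
    gcongr
    unfold P
    rw [← ENNReal.ofReal_mul (by positivity), ← ofReal_norm]
    exact ENNReal.ofReal_le_ofReal (hκb z)
  have h3 := sq_lintegral_le volume (h := fun v => P (x - v) * ‖EI m a ζ τ (t, v)‖ₑ)
    (a := fun v => P (x - v)) (b := fun v => P (x - v) * ‖EI m a ζ τ (t, v)‖ₑ ^ 2)
    (Measurable.aemeasurable (by fun_prop)) (Measurable.aemeasurable (by fun_prop))
    (fun v => le_of_eq (by ring))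
  rw [h1]
  calc _ ≤ (ENNReal.ofReal (4 * (1 + t ^ 2)) * ∫⁻ v, P (x - v) * ‖EI m a ζ τ (t, v)‖ₑ) ^ 2 := by
        gcongr
    _ ≤ ENNReal.ofReal (4 * (1 + t ^ 2)) ^ 2 *
          (4 * ∫⁻ v, P (x - v) * ‖EI m a ζ τ (t, v)‖ₑ ^ 2) := by
        rw [mul_pow]
        gcongr
        exact h3.trans (by gcongr; exact lintegral_P_sub x)
    _ = _ := by
        rw [← mul_assoc, ← ENNReal.ofReal_pow (by positivity), ← ENNReal.ofReal_ofNat 4,
          ← ENNReal.ofReal_mul (by positivity)]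
        congr 2; ring

variable {g : ℝ × ℤ → ℂ}

/-- modified amplitude on a unit cell -/
noncomputable def ac (g : ℝ × ℤ → ℂ) (Λ : Finset ℤ) (k : ℝ) : ℝ × ℤ → ℂ :=
  (blk Λ k 1).indicator fun y => g y * (Real.exp ((y.1 - k) ^ 2) : ℂ)

/-- the frozen profile of a cell -/
noncomputable def Gc (g : ℝ × ℤ → ℂ) (Λ : Finset ℤ) (k : ℝ) : ℝ × ℝ → ℂ :=
  EI μ0 (ac g Λ k) (fun y => y.1 - k) (fun y => (y.2 : ℝ) ^ 2)

/-- coefficients of the profile -/
noncomputable def fc (g : ℝ × ℤ → ℂ) (Λ : Finset ℤ) (k : ℝ) (n : ℤ) (v : ℝ) : ℂ :=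
  ∫ ξ, ac g Λ k (ξ, n) * ex (v * (ξ - k))

/-- mass density of a cell -/
noncomputable def ρc (g : ℝ × ℤ → ℂ) (Λ : Finset ℤ) (k : ℝ) (v : ℝ) : ℝ≥0∞ :=
  ∑ n ∈ Λ, ‖fc g Λ k n v‖ₑ ^ 2

lemma norm_ac_le (Λ : Finset ℤ) (k : ℝ) (y : ℝ × ℤ) :
    ‖ac g Λ k y‖ ≤ 3 * ‖(blk Λ k 1).indicator g y‖ := by
  unfold ac
  by_cases h : y ∈ blk Λ k 1
  · rw [Set.indicator_of_mem h, Set.indicator_of_mem h, norm_mul, norm_real, mul_comm,
      Real.norm_eq_abs, abs_of_pos (Real.exp_pos _)]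
    gcongr
    rw [mem_blk] at h
    have h1 : (y.1 - k) ^ 2 ≤ 1 := by nlinarith [h.1, h.2.1]
    exact (Real.exp_le_exp.mpr h1).trans (by linarith [Real.exp_one_lt_d9])
  · simp [h]

lemma ac_meas (hgm : Measurable g) (Λ : Finset ℤ) (k : ℝ) : Measurable (ac g Λ k) :=
  Measurable.indicator (by fun_prop) (blk_meas _ _ _)

lemma ac_integrable (hgm : Measurable g) (hg : Integrable g μ0) (Λ : Finset ℤ) (k : ℝ) :
    Integrable (ac g Λ k) μ0 :=
  ((hg.indicator (blk_meas Λ k 1)).norm.const_mul 3).mono' (ac_meas hgm Λ k).aestronglyMeasurable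
    (Filter.Eventually.of_forall (norm_ac_le Λ k))

lemma Gc_cont (hgm : Measurable g) (hg : Integrable g μ0) (Λ : Finset ℤ) (k : ℝ) :
    Continuous (Gc g Λ k) :=
  EI_continuous (ac_integrable hgm hg Λ k) (by fun_prop) (by fun_prop)

lemma fc_cont (hgm : Measurable g) (hg : Integrable g μ0) (Λ : Finset ℤ) (k : ℝ) (n : ℤ) :
    Continuous (fc g Λ k n) := by
  have := (EI_continuous (m := volume) (ζ := fun ξ => ξ - k) (τ := fun _ => 0)
    (integrable_slice (ac_integrable hgm hg Λ k) n) (by fun_prop)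
      measurable_const).comp (Continuous.prodMk_right (0 : ℝ))
  have e : fc g Λ k n = EI volume (fun ξ => ac g Λ k (ξ, n)) (fun ξ => ξ - k) (fun _ => 0) ∘
      fun v => ((0 : ℝ), v) := by
    funext v; simp [EI, fc]
  rw [e]; exact this

lemma ρc_meas (hgm : Measurable g) (hg : Integrable g μ0) (Λ : Finset ℤ) (k : ℝ) :
    Measurable (ρc g Λ k) :=
  Finset.measurable_fun_sum _ fun n _ => ((fc_cont hgm hg Λ k n).measurable.enorm.pow_const 2)

lemma Gc_eq (hgm : Measurable g) (hg : Integrable g μ0) (Λ : Finset ℤ) (k t v : ℝ) :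
    Gc g Λ k (t, v) = Gs Λ (fun n => fc g Λ k n v) t := by
  have hi := EI_integrand_integrable (ζ := fun y : ℝ × ℤ => y.1 - k) (τ := fun y => (y.2 : ℝ) ^ 2)
    (ac_integrable hgm hg Λ k) (by fun_prop) (by fun_prop) (t, v)
  unfold Gc EI Gs fc
  rw [← setIntegral_eq_integral_of_forall_compl_eq_zero (s := Set.univ ×ˢ (Λ : Set ℤ)),
    integral_mu0_prod MeasurableSet.univ Λ hi]
  · refine Finset.sum_congr rfl fun n _ => ?_
    rw [Measure.restrict_univ, ← integral_mul_const]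
    refine integral_congr_ae (Filter.Eventually.of_forall fun ξ => ?_)
    simp only [sub_eq_add_neg (v * _), ex_add]; ring
  · intro y hy
    have : y ∉ blk Λ k 1 := fun h => hy ⟨trivial, (mem_blk.mp h).2.2⟩
    simp [ac, this]

lemma U_le (hgm : Measurable g) (hg : Integrable g μ0) (Λ : Finset ℤ) (k : ℝ) (z : ℝ × ℝ) :
    ‖E g (blk Λ k 1) z‖ₑ ^ 2 ≤ ENNReal.ofReal (64 * (1 + z.1 ^ 2) ^ 2) *
      ∫⁻ v, P (z.2 - 2 * k * z.1 - v) * ‖Gc g Λ k (z.1, v)‖ₑ ^ 2 := by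
  have h1 := EI_gauss (ζ := fun y : ℝ × ℤ => y.1 - k) (τ := fun y => (y.2 : ℝ) ^ 2)
    (ac_integrable hgm hg Λ k) (by fun_prop) (by fun_prop) z.1 (z.2 - 2 * k * z.1)
  refine le_trans (le_of_eq ?_) h1
  congr 1
  have h2 : E g (blk Λ k 1) z = ex (z.2 * k - z.1 * k ^ 2) *
      EI μ0 (fun y => ac g Λ k y * (Real.exp (-(y.1 - k) ^ 2) : ℂ)) (fun y => y.1 - k)
        (fun y => (y.2 : ℝ) ^ 2 + (y.1 - k) ^ 2) (z.1, z.2 - 2 * k * z.1) := by
    unfold E EI
    rw [← integral_const_mul]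
    refine integral_congr_ae (Filter.Eventually.of_forall fun y => ?_)
    by_cases h : y ∈ blk Λ k 1
    · simp only [ac, Set.indicator_of_mem h, fx, ft]
      rw [mul_assoc (g y), ← ofReal_mul, ← Real.exp_add, add_neg_cancel, Real.exp_zero,
        mul_left_comm, ← ex_add]
      simp only [ofReal_one, mul_one]
      congr 2; ring
    · simp [ac, h]
  rw [h2, enorm_mul, enorm_ex, one_mul]

lemma exists_rho_bound : ∃ C : ℝ≥0, ∀ (g : ℝ × ℤ → ℂ), Measurable g → Integrable g μ0 →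
    ∀ (Λ : Finset ℤ) (k : ℝ), ∫⁻ v, ρc g Λ k v ≤ C * mass g (blk Λ k 1) := by
  obtain ⟨C, hC⟩ := exists_plancherel
  refine ⟨C * 9, fun g hgm hg Λ k => ?_⟩
  unfold ρc
  rw [lintegral_finsetSum _ fun n _ => ((fc_cont hgm hg Λ k n).measurable.enorm.pow_const 2)]
  have h1 : ∀ n, ∫⁻ v, ‖fc g Λ k n v‖ₑ ^ 2 ≤ C * ∫⁻ ξ, ‖ac g Λ k (ξ, n)‖ₑ ^ 2 := by
    intro n
    refine le_trans (le_of_eq ?_) (hC _ ((ac_meas hgm Λ k).comp (by fun_prop))
      (integrable_slice (ac_integrable hgm hg Λ k) n))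
    refine lintegral_congr fun v => ?_
    have : fc g Λ k n v = (∫ ξ, ac g Λ k (ξ, n) * ex (v * ξ)) * ex (-(v * k)) := by
      unfold fc
      rw [← integral_mul_const]
      refine integral_congr_ae (Filter.Eventually.of_forall fun ξ => ?_)
      simp only [mul_sub, sub_eq_add_neg (v * _), ex_add]; ring
    rw [this, enorm_mul, enorm_ex, mul_one]
  refine (Finset.sum_le_sum fun n _ => h1 n).trans ?_
  have h2 := lintegral_mu0_prod MeasurableSet.univ Λ fun y => ‖ac g Λ k y‖ₑ ^ 2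
  simp only [Measure.restrict_univ] at h2
  rw [← Finset.mul_sum, ← h2, mass_eq (blk_meas _ _ _)]
  push_cast
  rw [mul_assoc]
  gcongr
  refine (setLIntegral_le_lintegral _ _).trans ?_
  rw [← lintegral_const_mul' _ _ (by simp)]
  refine lintegral_mono fun y => ?_
  have h3 : ‖ac g Λ k y‖ₑ ≤ 3 * ‖(blk Λ k 1).indicator g y‖ₑ := by
    rw [← ofReal_norm, ← ofReal_norm, ← ENNReal.ofReal_ofNat 3, ← ENNReal.ofReal_mul (by norm_num)]
    exact ENNReal.ofReal_le_ofReal (norm_ac_le Λ k y)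
  calc _ ≤ (3 * ‖(blk Λ k 1).indicator g y‖ₑ) ^ 2 := by gcongr
    _ = _ := by rw [mul_pow]; norm_num

/-- the `L^4` density of a cell -/
noncomputable def νc (g : ℝ × ℤ → ℂ) (Λ : Finset ℤ) (k : ℝ) (z : ℝ × ℝ) : ℝ≥0∞ :=
  ‖Gc g Λ k z‖ₑ ^ 4 / ρc g Λ k z.2

lemma νc_meas (hgm : Measurable g) (hg : Integrable g μ0) (Λ : Finset ℤ) (k : ℝ) :
    Measurable (νc g Λ k) :=
  ((Gc_cont hgm hg Λ k).measurable.enorm.pow_const 4).div
    ((ρc_meas hgm hg Λ k).comp measurable_snd)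

lemma ρc_ne_top (Λ : Finset ℤ) (k v : ℝ) : ρc g Λ k v ≠ ⊤ :=
  ENNReal.sum_ne_top.mpr fun _ _ => by simp

lemma Gc_pow_le (hgm : Measurable g) (hg : Integrable g μ0) (Λ : Finset ℤ) (k t v : ℝ) :
    ‖Gc g Λ k (t, v)‖ₑ ^ 4 ≤ ρc g Λ k v * νc g Λ k (t, v) := by
  by_cases h : ρc g Λ k v = 0
  · have h1 : ∀ n ∈ Λ, fc g Λ k n v = 0 := by
      intro n hn
      have := (Finset.sum_eq_zero_iff.mp h) n hn
      simpa using this
    have : Gc g Λ k (t, v) = 0 := by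
      rw [Gc_eq hgm hg]
      exact Finset.sum_eq_zero fun n hn => by simp [h1 n hn]
    simp [this]
  · unfold νc
    rw [ENNReal.mul_div_cancel h (ρc_ne_top Λ k v)]

lemma νc_int {R : ℝ≥0∞} (hgm : Measurable g) (hg : Integrable g μ0) {Λ : Finset ℤ} (hL : L4 Λ R)
    (k v : ℝ) : ∫⁻ t, P t * νc g Λ k (t, v) ≤ R * ρc g Λ k v := by
  unfold νc
  simp_rw [div_eq_mul_inv, ← mul_assoc, Gc_eq hgm hg]
  have hm := (Gs_cont Λ fun n => fc g Λ k n v).measurable
  rw [lintegral_mul_const _ (by fun_prop)]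
  calc _ ≤ R * ρc g Λ k v ^ 2 * (ρc g Λ k v)⁻¹ := by gcongr; exact hL _
    _ = R * ρc g Λ k v * (ρc g Λ k v * (ρc g Λ k v)⁻¹) := by ring
    _ ≤ R * ρc g Λ k v * 1 := by gcongr; exact ENNReal.mul_inv_le_one _
    _ = _ := mul_one _

/-- averaging over the tubes with slope `k` -/
noncomputable def tub (k : ℝ) (Φ : ℝ × ℝ → ℝ≥0∞) (z : ℝ × ℝ) : ℝ≥0∞ :=
  ∫⁻ v, P (z.2 - 2 * k * z.1 - v) * Φ (z.1, v)

lemma tub_meas (k : ℝ) {Φ : ℝ × ℝ → ℝ≥0∞} (hΦ : Measurable Φ) : Measurable (tub k Φ) :=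
  Measurable.lintegral_prod_right' (f := fun p : (ℝ × ℝ) × ℝ =>
    P (p.1.2 - 2 * k * p.1.1 - p.2) * Φ (p.1.1, p.2)) (by fun_prop)

lemma tub_int (k : ℝ) {Φ : ℝ × ℝ → ℝ≥0∞} (hΦ : Measurable Φ) :
    ∫⁻ z : ℝ × ℝ, P z.1 * tub k Φ z ≤ 4 * ∫⁻ v, ∫⁻ t, P t * Φ (t, v) := by
  have hm := tub_meas k hΦ
  rw [Measure.volume_eq_prod, lintegral_prod _ (Measurable.aemeasurable (by fun_prop)),
    lintegral_lintegral_swap (f := fun v t => P t * Φ (t, v))
      (Measurable.aemeasurable (by fun_prop)), ← lintegral_const_mul' _ _ (by simp)]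
  refine lintegral_mono fun t => ?_
  simp only [tub]
  rw [lintegral_const_mul' _ _ (P_ne_top t), lintegral_const_mul' _ _ (P_ne_top t),
    mul_left_comm 4, lintegral_lintegral_swap (Measurable.aemeasurable (by fun_prop)),
    ← lintegral_const_mul' 4 _ (by simp)]
  gcongr with v
  rw [lintegral_mul_const _ (by fun_prop)]
  gcongr
  simp_rw [sub_sub]
  exact lintegral_P_sub' _

/-- mass of the tubes through a point -/
noncomputable def μb (g : ℝ × ℤ → ℂ) (Λ : Finset ℤ) (a : ℝ) (L : ℕ) (z : ℝ × ℝ) : ℝ≥0∞ :=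
  ∑ i ∈ Finset.range L, tub (a + i * 1) (fun p => ρc g Λ (a + i * 1) p.2) z

/-- `L^4` density of the tubes through a point -/
noncomputable def νb (g : ℝ × ℤ → ℂ) (Λ : Finset ℤ) (a : ℝ) (L : ℕ) (z : ℝ × ℝ) : ℝ≥0∞ :=
  ∑ i ∈ Finset.range L, tub (a + i * 1) (νc g Λ (a + i * 1)) z

/-- square function -/
noncomputable def Sb (g : ℝ × ℤ → ℂ) (Λ : Finset ℤ) (a : ℝ) (L : ℕ) (z : ℝ × ℝ) : ℝ≥0∞ :=
  ∑ i ∈ Finset.range L, ‖E g (blk Λ (a + i * 1) 1) z‖ₑ ^ 2

lemma μb_meas (hgm : Measurable g) (hg : Integrable g μ0) (Λ : Finset ℤ) (a : ℝ) (L : ℕ) :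
    Measurable (μb g Λ a L) :=
  Finset.measurable_fun_sum _ fun _ _ => tub_meas _ ((ρc_meas hgm hg Λ _).comp measurable_snd)

lemma νb_meas (hgm : Measurable g) (hg : Integrable g μ0) (Λ : Finset ℤ) (a : ℝ) (L : ℕ) :
    Measurable (νb g Λ a L) :=
  Finset.measurable_fun_sum _ fun _ _ => tub_meas _ (νc_meas hgm hg Λ _)

lemma Sb_meas (hg : Integrable g μ0) (Λ : Finset ℤ) (a : ℝ) (L : ℕ) :
    Measurable (Sb g Λ a L) :=
  Finset.measurable_fun_sum _ fun _ _ =>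
    (E_cont hg (blk_meas _ _ _)).measurable.enorm.pow_const 2

lemma Sb_sq_le (hgm : Measurable g) (hg : Integrable g μ0) (Λ : Finset ℤ) (a : ℝ) (L : ℕ)
    (z : ℝ × ℝ) : Sb g Λ a L z ^ 2 ≤
      ENNReal.ofReal (4096 * (1 + z.1 ^ 2) ^ 4) * (μb g Λ a L z * νb g Λ a L z) := by
  have h1 : Sb g Λ a L z ≤ ENNReal.ofReal (64 * (1 + z.1 ^ 2) ^ 2) * ∑ i ∈ Finset.range L,
      ∫⁻ v, P (z.2 - 2 * (a + i * 1) * z.1 - v) * ‖Gc g Λ (a + i * 1) (z.1, v)‖ₑ ^ 2 := by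
    rw [Finset.mul_sum]
    exact Finset.sum_le_sum fun i _ => U_le hgm hg Λ _ z
  refine (pow_le_pow_left₀ zero_le h1 2).trans ?_
  rw [mul_pow, ← ENNReal.ofReal_pow (by positivity),
    show (64 * (1 + z.1 ^ 2) ^ 2) ^ 2 = 4096 * (1 + z.1 ^ 2) ^ 4 by ring]
  gcongr
  refine sq_sum_le _ fun i => ?_
  have hρ := ρc_meas hgm hg Λ (a + i * 1)
  have hν := νc_meas hgm hg Λ (a + i * 1)
  refine sq_lintegral_le volume (Measurable.aemeasurable (by fun_prop))
    (Measurable.aemeasurable (by fun_prop)) fun v => ?_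
  calc _ = P (z.2 - 2 * (a + i * 1) * z.1 - v) ^ 2 * ‖Gc g Λ (a + i * 1) (z.1, v)‖ₑ ^ 4 := by ring
    _ ≤ P (z.2 - 2 * (a + i * 1) * z.1 - v) ^ 2 *
        (ρc g Λ (a + i * 1) v * νc g Λ (a + i * 1) (z.1, v)) := by
      gcongr; exact Gc_pow_le hgm hg Λ _ _ _
    _ = _ := by ring

lemma exists_tube_bounds : ∃ C : ℝ≥0, ∀ (g : ℝ × ℤ → ℂ), Measurable g → Integrable g μ0 →
    ∀ (Λ : Finset ℤ) (a : ℝ) (L : ℕ),
      (∑ i ∈ Finset.range L, ∫⁻ v, ρc g Λ (a + i * 1) v ≤ C * mass g (blk Λ a L)) ∧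
      (∀ z, μb g Λ a L z ≤ C * mass g (blk Λ a L)) ∧
      (∫⁻ z : ℝ × ℝ, P z.1 * μb g Λ a L z ≤ C * mass g (blk Λ a L)) ∧
      ∀ R, L4 Λ R → ∫⁻ z : ℝ × ℝ, P z.1 * νb g Λ a L z ≤ C * R * mass g (blk Λ a L) := by
  obtain ⟨C, hC⟩ := exists_rho_bound
  refine ⟨16 * C, fun g hgm hg Λ a L => ?_⟩
  have h0 : ∑ i ∈ Finset.range L, ∫⁻ v, ρc g Λ (a + i * 1) v ≤ C * mass g (blk Λ a L) := by
    have := mass_blk_split (g := g) Λ a one_pos L
    rw [mul_one] at this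
    rw [this, Finset.mul_sum]
    exact Finset.sum_le_sum fun i _ => hC g hgm hg Λ _
  have hC16 : (C : ℝ≥0∞) ≤ (16 * C : ℝ≥0) := by
    push_cast; exact le_mul_of_one_le_left' (by norm_num)
  refine ⟨h0.trans (by gcongr), fun z => le_trans ?_ (h0.trans (by gcongr)), ?_, fun R hR => ?_⟩
  · refine Finset.sum_le_sum fun i _ => lintegral_mono fun v => ?_
    exact mul_le_of_le_one_left' (P_le_one _)
  · unfold μb
    simp_rw [Finset.mul_sum]
    rw [lintegral_finsetSum _ fun i _ => Measurable.fun_mul (by fun_prop)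
      (tub_meas _ (by have := ρc_meas hgm hg Λ (a + i * 1); fun_prop))]
    push_cast
    rw [mul_assoc]
    refine le_trans ?_ (mul_le_mul_right h0 16)
    rw [Finset.mul_sum]
    refine Finset.sum_le_sum fun i _ => ?_
    refine (tub_int _ ((ρc_meas hgm hg Λ _).comp measurable_snd)).trans ?_
    rw [show (16 : ℝ≥0∞) = 4 * 4 by norm_num, mul_assoc,
      ← lintegral_const_mul' 4 (ρc g Λ (a + i * 1)) (by simp)]
    gcongr with v
    simp only [Function.comp]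
    rw [lintegral_mul_const _ P_meas]
    gcongr; exact lintegral_P
  · unfold νb
    simp_rw [Finset.mul_sum]
    rw [lintegral_finsetSum _ fun i _ => Measurable.fun_mul (by fun_prop)
      (tub_meas _ (νc_meas hgm hg Λ _))]
    calc _ ≤ ∑ i ∈ Finset.range L, 16 * R * ∫⁻ v, ρc g Λ (a + i * 1) v := by
          refine Finset.sum_le_sum fun i _ => (tub_int _ (νc_meas hgm hg Λ _)).trans ?_
          rw [mul_assoc, ← lintegral_const_mul _ (ρc_meas hgm hg Λ _)]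
          gcongr with v
          · norm_num
          · exact νc_int hgm hg hR _ _
      _ ≤ 16 * R * (C * mass g (blk Λ a L)) := by rw [← Finset.mul_sum]; gcongr
      _ = _ := by push_cast; ring

end Pool.Agent.Lib.MP_fe1582_an
end

-- part Pool.Agent.Lib.MP_fe1582_an.TubeL2
section

/-!
`L^2` bounds on transversal tubes and the global `L^2` bound.
-/

namespace Pool.Agent.Lib.MP_fe1582_an

open MeasureTheory Complex
open scoped ENNReal NNReal Real ComplexConjugate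

lemma schur_box {Y : Type*} [MeasurableSpace Y] {m : Measure Y} [SFinite m]
    {a : Y → ℂ} {ζ τ : Y → ℝ} (ham : Measurable a) (ha : Integrable a m) (hζ : Measurable ζ)
    (hτ : Measurable τ) {S : Set Y} (hS : MeasurableSet S) (haS : ∀ y, a y ≠ 0 → y ∈ S)
    (s b c : ℝ) {B : ℝ≥0∞} (hB : ∀ y ∈ S,
      m {y' | y' ∈ S ∧ |ζ y - ζ y'| < 1 ∧ |τ y - τ y' - 2 * c * (ζ y - ζ y')| < 1} ≤ B) :
    ∫⁻ z : ℝ × ℝ, ENNReal.ofReal (Wt 1 1 s b c z) * ‖EI m a ζ τ z‖ₑ ^ 2 ≤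
      ENNReal.ofReal (Iw ^ 2) * B * ∫⁻ y, ‖a y‖ₑ ^ 2 ∂m := by
  set T : Set (Y × Y) := {p | p.1 ∈ S ∧ p.2 ∈ S ∧ |ζ p.1 - ζ p.2| < 1 ∧
    |τ p.1 - τ p.2 - 2 * c * (ζ p.1 - ζ p.2)| < 1} with hT
  have hm1 : Measurable fun p : Y × Y => |ζ p.1 - ζ p.2| := by fun_prop
  have hm2 : Measurable fun p : Y × Y => |τ p.1 - τ p.2 - 2 * c * (ζ p.1 - ζ p.2)| := by fun_prop
  have hTm : MeasurableSet T :=
    (measurable_fst hS).inter ((measurable_snd hS).inter
      ((measurableSet_lt hm1 measurable_const).inter (measurableSet_lt hm2 measurable_const)))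
  refine schur ham ha hζ hτ (Wt_integrable one_pos one_pos s b c) (Wt_nonneg _ _ _ _ _)
    (H := T.indicator fun _ => ENNReal.ofReal (Iw ^ 2))
    (measurable_const.indicator hTm) (fun y y' => ?_) (fun y y' h h' => ?_) (fun y => ?_)
  · have : (y, y') ∈ T ↔ (y', y) ∈ T := by
      have e : τ y - τ y' - 2 * c * (ζ y - ζ y') = -(τ y' - τ y - 2 * c * (ζ y' - ζ y)) := by ring
      simp only [hT, Set.mem_ofPred_eq, abs_sub_comm (ζ y), e, abs_neg]; tauto
    by_cases h : (y, y') ∈ T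
    · rw [Set.indicator_of_mem h, Set.indicator_of_mem (this.mp h)]
    · rw [Set.indicator_of_notMem h, Set.indicator_of_notMem (fun h' => h (this.mpr h'))]
  · by_cases hm : (y, y') ∈ T
    · rw [Set.indicator_of_mem hm, ← ofReal_norm]
      refine ENNReal.ofReal_le_ofReal ?_
      simpa using norm_What_Wt_le one_pos one_pos s b c (ζ y - ζ y') (τ y - τ y')
    · rw [What_Wt_eq_zero one_pos one_pos]
      · simp
      · simpa only [hT, Set.mem_ofPred_eq, haS y h, haS y' h', true_and, not_and_or, not_lt]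
          using hm
  · by_cases hy : y ∈ S
    · have h1 : (fun y' => T.indicator (fun _ => ENNReal.ofReal (Iw ^ 2)) (y, y')) =
          {y' | y' ∈ S ∧ |ζ y - ζ y'| < 1 ∧ |τ y - τ y' - 2 * c * (ζ y - ζ y')| < 1}.indicator
            fun _ => ENNReal.ofReal (Iw ^ 2) := by
        funext y'
        have : (y, y') ∈ T ↔ y' ∈ {y' | y' ∈ S ∧ |ζ y - ζ y'| < 1 ∧
            |τ y - τ y' - 2 * c * (ζ y - ζ y')| < 1} := by
          simp only [hT, Set.mem_ofPred_eq, hy, true_and]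
        by_cases h : (y, y') ∈ T
        · rw [Set.indicator_of_mem h, Set.indicator_of_mem (this.mp h)]
        · rw [Set.indicator_of_notMem h, Set.indicator_of_notMem (fun h' => h (this.mpr h'))]
      rw [h1]
      refine (lintegral_indicator_const_le _ _).trans ?_
      gcongr; exact hB y hy
    · have h1 : (fun y' => T.indicator (fun _ => ENNReal.ofReal (Iw ^ 2)) (y, y')) =
          fun _ => 0 := by
        funext y'
        simp [Set.indicator, hT, hy]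
      rw [h1]; simp

lemma exists_PP_of_ww : ∃ C : ℝ≥0, ∀ (Φ : ℝ × ℝ → ℝ≥0∞), Measurable Φ → ∀ (k v : ℝ) (A : ℝ≥0∞),
    (∀ u b, ∫⁻ z, ENNReal.ofReal (Wt 1 1 u b k z) * Φ z ≤ A) →
    ∫⁻ z : ℝ × ℝ, P z.1 * P (z.2 - 2 * k * z.1 - v) * Φ z ≤ C * A := by
  obtain ⟨C, hC⟩ := exists_P_le_conv
  refine ⟨C * C * 16, fun Φ hΦ k v A hA => ?_⟩
  have hW : Measurable fun p : (ℝ × ℝ) × ℝ × ℝ => Wt 1 1 p.2.1 (v + p.2.2) k p.1 := by
    unfold Wt; fun_prop
  calc _ ≤ ∫⁻ z : ℝ × ℝ, C * C * ∫⁻ q : ℝ × ℝ, P q.1 * P q.2 *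
          (ENNReal.ofReal (Wt 1 1 q.1 (v + q.2) k z) * Φ z) := by
        refine lintegral_mono fun z => ?_
        have h1 := lintegral_prod_mul (μ := volume) (ν := volume)
          (f := fun u => P u * we (z.1 - u)) (g := fun u => P u * we (z.2 - 2 * k * z.1 - v - u))
          (Measurable.aemeasurable (by fun_prop)) (Measurable.aemeasurable (by fun_prop))
        have h2 : ∫⁻ q : ℝ × ℝ, P q.1 * P q.2 * (ENNReal.ofReal (Wt 1 1 q.1 (v + q.2) k z) * Φ z) =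
            (∫⁻ u, P u * we (z.1 - u)) * (∫⁻ u, P u * we (z.2 - 2 * k * z.1 - v - u)) * Φ z := by
          rw [← h1, ← lintegral_mul_const _ (by fun_prop), Measure.volume_eq_prod]
          refine lintegral_congr fun q => ?_
          simp only [Wt, we, one_mul]
          rw [ENNReal.ofReal_mul (w_nonneg _),
            show z.2 - (v + q.2) - 2 * k * z.1 = z.2 - 2 * k * z.1 - v - q.2 by ring]
          ring
        simp only
        rw [h2]
        calc _ ≤ (C * ∫⁻ u, P u * we (z.1 - u)) *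
              (C * ∫⁻ u, P u * we (z.2 - 2 * k * z.1 - v - u)) * Φ z := by
              gcongr <;> exact hC _
          _ = _ := by ring
    _ = C * C * ∫⁻ q : ℝ × ℝ, P q.1 * P q.2 *
          ∫⁻ z, ENNReal.ofReal (Wt 1 1 q.1 (v + q.2) k z) * Φ z := by
        rw [lintegral_const_mul' _ _ (by finiteness),
          lintegral_lintegral_swap (Measurable.aemeasurable (by fun_prop))]
        congr 1
        refine lintegral_congr fun q => ?_
        rw [lintegral_const_mul' _ _ (ENNReal.mul_ne_top (P_ne_top _) (P_ne_top _))]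
    _ ≤ C * C * ∫⁻ q : ℝ × ℝ, P q.1 * P q.2 * A := by gcongr with q; exact hA _ _
    _ ≤ C * C * (4 * 4 * A) := by
        rw [lintegral_mul_const _ (by fun_prop), Measure.volume_eq_prod,
          lintegral_prod_mul P_meas.aemeasurable P_meas.aemeasurable]
        gcongr <;> exact lintegral_P
    _ = _ := by push_cast; ring

lemma abs_sub_le_of_sq {δ p q : ℝ} (hδ : 1 ≤ δ) (hp : δ ≤ |p|) (hq : δ ≤ |q|) (h1 : |p - q| < 2)
    (h2 : |p ^ 2 - q ^ 2| < 2) : |p - q| ≤ 1 / δ := by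
  rw [le_div_iff₀ (by linarith)]
  have h3 : 2 * δ ≤ |p + q| := by
    rcases abs_cases p with h | h <;> rcases abs_cases q with h' | h' <;>
      rcases abs_cases (p - q) with h'' | h'' <;> rcases abs_cases (p + q) with h4 | h4 <;> linarith
  rw [show p ^ 2 - q ^ 2 = (p - q) * (p + q) by ring, abs_mul] at h2
  nlinarith [abs_nonneg (p - q)]

lemma volume_le_of_forall {A : Set ℝ} {d : ℝ} (h : ∀ x ∈ A, ∀ y ∈ A, |x - y| ≤ d) :
    volume A ≤ ENNReal.ofReal d := by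
  refine (Real.volume_le_diam A).trans (Metric.ediam_le fun x hx y hy => ?_)
  rw [edist_dist, Real.dist_eq]
  exact ENNReal.ofReal_le_ofReal (h x hx y hy)

lemma exists_tubeL2 : ∃ C : ℝ≥0, ∀ g : ℝ × ℤ → ℂ, Measurable g → Integrable g μ0 →
    ∀ (Λ : Finset ℤ) (M : ℝ), 0 < M → (∀ n ∈ Λ, n = 0 ∨ M ≤ |(n : ℝ)|) →
    ∀ (a l k δ D : ℝ), 1 ≤ δ → 1 ≤ D → (∀ ξ, a ≤ ξ → ξ < a + l → δ ≤ |ξ - k| ∧ |ξ - k| ≤ D) →
    ∀ v, ∫⁻ z : ℝ × ℝ, P z.1 * P (z.2 - 2 * k * z.1 - v) * ‖E g (blk Λ a l) z‖ₑ ^ 2 ≤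
      C * ENNReal.ofReal ((3 + 6 * D / M) / δ) * mass g (blk Λ a l) := by
  obtain ⟨C, hC⟩ := exists_PP_of_ww
  refine ⟨C * Real.toNNReal (Iw ^ 2), fun g hgm hg Λ M hM hΛ a l k δ D hδ hD hk v => ?_⟩
  have hS := blk_meas Λ a l
  refine (hC _ ((E_cont hg hS).measurable.enorm.pow_const 2) k v
    (ENNReal.ofReal (Iw ^ 2) * ENNReal.ofReal ((3 + 6 * D / M) / δ) * mass g (blk Λ a l))
    fun u b => ?_).trans (le_of_eq ?_)
  swap
  · push_cast
    rw [show ((Real.toNNReal (Iw ^ 2) : ℝ≥0) : ℝ≥0∞) = ENNReal.ofReal (Iw ^ 2) from rfl]; ring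
  rw [mass_eq hS]
  refine schur_box (hgm.indicator hS) (hg.indicator hS) fx_meas ft_meas hS
    (fun y hy => Set.mem_of_indicator_ne_zero hy) u b k fun y hy => ?_
  rw [mem_blk] at hy
  refine (mu0_le _ (Λ.filter fun n : ℤ => |(n : ℝ) ^ 2 - (y.2 : ℝ) ^ 2| ≤ 3 * D)
    (ENNReal.ofReal (1 / δ)) ?_ ?_).trans ?_
  · rintro y' ⟨h1, h2, h3⟩
    rw [mem_blk] at h1
    refine Finset.mem_filter.mpr ⟨h1.2.2, ?_⟩
    simp only [fx, ft] at h2 h3
    have h4 := (hk _ hy.1 hy.2.1).2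
    have h5 := (hk _ h1.1 h1.2.1).2
    have h6 : |(y.1 - y'.1) * ((y.1 - k) + (y'.1 - k))| ≤ 1 * (2 * D) := by
      rw [abs_mul]
      exact mul_le_mul h2.le ((abs_add_le _ _).trans (by linarith)) (abs_nonneg _) zero_le_one
    rw [abs_le] at h6 ⊢
    rw [abs_lt] at h3
    constructor <;> nlinarith [h6.1, h6.2, h3.1, h3.2]
  · intro n
    refine volume_le_of_forall fun ξ hξ ξ' hξ' => ?_
    obtain ⟨h1, h2, h3⟩ := hξ
    obtain ⟨h1', h2', h3'⟩ := hξ'
    rw [mem_blk] at h1 h1'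
    simp only [fx, ft] at h2 h3 h2' h3'
    have := abs_sub_le_of_sq hδ (hk _ h1.1 h1.2.1).1 (hk _ h1'.1 h1'.2.1).1
      (by rw [abs_lt] at h2 h2' ⊢; constructor <;> linarith [h2.1, h2.2, h2'.1, h2'.2])
      (by rw [abs_lt] at h3 h3' ⊢; constructor <;> nlinarith [h3.1, h3.2, h3'.1, h3'.2])
    rwa [sub_sub_sub_cancel_right] at this
  · have h1 := card_sq_window Λ hM hΛ ((y.2 : ℝ) ^ 2) (show 0 ≤ 3 * D by linarith)
    rw [← ENNReal.ofReal_natCast, ← ENNReal.ofReal_mul (Nat.cast_nonneg _)]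
    refine ENNReal.ofReal_le_ofReal ?_
    rw [mul_one_div]
    gcongr
    refine h1.trans (le_of_eq ?_)
    ring

/-- global `L^2` bound -/
lemma exists_L2 : ∃ C : ℝ≥0, ∀ g : ℝ × ℤ → ℂ, Measurable g → Integrable g μ0 →
    ∀ (Λ : Finset ℤ) (a l : ℝ), ∫⁻ z : ℝ × ℝ, P z.1 * ‖E g (blk Λ a l) z‖ₑ ^ 2 ≤
      C * mass g (blk Λ a l) := by
  obtain ⟨C, hC⟩ := exists_globalL2
  obtain ⟨C2, hC2⟩ := exists_P_of_w
  refine ⟨C2 * (C * 14), fun g hgm hg Λ a l => ?_⟩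
  have hS := blk_meas Λ a l
  have hm := (E_cont hg hS).measurable
  have h1 := fun u => hC (hgm.indicator hS) (hg.indicator hS) fx_meas ft_meas hS
    (fun y hy => Set.mem_of_indicator_ne_zero hy) (ε0 := 1 / (2 * (|a| + |l|) + 1))
    (by positivity) (B := 14) (by
      intro ε hε hεε y hy
      rw [mem_blk] at hy
      refine (mu0_le _ (Λ.filter fun n : ℤ => |(n : ℝ) ^ 2 - (y.2 : ℝ) ^ 2| ≤ 2)
        (ENNReal.ofReal (2 * ε)) ?_ ?_).trans ?_
      · rintro y' ⟨h1, h2, h3⟩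
        rw [mem_blk] at h1
        refine Finset.mem_filter.mpr ⟨h1.2.2, ?_⟩
        simp only [fx, ft] at h2 h3
        have h4 : |y.1 + y'.1| ≤ 2 * (|a| + |l|) + 1 := by
          rw [abs_le]
          constructor <;> linarith [le_abs_self a, neg_abs_le a, le_abs_self l, abs_nonneg l,
            hy.1, hy.2.1, h1.1, h1.2.1]
        rw [le_div_iff₀ (by positivity)] at hεε
        have h6 : |(y.1 - y'.1) * (y.1 + y'.1)| ≤ ε * (2 * (|a| + |l|) + 1) := by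
          rw [abs_mul]
          exact mul_le_mul h2.le h4 (abs_nonneg _) hε.le
        rw [abs_le] at h6 ⊢
        rw [abs_lt] at h3
        constructor <;> nlinarith [h6.1, h6.2, h3.1, h3.2]
      · intro n
        refine volume_le_of_forall fun ξ hξ ξ' hξ' => ?_
        have h2 := hξ.2.1
        have h2' := hξ'.2.1
        simp only [fx] at h2 h2'
        rw [abs_lt] at h2 h2'
        rw [abs_le]; constructor <;> linarith [h2.1, h2.2, h2'.1, h2'.2]
      · have h1 := card_sq_window Λ one_pos (fun n _ => by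
          by_cases h : n = 0
          · exact Or.inl h
          · exact Or.inr (by exact_mod_cast Int.one_le_abs h)) ((y.2 : ℝ) ^ 2)
          (show (0 : ℝ) ≤ 2 by norm_num)
        rw [← ENNReal.ofReal_natCast, ← ENNReal.ofReal_mul (Nat.cast_nonneg _),
          ← ENNReal.ofReal_ofNat 14, ← ENNReal.ofReal_mul (by norm_num)]
        refine ENNReal.ofReal_le_ofReal ?_
        nlinarith) u
  have h2 := hC2 (fun t => ∫⁻ x, ‖E g (blk Λ a l) (t, x)‖ₑ ^ 2)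
    (Measurable.lintegral_prod_right' (f := fun z : ℝ × ℝ => ‖E g (blk Λ a l) z‖ₑ ^ 2)
      (by fun_prop)) (C * 14 * mass g (blk Λ a l)) (fun u => by
      rw [mass_eq hS]
      refine le_trans (le_of_eq ?_) (h1 u)
      rw [Measure.volume_eq_prod, lintegral_prod _ (Measurable.aemeasurable (by
        unfold E at hm; fun_prop))]
      refine lintegral_congr fun t => ?_
      rw [← lintegral_const_mul' _ _ (by simp [we])]
      rfl)
  refine le_trans (le_of_eq ?_) (h2.trans (le_of_eq ?_))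
  · rw [Measure.volume_eq_prod, lintegral_prod _ (Measurable.aemeasurable (by fun_prop))]
    refine lintegral_congr fun t => ?_
    rw [← lintegral_const_mul' _ _ (P_ne_top _)]
  · push_cast; ring

end Pool.Agent.Lib.MP_fe1582_an
end

-- part Pool.Agent.Lib.MP_fe1582_an.Box
section

/-!
The abstract bilinear estimate obtained by averaging over sheared boxes.
-/

namespace Pool.Agent.Lib.MP_fe1582_an

open MeasureTheory Complex
open scoped ENNReal NNReal Real ComplexConjugate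

/-- normalised box weight -/
noncomputable def Wn (D c : ℝ) (q z : ℝ × ℝ) : ℝ≥0∞ := ENNReal.ofReal (D * Wt D 1 q.1 q.2 c z)

/-- normalised box weight with polynomial tails -/
noncomputable def Wp (D c : ℝ) (q z : ℝ × ℝ) : ℝ≥0∞ :=
  ENNReal.ofReal D * P (D * (z.1 - q.1)) * P (z.2 - q.2 - 2 * c * z.1)

lemma Wn_meas (D c : ℝ) : Measurable fun p : (ℝ × ℝ) × ℝ × ℝ => Wn D c p.1 p.2 := by
  unfold Wn Wt; fun_prop

lemma Wp_meas (D c : ℝ) : Measurable fun p : (ℝ × ℝ) × ℝ × ℝ => Wp D c p.1 p.2 := by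
  unfold Wp; fun_prop

lemma lintegral_scale {f : ℝ → ℝ≥0∞} (hf : Measurable f) {D : ℝ} (hD : 0 < D) (t : ℝ) :
    ∫⁻ s, ENNReal.ofReal D * f (D * (t - s)) = ∫⁻ s, f s := by
  rw [lintegral_const_mul _ (by fun_prop), lintegral_sub_left_eq_self (fun s => f (D * s)) t,
    ← lintegral_map hf (by fun_prop), Real.map_volume_mul_left hD.ne', lintegral_smul_measure,
    smul_eq_mul, ← mul_assoc, ← ENNReal.ofReal_mul hD.le, abs_of_pos (inv_pos.mpr hD),
    mul_inv_cancel₀ hD.ne']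
  simp

lemma Wp_int {D : ℝ} (hD : 0 < D) (c : ℝ) {Φ : ℝ × ℝ → ℝ≥0∞} (hΦ : Measurable Φ) :
    ∫⁻ q, ∫⁻ z, Wp D c q z * Φ z ≤ 16 * ∫⁻ z, Φ z := by
  have hW := Wp_meas D c
  rw [lintegral_lintegral_swap (Measurable.aemeasurable (hW.mul (hΦ.comp measurable_snd))),
    ← lintegral_const_mul _ hΦ]
  refine lintegral_mono fun z => ?_
  rw [lintegral_mul_const _ (by unfold Wp; fun_prop)]
  gcongr
  unfold Wp
  rw [Measure.volume_eq_prod, lintegral_prod_mul (f := fun s => ENNReal.ofReal D * P (D * (z.1 - s)))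
    (g := fun b => P (z.2 - b - 2 * c * z.1)) (Measurable.aemeasurable (by fun_prop))
    (Measurable.aemeasurable (by fun_prop)), lintegral_scale P_meas hD,
    show (16 : ℝ≥0∞) = 4 * 4 by norm_num]
  gcongr
  · exact lintegral_P
  · simp_rw [fun b => sub_right_comm z.2 b (2 * c * z.1)]
    exact lintegral_P_sub _

lemma exists_cover : ∃ C : ℝ≥0, ∀ (T D c : ℝ), 1 ≤ D → ∀ z : ℝ × ℝ, |z.1| ≤ T →
    1 ≤ C * ∫⁻ q in {q : ℝ × ℝ | |q.1| ≤ T + 1}, Wn D c q z := by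
  obtain ⟨r, c0, hr, hr1, hc0, hw⟩ := exists_w_lower
  have hI := Iw_pos
  refine ⟨Real.toNNReal (1 / (2 * r * c0 * Iw)), fun T D c hD z hz => ?_⟩
  have hD0 : 0 < D := by linarith
  have hsub : Set.Icc (z.1 - r / D) (z.1 + r / D) ×ˢ (Set.univ : Set ℝ) ⊆
      {q : ℝ × ℝ | |q.1| ≤ T + 1} := by
    rintro q ⟨hq, -⟩
    have h1 : r / D ≤ 1 := by rw [div_le_one hD0]; linarith
    have := abs_le.mp hz
    show |q.1| ≤ T + 1
    exact abs_le.mpr ⟨by linarith [hq.1, this.1], by linarith [hq.2, this.2]⟩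
  have h1 : ∫⁻ q in Set.Icc (z.1 - r / D) (z.1 + r / D) ×ˢ (Set.univ : Set ℝ),
      ENNReal.ofReal (D * c0) * we (z.2 - q.2 - 2 * c * z.1) ≤
      ∫⁻ q in {q : ℝ × ℝ | |q.1| ≤ T + 1}, Wn D c q z := by
    refine le_trans (setLIntegral_mono' (measurableSet_Icc.prod MeasurableSet.univ)
      fun q hq => ?_) (lintegral_mono_set hsub)
    unfold Wn Wt we
    rw [← ENNReal.ofReal_mul (by positivity), one_mul, mul_assoc]
    refine ENNReal.ofReal_le_ofReal ?_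
    gcongr
    · exact w_nonneg _
    · refine hw _ ?_
      rw [abs_mul, abs_of_pos hD0, ← le_div_iff₀' hD0]
      exact abs_le.mpr ⟨by linarith [hq.1.2], by linarith [hq.1.1]⟩
  rw [Measure.volume_eq_prod, ← Measure.prod_restrict, Measure.restrict_univ,
    lintegral_prod_mul (f := fun _ => ENNReal.ofReal (D * c0))
      (g := fun b => we (z.2 - b - 2 * c * z.1)) (Measurable.aemeasurable (by fun_prop))
      (Measurable.aemeasurable (by fun_prop)), setLIntegral_const, Real.volume_Icc] at h1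
  simp_rw [fun b => sub_right_comm z.2 b (2 * c * z.1)] at h1
  rw [lintegral_sub_left_eq_self we, lintegral_we] at h1
  refine le_trans (le_of_eq ?_) (mul_le_mul_right h1 _)
  rw [show ((Real.toNNReal (1 / (2 * r * c0 * Iw)) : ℝ≥0) : ℝ≥0∞) =
    ENNReal.ofReal (1 / (2 * r * c0 * Iw)) from rfl, ← ENNReal.ofReal_mul (by positivity),
    ← ENNReal.ofReal_mul (by
      have : 0 ≤ z.1 + r / D - (z.1 - r / D) := by
        have : 0 < r / D := by positivity
        linarith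
      positivity), ← ENNReal.ofReal_mul (by positivity), ← ENNReal.ofReal_one]
  congr 1
  field_simp
  ring

lemma Wn_le {T D : ℝ} (hD : 1 ≤ D) (c : ℝ) {q : ℝ × ℝ} (hq : |q.1| ≤ T) (z : ℝ × ℝ) :
    Wn D c q z * ENNReal.ofReal ((1 + z.1 ^ 2) ^ 4 * ((1 + (D * (z.1 - q.1)) ^ 2) *
      (1 + (z.2 - q.2 - 2 * c * z.1) ^ 2))) ≤
    ENNReal.ofReal (Cw ^ 2 * (2 * (1 + T ^ 2)) ^ 5) * (Wp D c q z * P z.1) := by
  have hD0 : 0 < D := by linarith
  have hC := Cw_pos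
  unfold Wn Wp Wt P
  rw [← ENNReal.ofReal_mul (mul_nonneg hD0.le (mul_nonneg (w_nonneg _) (w_nonneg _))),
    ← ENNReal.ofReal_mul hD0.le, ← ENNReal.ofReal_mul (by positivity),
    ← ENNReal.ofReal_mul (by positivity), ← ENNReal.ofReal_mul (by positivity), one_mul]
  refine ENNReal.ofReal_le_ofReal ?_
  set α := D * (z.1 - q.1) with hα
  set β := z.2 - q.2 - 2 * c * z.1
  have h1 := w_mul_le α 6 le_rfl
  have h2 := w_mul_le β 1 (by norm_num)
  have h3 : 1 + z.1 ^ 2 ≤ 2 * (1 + T ^ 2) * (1 + α ^ 2) := by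
    have h4 : (z.1 - q.1) ^ 2 ≤ α ^ 2 := by
      rw [hα, mul_pow]
      exact le_mul_of_one_le_left (sq_nonneg _) (by nlinarith)
    have h5 : q.1 ^ 2 ≤ T ^ 2 := by
      rw [← sq_abs]; exact pow_le_pow_left₀ (abs_nonneg _) hq 2
    nlinarith [sq_nonneg (z.1 - 2 * q.1), mul_nonneg (sq_nonneg T) (sq_nonneg α)]
  have h6 : (1 + z.1 ^ 2) ^ 4 ≤ (2 * (1 + T ^ 2) * (1 + α ^ 2)) ^ 5 * (1 + z.1 ^ 2)⁻¹ := by
    rw [← div_eq_mul_inv, le_div_iff₀ (by positivity), ← pow_succ]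
    exact pow_le_pow_left₀ (by positivity) h3 5
  have hwα := w_nonneg α
  have hwβ := w_nonneg β
  calc D * (w α * w β) * ((1 + z.1 ^ 2) ^ 4 * ((1 + α ^ 2) * (1 + β ^ 2)))
      ≤ D * (w α * w β) * ((2 * (1 + T ^ 2) * (1 + α ^ 2)) ^ 5 * (1 + z.1 ^ 2)⁻¹ *
        ((1 + α ^ 2) * (1 + β ^ 2))) := by gcongr
    _ = D * (2 * (1 + T ^ 2)) ^ 5 * (1 + z.1 ^ 2)⁻¹ * (w α * (1 + α ^ 2) ^ 6) *
        (w β * (1 + β ^ 2) ^ 1) := by ring
    _ ≤ D * (2 * (1 + T ^ 2)) ^ 5 * (1 + z.1 ^ 2)⁻¹ * (Cw * (1 + α ^ 2)⁻¹) *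
        (Cw * (1 + β ^ 2)⁻¹) := by gcongr
    _ = _ := by ring

/-- slowly varying on sheared boxes -/
def Slow (D c : ℝ) (μ : ℝ × ℝ → ℝ≥0∞) : Prop :=
  ∀ z z0 : ℝ × ℝ, μ z ≤ ENNReal.ofReal (16 * ((1 + (D * (z.1 - z0.1)) ^ 2) *
    (1 + (z.2 - 2 * c * z.1 - (z0.2 - 2 * c * z0.1)) ^ 2))) * μ z0

lemma box_one {T D : ℝ} (hD : 1 ≤ D) (c : ℝ) {q : ℝ × ℝ} (hq : |q.1| ≤ T)
    {F S μ ν : ℝ × ℝ → ℝ≥0∞} (hF : Measurable F) (hμ : Measurable μ) (hν : Measurable ν)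
    (hS : ∀ z, S z ^ 2 ≤ ENNReal.ofReal (4096 * (1 + z.1 ^ 2) ^ 4) * (μ z * ν z))
    (hsl : Slow D c μ) :
    (∫⁻ z, Wn D c q z * S z ^ 2 ≤ ENNReal.ofReal (65536 * (Cw ^ 2 * (2 * (1 + T ^ 2)) ^ 5)) *
      μ (q.1, q.2 + 2 * c * q.1) * ∫⁻ z, Wp D c q z * (P z.1 * ν z)) ∧
    μ (q.1, q.2 + 2 * c * q.1) * ∫⁻ z, Wn D c q z * F z ^ 2 ≤
      ENNReal.ofReal (65536 * (Cw ^ 2 * (2 * (1 + T ^ 2)) ^ 5)) *
        ∫⁻ z, Wp D c q z * (P z.1 * μ z * F z ^ 2) := by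
  have hWp : Measurable (Wp D c q) := by unfold Wp; fun_prop
  have hWn : Measurable (Wn D c q) := by unfold Wn; fun_prop
  set m := μ (q.1, q.2 + 2 * c * q.1) with hm
  constructor
  · rw [← lintegral_const_mul _ (by fun_prop)]
    refine lintegral_mono fun z => ?_
    have h1 := hsl z (q.1, q.2 + 2 * c * q.1)
    have h2 := Wn_le hD c hq z
    simp only [add_sub_cancel_right, ← hm] at h1
    rw [sub_right_comm] at h1
    set X := (1 + (D * (z.1 - q.1)) ^ 2) * (1 + (z.2 - q.2 - 2 * c * z.1) ^ 2) with hX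
    have hX0 : 0 ≤ X := by positivity
    calc Wn D c q z * S z ^ 2 ≤ Wn D c q z * (ENNReal.ofReal (4096 * (1 + z.1 ^ 2) ^ 4) *
          (ENNReal.ofReal (16 * X) * m * ν z)) := by
          gcongr; exact (hS z).trans (by gcongr)
      _ = 65536 * (Wn D c q z * ENNReal.ofReal ((1 + z.1 ^ 2) ^ 4 * X)) * m * ν z := by
          rw [ENNReal.ofReal_mul (p := 4096) (by norm_num),
            ENNReal.ofReal_mul (p := 16) (by norm_num),
            ENNReal.ofReal_mul (p := (1 + z.1 ^ 2) ^ 4) (by positivity)]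
          simp only [ENNReal.ofReal_ofNat]
          generalize ENNReal.ofReal ((1 + z.1 ^ 2) ^ 4) = u
          generalize ENNReal.ofReal X = u'
          ring
      _ ≤ 65536 * (ENNReal.ofReal (Cw ^ 2 * (2 * (1 + T ^ 2)) ^ 5) * (Wp D c q z * P z.1)) *
          m * ν z := by gcongr
      _ = _ := by
          rw [ENNReal.ofReal_mul (p := 65536) (by norm_num)]
          simp only [ENNReal.ofReal_ofNat]; ring
  · rw [← lintegral_const_mul _ (by fun_prop), ← lintegral_const_mul _ (by fun_prop)]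
    refine lintegral_mono fun z => ?_
    have h1 := hsl (q.1, q.2 + 2 * c * q.1) z
    have h2 := Wn_le hD c hq z
    simp only [add_sub_cancel_right, ← hm] at h1
    rw [show (D * (q.1 - z.1)) ^ 2 = (D * (z.1 - q.1)) ^ 2 by ring,
      show (q.2 - (z.2 - 2 * c * z.1)) ^ 2 = (z.2 - q.2 - 2 * c * z.1) ^ 2 by ring] at h1
    set X := (1 + (D * (z.1 - q.1)) ^ 2) * (1 + (z.2 - q.2 - 2 * c * z.1) ^ 2) with hX
    have hX0 : 0 ≤ X := by positivity
    have h3 : ENNReal.ofReal (16 * X) ≤ 65536 * ENNReal.ofReal ((1 + z.1 ^ 2) ^ 4 * X) := by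
      rw [← ENNReal.ofReal_ofNat 65536, ← ENNReal.ofReal_mul (by norm_num)]
      refine ENNReal.ofReal_le_ofReal ?_
      have : (1 : ℝ) ≤ (1 + z.1 ^ 2) ^ 4 := one_le_pow₀ (by nlinarith [sq_nonneg z.1])
      nlinarith
    calc m * (Wn D c q z * F z ^ 2) ≤ (65536 * ENNReal.ofReal ((1 + z.1 ^ 2) ^ 4 * X) * μ z) *
          (Wn D c q z * F z ^ 2) := by
          gcongr; exact h1.trans (by gcongr)
      _ = 65536 * (Wn D c q z * ENNReal.ofReal ((1 + z.1 ^ 2) ^ 4 * X)) * μ z * F z ^ 2 := by ring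
      _ ≤ 65536 * (ENNReal.ofReal (Cw ^ 2 * (2 * (1 + T ^ 2)) ^ 5) * (Wp D c q z * P z.1)) *
          μ z * F z ^ 2 := by gcongr
      _ = _ := by
          rw [ENNReal.ofReal_mul (p := 65536) (by norm_num)]
          simp only [ENNReal.ofReal_ofNat]; ring

lemma exists_box (T : ℝ) : ∃ C : ℝ≥0, ∀ (D c : ℝ), 1 ≤ D →
    ∀ (F F' S S' μ μ' ν ν' : ℝ × ℝ → ℝ≥0∞), Measurable F → Measurable F' → Measurable S →
    Measurable S' → Measurable μ → Measurable μ' → Measurable ν → Measurable ν' →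
    ∀ K0 : ℝ≥0∞, (∀ s b, ∫⁻ z, ENNReal.ofReal (Wt D 1 s b c z) * (F z * F' z) ^ 2 ≤
      K0 * ∫⁻ z, ENNReal.ofReal (Wt D 1 s b c z) * (S z * S' z)) →
    (∀ z, S z ^ 2 ≤ ENNReal.ofReal (4096 * (1 + z.1 ^ 2) ^ 4) * (μ z * ν z)) →
    (∀ z, S' z ^ 2 ≤ ENNReal.ofReal (4096 * (1 + z.1 ^ 2) ^ 4) * (μ' z * ν' z)) →
    Slow D c μ → Slow D c μ' → ∀ l l' : ℝ≥0∞, K0 ≤ l * l' →
    ∫⁻ z in {z : ℝ × ℝ | |z.1| ≤ T}, min (F z) (F' z) ^ 3 ≤
      C * (l * ((∫⁻ z, P z.1 * μ' z * F z ^ 2) + ∫⁻ z, P z.1 * μ z * F' z ^ 2) +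
        l' * ((∫⁻ z, P z.1 * ν z) + ∫⁻ z, P z.1 * ν' z)) := by
  obtain ⟨C1, hC1⟩ := exists_cover
  set C4 : ℝ≥0 := Real.toNNReal (65536 * (Cw ^ 2 * (2 * (1 + (T + 1) ^ 2)) ^ 5)) with hC4
  have e4 : ENNReal.ofReal (65536 * (Cw ^ 2 * (2 * (1 + (T + 1) ^ 2)) ^ 5)) = C4 := rfl
  refine ⟨C1 * C4 * 16, fun D c hD F F' S S' μ μ' ν ν' hF hF' hS hS' hμ hμ' hν hν' K0 hK h1 h1'
    hsl hsl' l l' hl => ?_⟩
  have hD0 : 0 < D := by linarith
  have hWn := Wn_meas D c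
  have hWp := Wp_meas D c
  have hstep : ∀ q : ℝ × ℝ, |q.1| ≤ T + 1 → ∫⁻ z, Wn D c q z * min (F z) (F' z) ^ 3 ≤
      C4 * (l * ((∫⁻ z, Wp D c q z * (P z.1 * μ' z * F z ^ 2)) +
        ∫⁻ z, Wp D c q z * (P z.1 * μ z * F' z ^ 2)) +
        l' * ((∫⁻ z, Wp D c q z * (P z.1 * ν z)) + ∫⁻ z, Wp D c q z * (P z.1 * ν' z))) := by
    intro q hq
    have hW : Measurable (Wn D c q) := by unfold Wn; fun_prop
    obtain ⟨a1, a2⟩ := box_one hD c hq hF' hμ hν h1 hsl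
    obtain ⟨b1, b2⟩ := box_one hD c hq hF hμ' hν' h1' hsl'
    rw [e4] at a1 a2 b1 b2
    have c1 := sq_lintegral_le volume (h := fun z => Wn D c q z * min (F z) (F' z) ^ 3)
      (a := fun z => Wn D c q z * (F z * F' z) ^ 2) (b := fun z => Wn D c q z * (F z * F' z))
      (Measurable.aemeasurable (by fun_prop)) (Measurable.aemeasurable (by fun_prop)) (fun z => by
        calc _ = Wn D c q z ^ 2 * (min (F z) (F' z) * min (F z) (F' z)) ^ 3 := by ring
          _ ≤ Wn D c q z ^ 2 * (F z * F' z) ^ 3 := by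
            gcongr
            · exact min_le_left _ _
            · exact min_le_right _ _
          _ = _ := by ring)
    have c2 := sq_lintegral_le volume (h := fun z => Wn D c q z * (F z * F' z))
      (a := fun z => Wn D c q z * F z ^ 2) (b := fun z => Wn D c q z * F' z ^ 2)
      (Measurable.aemeasurable (by fun_prop)) (Measurable.aemeasurable (by fun_prop))
      (fun z => le_of_eq (by ring))
    have c3 := sq_lintegral_le volume (h := fun z => Wn D c q z * (S z * S' z))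
      (a := fun z => Wn D c q z * S z ^ 2) (b := fun z => Wn D c q z * S' z ^ 2)
      (Measurable.aemeasurable (by fun_prop)) (Measurable.aemeasurable (by fun_prop))
      (fun z => le_of_eq (by ring))
    have c4 : ∫⁻ z, Wn D c q z * (F z * F' z) ^ 2 ≤ l * l' * ∫⁻ z, Wn D c q z * (S z * S' z) := by
      unfold Wn
      simp_rw [ENNReal.ofReal_mul hD0.le, mul_assoc]
      rw [lintegral_const_mul' _ _ ENNReal.ofReal_ne_top,
        lintegral_const_mul' _ _ ENNReal.ofReal_ne_top]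
      calc _ ≤ ENNReal.ofReal D * (K0 * _) := by gcongr; exact hK q.1 q.2
        _ ≤ ENNReal.ofReal D * (l * l' * _) := by gcongr
        _ = _ := by ring
    set X := ∫⁻ z, Wn D c q z * min (F z) (F' z) ^ 3
    set A := ∫⁻ z, Wn D c q z * (F z * F' z) ^ 2
    set B := ∫⁻ z, Wn D c q z * (F z * F' z)
    set L := ∫⁻ z, Wn D c q z * F z ^ 2
    set L' := ∫⁻ z, Wn D c q z * F' z ^ 2
    set Y := ∫⁻ z, Wn D c q z * (S z * S' z)
    set Q := ∫⁻ z, Wp D c q z * (P z.1 * μ' z * F z ^ 2)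
    set Q' := ∫⁻ z, Wp D c q z * (P z.1 * μ z * F' z ^ 2)
    set N := ∫⁻ z, Wp D c q z * (P z.1 * ν z)
    set N' := ∫⁻ z, Wp D c q z * (P z.1 * ν' z)
    set m := μ (q.1, q.2 + 2 * c * q.1)
    set m' := μ' (q.1, q.2 + 2 * c * q.1)
    have c5 : X ^ 4 ≤ (C4 * l * Q) * (C4 * l * Q') * (C4 * l' * N) * (C4 * l' * N') := by
      calc X ^ 4 = (X ^ 2) ^ 2 := by ring
        _ ≤ (l * l' * Y * B) ^ 2 := by gcongr; exact c1.trans (by gcongr)
        _ = (l * l') ^ 2 * Y ^ 2 * B ^ 2 := by ring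
        _ ≤ (l * l') ^ 2 * ((C4 * m * N) * (C4 * m' * N')) * (L * L') := by
          gcongr; exact c3.trans (by gcongr)
        _ = (l * l') ^ 2 * (C4 * N) * (C4 * N') * (m' * L) * (m * L') := by ring
        _ ≤ (l * l') ^ 2 * (C4 * N) * (C4 * N') * (C4 * Q) * (C4 * Q') := by gcongr
        _ = _ := by ring
    exact (le_sum_of_pow_four_le c5).trans (le_of_eq (by ring))
  have hT : MeasurableSet {z : ℝ × ℝ | |z.1| ≤ T} := measurableSet_le (by fun_prop) measurable_const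
  have hT1 : MeasurableSet {z : ℝ × ℝ | |z.1| ≤ T + 1} :=
    measurableSet_le (by fun_prop) measurable_const
  have hmm : ∀ Φ : ℝ × ℝ → ℝ≥0∞, Measurable Φ → Measurable fun q => ∫⁻ z, Wp D c q z * Φ z :=
    fun Φ hΦ => Measurable.lintegral_prod_right' (hWp.mul (hΦ.comp measurable_snd))
  have m1 := hmm (fun z => P z.1 * μ' z * F z ^ 2) (by fun_prop)
  have m2 := hmm (fun z => P z.1 * μ z * F' z ^ 2) (by fun_prop)
  have m3 := hmm (fun z => P z.1 * ν z) (by fun_prop)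
  have m4 := hmm (fun z => P z.1 * ν' z) (by fun_prop)
  calc _ ≤ ∫⁻ z, C1 * ∫⁻ q in {q : ℝ × ℝ | |q.1| ≤ T + 1}, Wn D c q z * min (F z) (F' z) ^ 3 := by
        refine le_trans (setLIntegral_mono' hT fun z hz => ?_) (setLIntegral_le_lintegral _ _)
        rw [lintegral_mul_const _ (by unfold Wn Wt; fun_prop), ← mul_assoc]
        exact le_mul_of_one_le_left' (hC1 T D c hD z hz)
    _ = C1 * ∫⁻ q in {q : ℝ × ℝ | |q.1| ≤ T + 1}, ∫⁻ z, Wn D c q z * min (F z) (F' z) ^ 3 := by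
        rw [lintegral_const_mul' _ _ ENNReal.coe_ne_top, lintegral_lintegral_swap]
        exact Measurable.aemeasurable ((hWn.comp measurable_swap).mul (by fun_prop))
    _ ≤ C1 * ∫⁻ q, C4 * (l * ((∫⁻ z, Wp D c q z * (P z.1 * μ' z * F z ^ 2)) +
        ∫⁻ z, Wp D c q z * (P z.1 * μ z * F' z ^ 2)) +
        l' * ((∫⁻ z, Wp D c q z * (P z.1 * ν z)) + ∫⁻ z, Wp D c q z * (P z.1 * ν' z))) := by
        exact mul_le_mul_right
          (le_trans (setLIntegral_mono' hT1 hstep) (setLIntegral_le_lintegral _ _)) _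
    _ ≤ C1 * (C4 * (l * (16 * (∫⁻ z, P z.1 * μ' z * F z ^ 2) +
          16 * ∫⁻ z, P z.1 * μ z * F' z ^ 2) +
        l' * (16 * (∫⁻ z, P z.1 * ν z) + 16 * ∫⁻ z, P z.1 * ν' z))) := by
        rw [lintegral_const_mul' _ _ ENNReal.coe_ne_top,
          lintegral_add_left ((m1.fun_add m2).const_mul l), lintegral_const_mul _ (m1.fun_add m2),
          lintegral_const_mul _ (m3.fun_add m4), lintegral_add_left m1, lintegral_add_left m3]
        gcongr <;> exact Wp_int hD0 c (by fun_prop)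
    _ = _ := by push_cast; ring

end Pool.Agent.Lib.MP_fe1582_an
end
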