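import Pool.Agent.Lib.MP_fe1582_an.TT

/-!
The `L^p` bounds on a time slab for normalised data.
-/

namespace Pool.Agent.Lib.MP_fe1582_an

open MeasureTheory Complex
open scoped ENNReal NNReal Real ComplexConjugate

lemma lintegral_enorm_sq_le {g : ℝ × ℤ → ℂ} (hgm : Measurable g) {N ξ0 : ℝ} {n0 : ℤ} (hN : 1 ≤ N)
    (hs : Supp g N ξ0 n0) :
    (∫⁻ y, ‖g y‖ₑ ∂μ0) ^ 2 ≤ (∫⁻ y, ‖g y‖ₑ ^ 2 ∂μ0) * ENNReal.ofReal (3 * N) ^ 2 := by
  obtain ⟨Λ, h1, h2⟩ := exists_blk hs
  have hS := blk_meas Λ (ξ0 - N) (3 * N)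
  have h3 := sq_lintegral_le μ0 (h := fun y => ‖g y‖ₑ) (a := fun y => ‖g y‖ₑ ^ 2)
    (b := (blk Λ (ξ0 - N) (3 * N)).indicator 1) (Measurable.aemeasurable (by fun_prop))
    (measurable_one.indicator hS).aemeasurable (fun y => by
      by_cases hy : y ∈ blk Λ (ξ0 - N) (3 * N)
      · simp [hy]
      · have : g y = 0 := by rw [← h2 (3 * N) (by linarith), Set.indicator_of_notMem hy]
        simp [this])
  refine h3.trans ?_
  rw [lintegral_indicator_one hS]
  gcongr
  refine (mu0_le _ Λ (ENNReal.ofReal (3 * N)) (fun y hy => (mem_blk.mp hy).2.2) fun n => ?_).trans ?_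
  · refine volume_le_of_forall fun x hx y hy => ?_
    have q1 := mem_blk.mp hx
    have q2 := mem_blk.mp hy
    rw [abs_le]; constructor <;> linarith [q1.1, q1.2.1, q2.1, q2.2.1]
  · rw [sq, ← ENNReal.ofReal_natCast]
    gcongr
    refine (card_le_of_diam Λ (d := 2 * N) (by linarith) fun a ha b hb => ?_).trans (by linarith)
    linarith [(abs_le.mp (h1 a ha)).1, (abs_le.mp (h1 b hb)).2]

lemma rpow_le_split {u l p : ℝ} (hu : 0 ≤ u) (hul : u ≤ l) (hp : 3 ≤ p) :
    u ^ p ≤ l ^ (p - 3) * u ^ 3 := by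
  rw [show p = (p - 3) + (3 : ℕ) by push_cast; ring, Real.rpow_add' hu (by push_cast; linarith),
    Real.rpow_natCast]
  simp only [Nat.cast_ofNat, add_sub_cancel_right]
  gcongr

lemma exists_Lp_high (T : ℝ) {p : ℝ} (hp : 3 < p) : ∃ C : ℝ, 0 < C ∧ ∀ g : ℝ × ℤ → ℂ, Measurable g →
    Integrable g μ0 → ∀ (N ξ0 : ℝ) (n0 : ℤ), 1 ≤ N → Supp g N ξ0 n0 →
    ∫⁻ y, ‖g y‖ₑ ^ 2 ∂μ0 ≤ 1 →
    ∫⁻ z in slab T, ENNReal.ofReal (‖Fg g z‖ ^ p) ≤ ENNReal.ofReal (C * N ^ (p - 3)) := by
  have hp3 : 0 < p - 3 := by linarith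
  obtain ⟨C1, hC10, hC1⟩ := exists_L3 T (show 0 < (p - 3) / 4 by linarith)
  obtain ⟨C2, hC21, hC2⟩ := exists_weak T
  refine ⟨C2 ^ ((p - 3) / 2) * C1 + p * (C2 ^ 2 * (3 ^ (p - 3) / (p - 3))), by positivity,
    fun g hgm hg N ξ0 n0 hN hs hm => ?_⟩
  have hN0 : 0 < N := by linarith
  have hF : Continuous (Fg g) := EI_continuous hg fx_meas ft_meas
  have hsup : ∀ z, ‖Fg g z‖ ≤ 3 * N := by
    intro z
    rw [← ENNReal.ofReal_le_ofReal_iff (by linarith), ofReal_norm]
    refine (enorm_EI_le z).trans ((ENNReal.pow_le_pow_left_iff two_ne_zero).mp ?_)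
    exact (lintegral_enorm_sq_le hgm hN hs).trans (mul_le_of_le_one_left' hm)
  set l0 : ℝ := √(C2 * (N * √N)) with hl0
  have hl00 : 0 < l0 := by positivity
  have hl02 : l0 ^ 2 = C2 * (N * √N) := Real.sq_sqrt (by positivity)
  set S := {z | z ∈ slab T ∧ l0 < ‖Fg g z‖} with hS
  have hSm : MeasurableSet S :=
    (slab_meas T).inter (measurableSet_lt measurable_const hF.measurable.norm)
  set f : ℝ × ℝ → ℝ := S.indicator fun z => ‖Fg g z‖ with hf
  have hf0 : ∀ z, 0 ≤ f z := fun z => Set.indicator_nonneg (fun _ _ => norm_nonneg _) z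
  have hfm : Measurable f := hF.measurable.norm.indicator hSm
  have h1 := hC1 g hgm hg N ξ0 n0 hN hs 1 one_ne_zero ENNReal.one_ne_top (by simpa using hm)
  have h2 : ∫⁻ z, ENNReal.ofReal (f z ^ p) ≤
      ENNReal.ofReal (p * (C2 ^ 2 * (3 ^ (p - 3) / (p - 3))) * N ^ (p - 3)) := by
    rw [lintegral_rpow_eq_lintegral_meas_lt_mul volume (Filter.Eventually.of_forall hf0)
      hfm.aemeasurable (by linarith), mul_assoc, ENNReal.ofReal_mul (by linarith)]
    gcongr
    have h3 : ∀ t ∈ Set.Ioi (0 : ℝ), volume {a | t < f a} * ENNReal.ofReal (t ^ (p - 1)) ≤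
        (Set.Ioc 0 (3 * N)).indicator (fun t => ENNReal.ofReal (C2 ^ 2 * t ^ (p - 4))) t := by
      intro t ht
      have ht : 0 < t := ht
      by_cases h4 : t ≤ 3 * N
      · rw [Set.indicator_of_mem (show t ∈ Set.Ioc 0 (3 * N) from ⟨ht, h4⟩)]
        have h5 := hC2 g hgm hg N ξ0 n0 hN hs 1 one_pos (by simpa using hm) (max t l0)
          (lt_max_of_lt_left ht) (by
            rw [one_pow, mul_one, ← hl02]
            exact pow_le_pow_left₀ hl00.le (le_max_right _ _) 2)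
        have h6 : {a | t < f a} ⊆ {z | z ∈ slab T ∧ max t l0 < ‖Fg g z‖} := by
          intro z hz
          by_cases h7 : z ∈ S
          · have : t < ‖Fg g z‖ := by simpa [hf, h7] using hz
            exact ⟨h7.1, max_lt this h7.2⟩
          · have : t < 0 := by simpa [hf, h7] using hz
            linarith
        calc _ ≤ ENNReal.ofReal (C2 ^ 2 * 1 ^ 3 / t ^ 3) * ENNReal.ofReal (t ^ (p - 1)) := by
              gcongr
              refine ((measure_mono h6).trans h5).trans (ENNReal.ofReal_le_ofReal ?_)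
              gcongr
              exact le_max_left _ _
          _ = _ := by
              rw [← ENNReal.ofReal_mul (by positivity), show p - 1 = p - 4 + (3 : ℕ) by
                push_cast; ring, Real.rpow_add ht, Real.rpow_natCast]
              congr 1; field_simp
      · have : {a | t < f a} = ∅ := by
          refine Set.eq_empty_of_forall_notMem fun z hz => h4 ?_
          exact (le_of_lt hz).trans ((Set.indicator_le_self' (fun _ _ => norm_nonneg _) z).trans
            (hsup z))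
        simp [this]
    refine ((setLIntegral_mono' measurableSet_Ioi h3).trans (setLIntegral_le_lintegral _ _)).trans
      (le_of_eq ?_)
    rw [lintegral_indicator measurableSet_Ioc, ← ofReal_integral_eq_lintegral_ofReal
        ((intervalIntegral.intervalIntegrable_rpow' (a := 0) (b := 3 * N)
          (by linarith)).1.const_mul _)
        ((ae_restrict_iff' measurableSet_Ioc).mpr (Filter.Eventually.of_forall fun τ hτ =>
          mul_nonneg (by positivity) (Real.rpow_nonneg hτ.1.le _))),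
      ← intervalIntegral.integral_of_le (by linarith), intervalIntegral.integral_const_mul,
      integral_rpow (Or.inl (by linarith)), Real.zero_rpow (by linarith),
      show p - 4 + 1 = p - 3 by ring, Real.mul_rpow (by norm_num) hN0.le]
    congr 1; ring
  calc _ ≤ ∫⁻ z in slab T, ENNReal.ofReal (l0 ^ (p - 3)) * ‖Fg g z‖ₑ ^ 3 +
        ENNReal.ofReal (f z ^ p) := by
        refine setLIntegral_mono' (slab_meas T) fun z hz => ?_
        by_cases h3 : l0 < ‖Fg g z‖
        · refine le_add_left (le_of_eq ?_)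
          rw [hf, Set.indicator_of_mem (show z ∈ S from ⟨hz, h3⟩)]
        · refine le_add_right ?_
          rw [← ofReal_norm, ← ENNReal.ofReal_pow (norm_nonneg _),
            ← ENNReal.ofReal_mul (by positivity)]
          exact ENNReal.ofReal_le_ofReal (rpow_le_split (norm_nonneg _) (not_lt.mp h3) hp.le)
    _ ≤ ENNReal.ofReal (l0 ^ (p - 3)) * (ENNReal.ofReal (C1 * N ^ ((p - 3) / 4)) * 1 ^ 3) +
        ENNReal.ofReal (p * (C2 ^ 2 * (3 ^ (p - 3) / (p - 3))) * N ^ (p - 3)) := by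
        rw [lintegral_add_left ((hF.measurable.enorm.pow_const 3).const_mul _),
          lintegral_const_mul' _ _ ENNReal.ofReal_ne_top]
        gcongr
        exact (setLIntegral_le_lintegral _ _).trans h2
    _ = _ := by
        rw [one_pow, mul_one, ← ENNReal.ofReal_mul (by positivity),
          ← ENNReal.ofReal_add (by positivity) (by positivity)]
        congr 1
        have e1 : l0 ^ (p - 3) = C2 ^ ((p - 3) / 2) * N ^ (3 / 4 * (p - 3)) := by
          rw [hl0, Real.sqrt_eq_rpow, Real.sqrt_eq_rpow, ← Real.rpow_mul (by positivity),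
            Real.mul_rpow (by positivity) (by positivity), Real.mul_rpow (by positivity)
            (by positivity), ← Real.rpow_mul hN0.le, ← Real.rpow_add hN0]
          congr 2 <;> ring
        have e2 : N ^ (p - 3) = N ^ (3 / 4 * (p - 3)) * N ^ ((p - 3) / 4) := by
          rw [← Real.rpow_add hN0]; congr 1; ring
        rw [e1, add_mul]
        congr 1
        rw [e2]; ring

lemma exists_Lp_low (T : ℝ) {p ε : ℝ} (hp : 2 ≤ p) (hp' : p ≤ 3) (hε : 0 < ε) :
    ∃ C : ℝ, 0 < C ∧ ∀ g : ℝ × ℤ → ℂ, Measurable g →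
    Integrable g μ0 → ∀ (N ξ0 : ℝ) (n0 : ℤ), 1 ≤ N → Supp g N ξ0 n0 →
    ∫⁻ y, ‖g y‖ₑ ^ 2 ∂μ0 ≤ 1 →
    ∫⁻ z in slab T, ENNReal.ofReal (‖Fg g z‖ ^ p) ≤ ENNReal.ofReal (C * N ^ ε) := by
  obtain ⟨C1, hC10, hC1⟩ := exists_L3 T hε
  obtain ⟨C2, hC2⟩ := exists_L2' T
  refine ⟨C2 + C1, by positivity, fun g hgm hg N ξ0 n0 hN hs hm => ?_⟩
  have hF : Continuous (Fg g) := EI_continuous hg fx_meas ft_meas
  have h1 := hC1 g hgm hg N ξ0 n0 hN hs 1 one_ne_zero ENNReal.one_ne_top (by simpa using hm)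
  have hN1 : 1 ≤ N ^ ε := Real.one_le_rpow hN hε.le
  calc _ ≤ ∫⁻ z in slab T, ‖Fg g z‖ₑ ^ 2 + ‖Fg g z‖ₑ ^ 3 := by
        refine lintegral_mono fun z => ?_
        rw [← ofReal_norm, ← ENNReal.ofReal_pow (norm_nonneg _),
          ← ENNReal.ofReal_pow (norm_nonneg _)]
        rcases le_total ‖Fg g z‖ 1 with h | h
        · refine le_add_right (ENNReal.ofReal_le_ofReal ?_)
          rw [← Real.rpow_natCast]
          exact Real.rpow_le_rpow_of_exponent_ge' (norm_nonneg _) h (by norm_num) (by exact_mod_cast hp)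
        · refine le_add_left (ENNReal.ofReal_le_ofReal ?_)
          rw [← Real.rpow_natCast]
          exact Real.rpow_le_rpow_of_exponent_le h (by exact_mod_cast hp')
    _ ≤ C2 * 1 + ENNReal.ofReal (C1 * N ^ ε) * 1 ^ 3 := by
        rw [lintegral_add_left (hF.measurable.enorm.pow_const 2)]
        gcongr
        exact (hC2 g hgm hg N ξ0 n0 hs).trans (by gcongr)
    _ ≤ _ := by
        rw [one_pow, mul_one, mul_one, ← ENNReal.ofReal_coe_nnreal,
          ← ENNReal.ofReal_add (by positivity) (by positivity)]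
        refine ENNReal.ofReal_le_ofReal ?_
        nlinarith [C2.2]

lemma exists_Lp (T : ℝ) {p ε : ℝ} (hp : 2 ≤ p) (hε : 0 < ε) :
    ∃ C : ℝ, 0 < C ∧ ∀ g : ℝ × ℤ → ℂ, Measurable g →
    Integrable g μ0 → ∀ (N ξ0 : ℝ) (n0 : ℤ), 1 ≤ N → Supp g N ξ0 n0 →
    ∫⁻ y, ‖g y‖ₑ ^ 2 ∂μ0 ≤ 1 →
    ∫⁻ z in slab T, ENNReal.ofReal (‖Fg g z‖ ^ p) ≤
      ENNReal.ofReal ((C * (N ^ (1 - 3 / p) + N ^ ε)) ^ p) := by
  have hp0 : 0 < p := by linarith
  rcases le_or_gt p 3 with h | h
  · obtain ⟨C, hC0, hC⟩ := exists_Lp_low T hp h (mul_pos hε hp0)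
    refine ⟨C ^ p⁻¹, by positivity, fun g hgm hg N ξ0 n0 hN hs hm =>
      (hC g hgm hg N ξ0 n0 hN hs hm).trans (ENNReal.ofReal_le_ofReal ?_)⟩
    rw [Real.mul_rpow (by positivity) (by positivity), Real.rpow_inv_rpow hC0.le hp0.ne',
      Real.rpow_mul (by linarith)]
    gcongr
    exact le_add_of_nonneg_left (by positivity)
  · obtain ⟨C, hC0, hC⟩ := exists_Lp_high T h
    refine ⟨C ^ p⁻¹, by positivity, fun g hgm hg N ξ0 n0 hN hs hm =>
      (hC g hgm hg N ξ0 n0 hN hs hm).trans (ENNReal.ofReal_le_ofReal ?_)⟩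
    rw [Real.mul_rpow (by positivity) (by positivity), Real.rpow_inv_rpow hC0.le hp0.ne',
      show p - 3 = (1 - 3 / p) * p by field_simp, Real.rpow_mul (by linarith)]
    gcongr
    exact le_add_of_nonneg_right (by positivity)

/-- the estimate for measurable data with bounded frequency support -/
theorem exists_main {φ : ℝ → ℂ} (hφ : Continuous φ) (hc : HasCompactSupport φ) {p ε : ℝ}
    (hp : 2 ≤ p) (hε : 0 < ε) : ∃ C : ℝ, ∀ g : ℝ × ℤ → ℂ, Measurable g → MemLp g 2 μ0 →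
    ∀ (N ξ0 : ℝ) (n0 : ℤ), 1 ≤ N → Supp g N ξ0 n0 →
    eLpNorm (fun z : ℝ × ℝ => φ z.1 * Fg g z) (ENNReal.ofReal p) volume ≤
      ENNReal.ofReal (C * (N ^ (1 - 3 / p) + N ^ ε)) * eLpNorm g 2 μ0 := by
  have hp0 : 0 < p := by linarith
  obtain ⟨A, hA⟩ := hc.exists_bound_of_continuous hφ
  have hA0 : 0 ≤ A := (norm_nonneg _).trans (hA 0)
  obtain ⟨T, hT⟩ := hc.isCompact.isBounded.exists_norm_le
  obtain ⟨C, hC0, hC⟩ := exists_Lp T hp hε
  refine ⟨A * C, fun g hgm hg2 N ξ0 n0 hN hs => ?_⟩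
  have e2 : ∀ u : ℝ × ℤ → ℂ, ∫⁻ y, ‖u y‖ₑ ^ 2 ∂μ0 = eLpNorm u 2 μ0 ^ 2 := by
    intro u
    rw [eLpNorm_eq_lintegral_rpow_enorm_toReal two_ne_zero ENNReal.ofNat_ne_top,
      ← ENNReal.rpow_natCast, ← ENNReal.rpow_mul]
    simp
  by_cases h0 : eLpNorm g 2 μ0 = 0
  · have h1 := (eLpNorm_eq_zero_iff hg2.1 two_ne_zero).mp h0
    have h2 : (fun z : ℝ × ℝ => φ z.1 * Fg g z) = 0 := by
      funext z
      have : Fg g z = 0 := by
        refine integral_eq_zero_of_ae ?_
        filter_upwards [h1] with y hy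
        simp [hy]
      simp [this]
    simp [h2]
  set γ : ℝ := (eLpNorm g 2 μ0).toReal with hγ
  have hγ0 : 0 < γ := ENNReal.toReal_pos h0 hg2.2.ne
  have hγe : eLpNorm g 2 μ0 = ENNReal.ofReal γ := (ENNReal.ofReal_toReal hg2.2.ne).symm
  have hg : Integrable g μ0 := by
    refine ⟨hg2.1, ?_⟩
    have h1 := lintegral_enorm_sq_le hgm hN hs
    rw [e2, hγe] at h1
    exact lt_top_iff_ne_top.mpr fun h => by
      rw [h] at h1
      exact absurd (top_le_iff.mp (le_trans (by simp) h1)) (by finiteness)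
  have h1 := hC (fun y => (γ⁻¹ : ℝ) * g y) (by fun_prop) (hg.const_mul _) N ξ0 n0 hN
    (fun y hy => hs y (right_ne_zero_of_mul hy)) (by
      simp_rw [enorm_mul, mul_pow]
      rw [lintegral_const_mul _ (by fun_prop), e2, hγe, ← mul_pow, ← ofReal_norm,
        ← ENNReal.ofReal_mul (norm_nonneg _), norm_real, Real.norm_eq_abs,
        abs_of_pos (inv_pos.mpr hγ0), inv_mul_cancel₀ hγ0.ne']
      simp)
  have h2 : ∀ z, ‖Fg g z‖ = γ * ‖Fg (fun y => (γ⁻¹ : ℝ) * g y) z‖ := by
    intro z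
    simp only [Fg, EI, mul_assoc]
    rw [integral_const_mul, norm_mul, norm_real, Real.norm_eq_abs, abs_of_pos (inv_pos.mpr hγ0),
      ← mul_assoc, mul_inv_cancel₀ hγ0.ne', one_mul]
  set B := C * (N ^ (1 - 3 / p) + N ^ ε) with hB
  have hB0 : 0 ≤ B := by positivity
  rw [eLpNorm_eq_lintegral_rpow_enorm_toReal (by simpa using hp0) ENNReal.ofReal_ne_top,
    ENNReal.toReal_ofReal hp0.le, hγe, ← ENNReal.ofReal_mul (by positivity), one_div,
    ENNReal.rpow_inv_le_iff hp0]
  calc _ ≤ ∫⁻ z, (slab T).indicator (fun z => ENNReal.ofReal ((A * γ) ^ p) *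
        ENNReal.ofReal (‖Fg (fun y => (γ⁻¹ : ℝ) * g y) z‖ ^ p)) z := by
        refine lintegral_mono fun z => ?_
        by_cases hz : z ∈ slab T
        · rw [Set.indicator_of_mem hz, ← ENNReal.ofReal_mul (by positivity),
            ← Real.mul_rpow (by positivity) (by positivity), ← ofReal_norm,
            ENNReal.ofReal_rpow_of_nonneg (norm_nonneg _) hp0.le, norm_mul, h2, mul_assoc]
          gcongr
          exact hA _
        · have : φ z.1 = 0 := by
            by_contra h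
            exact hz (hT _ (subset_tsupport _ h))
          simp [this, hp0]
    _ ≤ ENNReal.ofReal ((A * γ) ^ p) * ENNReal.ofReal (B ^ p) := by
        rw [lintegral_indicator (slab_meas T), lintegral_const_mul' _ _ ENNReal.ofReal_ne_top]
        gcongr
    _ = _ := by
        rw [← ENNReal.ofReal_mul (by positivity), ← Real.mul_rpow (by positivity) hB0,
          ENNReal.ofReal_rpow_of_nonneg (by positivity) hp0.le]
        congr 2
        rw [hB]; ring

end Pool.Agent.Lib.MP_fe1582_an
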