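import Pool.Agent.Lib.MP_fe1582_an.Box

-- part Pool.Agent.Lib.MP_fe1582_an.Bilin
section

/-!
The bilinear estimate for two separated blocks.
-/

namespace Pool.Agent.Lib.MP_fe1582_an

open MeasureTheory Complex
open scoped ENNReal NNReal Real ComplexConjugate

variable {g : ℝ × ℤ → ℂ}

lemma μb_slow (Λ : Finset ℤ) (a : ℝ) (L : ℕ) {D c : ℝ} (h1 : c ≤ a) (h2 : a + L ≤ c + D) :
    Slow D c (μb g Λ a L) := by
  intro z z0
  unfold μb
  rw [Finset.mul_sum]
  refine Finset.sum_le_sum fun i hi => ?_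
  unfold tub
  rw [← lintegral_const_mul' _ _ ENNReal.ofReal_ne_top]
  refine lintegral_mono fun v => ?_
  simp only
  rw [← mul_assoc]
  gcongr
  refine (P_le_peetre _ (z0.2 - 2 * (a + i * 1) * z0.1 - v)).trans ?_
  refine mul_le_mul_left (ENNReal.ofReal_le_ofReal ?_) _
  have hi' : (i : ℝ) + 1 ≤ L := by exact_mod_cast Finset.mem_range.mp hi
  have hi0 : (0 : ℝ) ≤ i := Nat.cast_nonneg i
  set β := z.2 - 2 * c * z.1 - (z0.2 - 2 * c * z0.1) with hβ
  set e := (a + i - c) * (z.1 - z0.1) with he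
  have h3 : e ^ 2 ≤ (D * (z.1 - z0.1)) ^ 2 := by
    rw [he, mul_pow, mul_pow]
    gcongr
    · linarith
    · linarith
  rw [show z.2 - 2 * (a + i * 1) * z.1 - v - (z0.2 - 2 * (a + i * 1) * z0.1 - v) = β - 2 * e by
    rw [hβ, he]; ring]
  set α := D * (z.1 - z0.1)
  nlinarith [sq_nonneg (β + 2 * e), mul_nonneg (sq_nonneg α) (sq_nonneg β)]

lemma tub_bil (k : ℝ) {ρ : ℝ → ℝ≥0∞} (hρ : Measurable ρ) {Φ : ℝ × ℝ → ℝ≥0∞} (hΦ : Measurable Φ)
    {B : ℝ≥0∞} (hB : ∀ v, ∫⁻ z : ℝ × ℝ, P z.1 * P (z.2 - 2 * k * z.1 - v) * Φ z ≤ B) :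
    ∫⁻ z : ℝ × ℝ, P z.1 * tub k (fun p => ρ p.2) z * Φ z ≤ B * ∫⁻ v, ρ v := by
  have h1 : ∀ z : ℝ × ℝ, P z.1 * tub k (fun p => ρ p.2) z * Φ z =
      ∫⁻ v, P z.1 * P (z.2 - 2 * k * z.1 - v) * Φ z * ρ v := by
    intro z
    unfold tub
    rw [← lintegral_const_mul _ (by fun_prop), ← lintegral_mul_const _ (by fun_prop)]
    exact lintegral_congr fun v => by ring
  simp_rw [h1]
  rw [lintegral_lintegral_swap (Measurable.aemeasurable (by fun_prop)),
    ← lintegral_const_mul _ hρ]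
  refine lintegral_mono fun v => ?_
  simp only
  rw [lintegral_mul_const _ (by fun_prop)]
  gcongr; exact hB v

lemma μb_bil (hgm : Measurable g) (hg : Integrable g μ0) (Λ : Finset ℤ) (a : ℝ) (L : ℕ)
    {Φ : ℝ × ℝ → ℝ≥0∞} (hΦ : Measurable Φ) {B : ℝ≥0∞} (hB : ∀ i : ℕ, i < L →
      ∀ v, ∫⁻ z : ℝ × ℝ, P z.1 * P (z.2 - 2 * (a + i * 1) * z.1 - v) * Φ z ≤ B) :
    ∫⁻ z : ℝ × ℝ, P z.1 * μb g Λ a L z * Φ z ≤
      B * ∑ i ∈ Finset.range L, ∫⁻ v, ρc g Λ (a + i * 1) v := by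
  unfold μb
  simp_rw [Finset.mul_sum, Finset.sum_mul]
  rw [lintegral_finsetSum _ fun i _ => Measurable.fun_mul (Measurable.fun_mul (by fun_prop)
      (tub_meas _ (by have := ρc_meas hgm hg Λ (a + i * 1); fun_prop))) hΦ]
  exact Finset.sum_le_sum fun i hi =>
    tub_bil _ (ρc_meas hgm hg Λ _) hΦ (hB i (Finset.mem_range.mp hi))

lemma card_range_filter (L : ℕ) (x : ℝ) {d : ℝ} (hd : 0 ≤ d) :
    (((Finset.range L).filter fun j : ℕ => |(j : ℝ) - x| ≤ d).card : ℝ) ≤ 2 * d + 1 := by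
  rw [← Finset.card_image_of_injective _ (Nat.cast_injective (R := ℤ))]
  refine card_le_of_diam _ (by linarith) fun a ha b hb => ?_
  obtain ⟨i, hi, rfl⟩ := Finset.mem_image.mp ha
  obtain ⟨j, hj, rfl⟩ := Finset.mem_image.mp hb
  have h1 := abs_le.mp (Finset.mem_filter.mp hi).2
  have h2 := abs_le.mp (Finset.mem_filter.mp hj).2
  push_cast
  linarith [h1.1, h2.2]

/-- hypotheses on the discrete frequencies -/
def Good (Λ : Finset ℤ) (K : ℕ) (M D : ℝ) : Prop :=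
  1 ≤ M ∧ (∀ n ∈ Λ, n = 0 ∨ M ≤ |(n : ℝ)|) ∧ (D ≤ M ∨ ∀ n ∈ Λ, |(n : ℝ)| ≤ K * M)

lemma interact (hg : Integrable g μ0) (Λ : Finset ℤ) {D : ℝ} (hD : 0 < D) (s b c k k' l l' : ℝ)
    (h : ∫ z, (Wt D 1 s b c z : ℂ) * (E g (blk Λ k 1) z * E g (blk Λ k' 1) z *
      conj (E g (blk Λ l 1) z * E g (blk Λ l' 1) z)) ≠ 0) :
    ∃ y ∈ blk Λ k 1, ∃ y' ∈ blk Λ k' 1, ∃ u ∈ blk Λ l 1, ∃ u' ∈ blk Λ l' 1,
      |y.1 + y'.1 - (u.1 + u'.1)| < 1 ∧
      |ft y + ft y' - (ft u + ft u') - 2 * c * (y.1 + y'.1 - (u.1 + u'.1))| < D := by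
  by_contra hcon
  apply h
  refine (((E_hasSpec hg (blk_meas Λ k 1)).mul (E_hasSpec hg (blk_meas Λ k' 1))).mul
    ((E_hasSpec hg (blk_meas Λ l 1)).mul (E_hasSpec hg (blk_meas Λ l' 1))).conj).integral_eq_zero
    (Wt_integrable hD one_pos s b c) ?_
  rintro p ⟨q, ⟨q1, ⟨y, hy, rfl⟩, q2, ⟨y', hy', rfl⟩, rfl⟩, r, ⟨r1, ⟨u, hu, rfl⟩, r2,
    ⟨u', hu', rfl⟩, hr⟩, rfl⟩
  have hr' : r = -((fx u, ft u) + (fx u', ft u')) := by rw [← hr, neg_neg]
  apply What_Wt_eq_zero hD one_pos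
  by_contra h2
  rw [not_or, not_le, not_le] at h2
  refine hcon ⟨y, hy, y', hy', u, hu, u', hu', ?_, ?_⟩
  · simpa [hr', fx, sub_eq_add_neg, add_comm, add_left_comm] using h2.1
  · have h3 := h2.2
    simp only [hr', fx,
      ← sub_eq_add_neg] at h3
    exact h3

lemma bil_orth (hg : Integrable g μ0) {Λ : Finset ℤ} {K L : ℕ} {M : ℝ} (hK : 1 ≤ K) (hL : 1 ≤ L)
    (hG : Good Λ K M (K * L)) {c a a' : ℝ} (h1 : c ≤ a) (h2 : a + 2 * L ≤ a')
    (h3 : a' + L ≤ c + K * L) (s b : ℝ) :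
    ∫⁻ z, ENNReal.ofReal (Wt (K * L) 1 s b c z) *
        (‖E g (blk Λ a L) z‖ₑ * ‖E g (blk Λ a' L) z‖ₑ) ^ 2 ≤
      ENNReal.ofReal (40 * K ^ 3 * min (K * L : ℝ) M) *
        ∫⁻ z, ENNReal.ofReal (Wt (K * L) 1 s b c z) * (Sb g Λ a L z * Sb g Λ a' L z) := by
  classical
  have hK' : (1 : ℝ) ≤ K := by exact_mod_cast hK
  have hL' : (1 : ℝ) ≤ L := by exact_mod_cast hL
  have hD : (0 : ℝ) < K * L := by positivity
  have hM := hG.1
  set Φ : ℕ × ℕ → ℝ × ℝ → ℂ := fun i z =>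
    E g (blk Λ (a + i.1 * 1) 1) z * E g (blk Λ (a' + i.2 * 1) 1) z with hΦ
  have hsp := fun i : ℕ × ℕ => (E_hasSpec hg (blk_meas Λ (a + i.1 * 1) 1)).mul
    (E_hasSpec hg (blk_meas Λ (a' + i.2 * 1) 1))
  have h4 := orth_sum (Wt_integrable hD one_pos s b c) (Wt_nonneg _ _ _ _ _)
    (Finset.range L ×ˢ Finset.range L) Φ (fun i => (hsp i).continuous.aestronglyMeasurable)
    (fun i => (hsp i).bdd) ⌊40 * K ^ 3 * min (K * L : ℝ) M⌋₊ (by
      intro i hi
      apply Nat.le_floor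
      set d : ℝ := if K * L ≤ M then L else (3 * (K * L) + 2 * K ^ 2 * M ^ 2) / (2 * L) + 1 with hd
      have hsub : ((Finset.range L ×ˢ Finset.range L).filter fun j =>
          ∫ z, (Wt (K * L) 1 s b c z : ℂ) * (Φ i z * conj (Φ j z)) ≠ 0) ⊆
          (((Finset.range L).filter fun j : ℕ => |(j : ℝ) - i.1| ≤ d) ×ˢ Finset.range 5).image
            fun p => (p.1, i.1 + i.2 + p.2 - p.1 - 2) := by
        intro j hj
        rw [Finset.mem_filter, Finset.mem_product, Finset.mem_range, Finset.mem_range] at hj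
        rw [Finset.mem_product, Finset.mem_range, Finset.mem_range] at hi
        obtain ⟨y, hy, y', hy', u, hu, u', hu', e1, e2⟩ := interact hg Λ hD s b c _ _ _ _ hj.2
        rw [mem_blk] at hy hy' hu hu'
        have i1 : (i.1 : ℝ) + 1 ≤ L := by exact_mod_cast hi.1
        have i2 : (i.2 : ℝ) + 1 ≤ L := by exact_mod_cast hi.2
        have j1 : (j.1 : ℝ) + 1 ≤ L := by exact_mod_cast hj.1.1
        have j2 : (j.2 : ℝ) + 1 ≤ L := by exact_mod_cast hj.1.2
        have i1' : (0 : ℝ) ≤ i.1 := Nat.cast_nonneg _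
        have i2' : (0 : ℝ) ≤ i.2 := Nat.cast_nonneg _
        have j1' : (0 : ℝ) ≤ j.1 := Nat.cast_nonneg _
        have j2' : (0 : ℝ) ≤ j.2 := Nat.cast_nonneg _
        obtain ⟨y1, y2, y3⟩ := hy
        obtain ⟨y1', y2', y3'⟩ := hy'
        obtain ⟨u1, u2, u3⟩ := hu
        obtain ⟨u1', u2', u3'⟩ := hu'
        have e1' := abs_lt.mp e1
        have k1 : i.1 + i.2 < j.1 + j.2 + 3 := by
          have : (i.1 : ℝ) + i.2 < j.1 + j.2 + 3 := by linarith [e1'.1, e1'.2]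
          exact_mod_cast this
        have k2 : j.1 + j.2 < i.1 + i.2 + 3 := by
          have : (j.1 : ℝ) + j.2 < i.1 + i.2 + 3 := by linarith [e1'.1, e1'.2]
          exact_mod_cast this
        refine Finset.mem_image.mpr ⟨(j.1, j.1 + j.2 + 2 - (i.1 + i.2)), ?_, ?_⟩
        · rw [Finset.mem_product, Finset.mem_filter, Finset.mem_range, Finset.mem_range]
          refine ⟨⟨hj.1.1, ?_⟩, by simp only; omega⟩
          rw [hd]
          split_ifs with hc
          · rw [abs_le]; constructor <;> linarith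
          · have hn := hG.2.2.resolve_left hc
            have hsq : ∀ n ∈ Λ, (n : ℝ) ^ 2 ≤ K ^ 2 * M ^ 2 := fun n hn' => by
              rw [← sq_abs, ← mul_pow]; exact pow_le_pow_left₀ (abs_nonneg _) (hn n hn') 2
            have n1 := hsq _ y3
            have n2 := hsq _ y3'
            have n3 := hsq _ u3
            have n4 := hsq _ u3'
            have h5 : |(y.1 + y'.1 - (u.1 + u'.1)) * (y'.1 - c + (u'.1 - c))| ≤ 1 * (2 * (K * L)) := by
              rw [abs_mul]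
              refine mul_le_mul e1.le ?_ (abs_nonneg _) zero_le_one
              rw [abs_le]; constructor <;> linarith
            have h6 : |y.1 - u.1| * (2 * L) ≤ 3 * (K * L) + 2 * K ^ 2 * M ^ 2 := by
              have h7 : 2 * L ≤ |y'.1 + u'.1 - y.1 - u.1| := le_trans (by linarith) (le_abs_self _)
              refine (mul_le_mul_of_nonneg_left h7 (abs_nonneg _)).trans ?_
              rw [← abs_mul]
              simp only [ft] at e2
              rw [abs_le] at h5 ⊢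
              rw [abs_lt] at e2
              constructor <;> nlinarith [h5.1, h5.2, e2.1, e2.2, sq_nonneg (y.2 : ℝ),
                sq_nonneg (y'.2 : ℝ), sq_nonneg (u.2 : ℝ), sq_nonneg (u'.2 : ℝ)]
            rw [← le_div_iff₀ (by positivity)] at h6
            have h8 := abs_le.mp h6
            rw [abs_le]; constructor <;> linarith [h8.1, h8.2]
        · ext
          · rfl
          · simp only; omega
      have h9 := (Finset.card_le_card hsub).trans Finset.card_image_le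
      rw [Finset.card_product, Finset.card_range] at h9
      have h10 : (((Finset.range L).filter fun j : ℕ => |(j : ℝ) - i.1| ≤ d).card : ℝ) ≤
          8 * K ^ 3 * min (K * L : ℝ) M := by
        have hK3 : (K : ℝ) ≤ K ^ 3 := le_self_pow₀ hK' (by norm_num)
        by_cases hc : (K * L : ℝ) ≤ M
        · rw [min_eq_left hc]
          have := Finset.card_filter_le (Finset.range L) fun j : ℕ => |(j : ℝ) - i.1| ≤ d
          rw [Finset.card_range] at this
          have h11 : (((Finset.range L).filter fun j : ℕ => |(j : ℝ) - i.1| ≤ d).card : ℝ) ≤ L := by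
            exact_mod_cast this
          refine h11.trans ?_
          have : (L : ℝ) ≤ K * L := le_mul_of_one_le_left (by positivity) hK'
          nlinarith
        · rw [min_eq_right (not_le.mp hc).le]
          refine (card_range_filter L _ (by rw [hd, if_neg hc]; positivity)).trans ?_
          rw [hd, if_neg hc]
          have h12 : (3 * (K * L) + 2 * K ^ 2 * M ^ 2) / (2 * L) ≤ 3 / 2 * K + K ^ 3 * M := by
            rw [div_le_iff₀ (by positivity)]
            have : K ^ 2 * M * M ≤ K ^ 2 * M * (K * L) := by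
              gcongr; exact (not_le.mp hc).le
            nlinarith
          have : K ^ 3 ≤ (K : ℝ) ^ 3 * M := le_mul_of_one_le_right (by positivity) hM
          nlinarith
      have h13 : ((((Finset.range L ×ˢ Finset.range L).filter fun j =>
          ∫ z, (Wt (K * L) 1 s b c z : ℂ) * (Φ i z * conj (Φ j z)) ≠ 0).card : ℕ) : ℝ) ≤
          (((Finset.range L).filter fun j : ℕ => |(j : ℝ) - i.1| ≤ d).card : ℝ) * 5 := by
        exact_mod_cast h9
      linarith)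
  have e1 : ∀ z, ‖E g (blk Λ a L) z‖ₑ * ‖E g (blk Λ a' L) z‖ₑ =
      ‖∑ i ∈ Finset.range L ×ˢ Finset.range L, Φ i z‖ₑ := by
    intro z
    have q1 := E_blk_split hg Λ a one_pos L z
    have q2 := E_blk_split hg Λ a' one_pos L z
    rw [mul_one] at q1 q2
    rw [← enorm_mul, q1, q2, Finset.sum_mul_sum, Finset.sum_product]
  simp_rw [e1]
  refine h4.trans ?_
  rw [← lintegral_finsetSum _ fun i _ => Measurable.fun_mul (by fun_prop)
    ((hsp i).continuous.measurable.enorm.pow_const 2)]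
  gcongr with z
  · rw [← ENNReal.ofReal_natCast]
    exact ENNReal.ofReal_le_ofReal (Nat.floor_le (by positivity))
  · rw [← Finset.mul_sum, Sb, Sb, Finset.sum_mul_sum, Finset.sum_product]
    simp only [enorm_mul, mul_pow, le_refl]

lemma exists_bilinear (T : ℝ) (K : ℕ) (hK : 1 ≤ K) : ∃ C : ℝ≥0, ∀ g : ℝ × ℤ → ℂ, Measurable g →
    Integrable g μ0 → ∀ (Λ : Finset ℤ) (M : ℝ) (L : ℕ), 1 ≤ L → Good Λ K M (K * L) →
    ∀ R, L4 Λ R → ∀ c a a' : ℝ, c ≤ a → a + 2 * L ≤ a' → a' + L ≤ c + K * L →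
    ∀ γ : ℝ≥0∞, γ ≠ 0 → γ ≠ ⊤ → mass g (blk Λ a L) ≤ γ ^ 2 → mass g (blk Λ a' L) ≤ γ ^ 2 →
    ∫⁻ z in {z : ℝ × ℝ | |z.1| ≤ T}, min ‖E g (blk Λ a L) z‖ₑ ‖E g (blk Λ a' L) z‖ₑ ^ 3 ≤
      C * (1 + R) * γ * (mass g (blk Λ a L) + mass g (blk Λ a' L)) := by
  obtain ⟨C1, hC1⟩ := exists_box T
  obtain ⟨C2, hC2⟩ := exists_tube_bounds
  obtain ⟨C3, hC3⟩ := exists_tubeL2
  refine ⟨C1 * (C3 * C2 * (9 * K) + 40 * K ^ 3 * C2),
    fun g hgm hg Λ M L hL hG R hR c a a' h1 h2 h3 γ hγ hγ' hm hm' => ?_⟩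
  have hK' : (1 : ℝ) ≤ K := by exact_mod_cast hK
  have hL' : (1 : ℝ) ≤ L := by exact_mod_cast hL
  have hD : (1 : ℝ) ≤ K * L := one_le_mul_of_one_le_of_one_le hK' hL'
  have hM := hG.1
  set De : ℝ := min (K * L : ℝ) M with hDe
  have hDe0 : 0 < De := lt_min (by linarith) (by linarith)
  have hF := (E_cont hg (blk_meas Λ a L)).measurable.enorm
  have hF' := (E_cont hg (blk_meas Λ a' L)).measurable.enorm
  have h4 := hC1 (K * L) c hD _ _ _ _ _ _ _ _ hF hF' (Sb_meas hg Λ a L) (Sb_meas hg Λ a' L)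
    (μb_meas hgm hg Λ a L) (μb_meas hgm hg Λ a' L) (νb_meas hgm hg Λ a L) (νb_meas hgm hg Λ a' L)
    _ (bil_orth hg hK hL hG h1 h2 h3) (Sb_sq_le hgm hg Λ a L) (Sb_sq_le hgm hg Λ a' L)
    (μb_slow Λ a L h1 (by linarith)) (μb_slow Λ a' L (by linarith) h3)
    (ENNReal.ofReal De * γ⁻¹) (40 * K ^ 3 * γ) (le_of_eq (by
      rw [ENNReal.ofReal_mul (by positivity), ENNReal.ofReal_mul (by positivity),
        ENNReal.ofReal_pow (by positivity), ENNReal.ofReal_natCast, ENNReal.ofReal_ofNat]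
      calc _ = 40 * (K : ℝ≥0∞) ^ 3 * ENNReal.ofReal De * (γ⁻¹ * γ) := by
            rw [ENNReal.inv_mul_cancel hγ hγ', mul_one]
        _ = _ := by ring))
  obtain ⟨a1, -, -, a4⟩ := hC2 g hgm hg Λ a L
  obtain ⟨b1, -, -, b4⟩ := hC2 g hgm hg Λ a' L
  have hB : ENNReal.ofReal De * ENNReal.ofReal ((3 + 6 * (K * L) / M) / L) ≤ 9 * K := by
    rw [← ENNReal.ofReal_mul hDe0.le, ← ENNReal.ofReal_natCast, ← ENNReal.ofReal_ofNat 9,
      ← ENNReal.ofReal_mul (by norm_num)]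
    refine ENNReal.ofReal_le_ofReal ?_
    have q1 : De ≤ K * L := min_le_left _ _
    have q2 : De / M ≤ 1 := by rw [div_le_one (by linarith)]; exact min_le_right _ _
    rw [← mul_div_assoc, div_le_iff₀ (by linarith),
      show De * (3 + 6 * (K * L) / M) = 3 * De + 6 * (K * L) * (De / M) by ring]
    nlinarith
  have c1 := μb_bil hgm hg Λ a' L (hF.pow_const 2) (fun i hi v =>
    hC3 g hgm hg Λ M (by linarith) hG.2.1 a L (a' + i * 1) L (K * L) hL' hD (fun ξ q1 q2 => by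
      have i1 : (i : ℝ) + 1 ≤ L := by exact_mod_cast hi
      have i1' : (0 : ℝ) ≤ i := Nat.cast_nonneg _
      rw [abs_of_nonpos (by linarith)]
      constructor <;> linarith) v)
  have c2 := μb_bil hgm hg Λ a L (hF'.pow_const 2) (fun i hi v =>
    hC3 g hgm hg Λ M (by linarith) hG.2.1 a' L (a + i * 1) L (K * L) hL' hD (fun ξ q1 q2 => by
      have i1 : (i : ℝ) + 1 ≤ L := by exact_mod_cast hi
      have i1' : (0 : ℝ) ≤ i := Nat.cast_nonneg _
      rw [abs_of_nonneg (by linarith)]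
      constructor <;> linarith) v)
  refine h4.trans ?_
  set m := mass g (blk Λ a L)
  set m' := mass g (blk Λ a' L)
  set B := ENNReal.ofReal ((3 + 6 * (K * L) / M) / L)
  calc _ ≤ C1 * (ENNReal.ofReal De * γ⁻¹ * (C3 * B * m * (C2 * γ ^ 2) + C3 * B * m' * (C2 * γ ^ 2)) +
        40 * K ^ 3 * γ * (C2 * R * m + C2 * R * m')) := by
        gcongr
        · exact c1.trans (by gcongr; exact b1.trans (by gcongr))
        · exact c2.trans (by gcongr; exact a1.trans (by gcongr))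
        · exact a4 R hR
        · exact b4 R hR
    _ = C1 * (C3 * C2 * (ENNReal.ofReal De * B) * (γ⁻¹ * γ) * 1 + 40 * K ^ 3 * C2 * R) * γ *
        (m + m') := by ring
    _ ≤ C1 * (C3 * C2 * (9 * K) * 1 * (1 + R) + 40 * K ^ 3 * C2 * (1 + R)) * γ * (m + m') := by
        gcongr
        · exact ENNReal.inv_mul_le_one γ
        · exact le_self_add
        · exact le_add_self
    _ = _ := by push_cast; ring

end Pool.Agent.Lib.MP_fe1582_an
end

-- part Pool.Agent.Lib.MP_fe1582_an.BG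
section

/-!
The broad-narrow induction and the `L^3` bound with loss `N^ε`.
-/

namespace Pool.Agent.Lib.MP_fe1582_an

open MeasureTheory Complex
open scoped ENNReal NNReal Real ComplexConjugate

lemma sum_cube_le {ι : Type*} (s : Finset ι) (f : ι → ℝ≥0∞) :
    (∑ i ∈ s, f i) ^ 3 ≤ (s.card : ℝ≥0∞) ^ 3 * ∑ i ∈ s, f i ^ 3 := by
  rcases s.eq_empty_or_nonempty with rfl | hs
  · simp
  obtain ⟨i, hi, hm⟩ := Finset.exists_max_image s f hs
  have h1 : ∑ j ∈ s, f j ≤ s.card * f i := by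
    rw [← nsmul_eq_mul]; exact Finset.sum_le_card_nsmul _ _ _ hm
  calc _ ≤ (s.card * f i) ^ 3 := by gcongr
    _ = (s.card : ℝ≥0∞) ^ 3 * f i ^ 3 := mul_pow _ _ _
    _ ≤ _ := by
      gcongr
      exact Finset.single_le_sum (f := fun j => f j ^ 3) (fun _ _ => zero_le) hi

lemma broad_narrow (K : ℕ) (f : ℕ → ℝ≥0∞) :
    (∑ i ∈ Finset.range K, f i) ^ 3 ≤ 64 * ∑ i ∈ Finset.range K, f i ^ 3 + (K : ℝ≥0∞) ^ 6 *
      ∑ p ∈ (Finset.range K ×ˢ Finset.range K).filter (fun p => p.1 + 2 ≤ p.2),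
        min (f p.1) (f p.2) ^ 3 := by
  rcases Nat.eq_zero_or_pos K with rfl | hK
  · simp
  have hK1 : (1 : ℝ≥0∞) ≤ K := by exact_mod_cast hK
  obtain ⟨i, hi, hm⟩ := Finset.exists_max_image (Finset.range K) f ⟨0, Finset.mem_range.mpr hK⟩
  by_cases h : ∃ j ∈ Finset.range K, (j + 2 ≤ i ∨ i + 2 ≤ j) ∧ f i ≤ K * f j
  · obtain ⟨j, hj, hij, hf⟩ := h
    have h1 : ∑ j ∈ Finset.range K, f j ≤ K * f i := by
      have := Finset.sum_le_card_nsmul _ _ _ hm
      rwa [Finset.card_range, nsmul_eq_mul] at this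
    have h2 : f j ^ 3 ≤ ∑ p ∈ (Finset.range K ×ˢ Finset.range K).filter (fun p => p.1 + 2 ≤ p.2),
        min (f p.1) (f p.2) ^ 3 := by
      rcases hij with hij | hij
      · refine le_trans (le_of_eq ?_) (Finset.single_le_sum
          (f := fun p : ℕ × ℕ => min (f p.1) (f p.2) ^ 3) (fun _ _ => zero_le) (a := (j, i))
          (Finset.mem_filter.mpr ⟨Finset.mem_product.mpr ⟨hj, hi⟩, hij⟩))
        simp only [min_eq_left (hm j hj)]
      · refine le_trans (le_of_eq ?_) (Finset.single_le_sum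
          (f := fun p : ℕ × ℕ => min (f p.1) (f p.2) ^ 3) (fun _ _ => zero_le) (a := (i, j))
          (Finset.mem_filter.mpr ⟨Finset.mem_product.mpr ⟨hi, hj⟩, hij⟩))
        simp only [min_eq_right (hm j hj)]
    calc _ ≤ (K * (K * f j)) ^ 3 := by gcongr; exact h1.trans (by gcongr)
      _ = (K : ℝ≥0∞) ^ 6 * f j ^ 3 := by ring
      _ ≤ _ := le_add_left (by gcongr)
  · push Not at h
    have h1 : ∑ j ∈ (Finset.range K).filter (fun j => j + 2 ≤ i ∨ i + 2 ≤ j), f j ≤ f i := by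
      rw [← ENNReal.mul_le_mul_iff_right (a := K) (by positivity) (by simp), Finset.mul_sum]
      refine (Finset.sum_le_card_nsmul _ _ (f i) fun j hj => ?_).trans ?_
      · rw [Finset.mem_filter] at hj
        exact (h j hj.1 hj.2).le
      · rw [nsmul_eq_mul]
        gcongr
        exact (Finset.card_filter_le _ _).trans (Finset.card_range K).le
    have h2 : ∑ j ∈ (Finset.range K).filter (fun j => ¬(j + 2 ≤ i ∨ i + 2 ≤ j)), f j ≤ 3 * f i := by
      refine (Finset.sum_le_card_nsmul _ _ (f i) fun j hj =>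
        hm j (Finset.mem_filter.mp hj).1).trans ?_
      rw [nsmul_eq_mul]
      gcongr
      have : (Finset.range K).filter (fun j => ¬(j + 2 ≤ i ∨ i + 2 ≤ j)) ⊆ {i - 1, i, i + 1} := by
        intro j hj
        have := (Finset.mem_filter.mp hj).2
        simp only [Finset.mem_insert, Finset.mem_singleton]
        omega
      exact_mod_cast (Finset.card_le_card this).trans Finset.card_le_three
    have h3 : ∑ j ∈ Finset.range K, f j ≤ 4 * f i := by
      rw [← Finset.sum_filter_add_sum_filter_not _ (fun j => j + 2 ≤ i ∨ i + 2 ≤ j)]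
      exact (add_le_add h1 h2).trans (le_of_eq (by ring))
    calc _ ≤ (4 * f i) ^ 3 := by gcongr
      _ = 64 * f i ^ 3 := by ring
      _ ≤ _ := le_add_right (by
        gcongr
        exact Finset.single_le_sum (f := fun j => f j ^ 3) (fun _ _ => zero_le) hi)

/-- the time slab -/
def slab (T : ℝ) : Set (ℝ × ℝ) := {z | |z.1| ≤ T}

lemma slab_meas (T : ℝ) : MeasurableSet (slab T) := measurableSet_le (by fun_prop) measurable_const

lemma slab_int_le (T : ℝ) (Φ : ℝ × ℝ → ℝ≥0∞) :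
    ∫⁻ z in slab T, Φ z ≤ ENNReal.ofReal (1 + T ^ 2) * ∫⁻ z : ℝ × ℝ, P z.1 * Φ z := by
  rw [← lintegral_const_mul' _ _ ENNReal.ofReal_ne_top]
  refine le_trans (setLIntegral_mono' (slab_meas T) fun z hz => ?_) (setLIntegral_le_lintegral _ _)
  rw [← mul_assoc]
  refine le_mul_of_one_le_left' ?_
  unfold P
  rw [← ENNReal.ofReal_mul (by positivity), ← div_eq_mul_inv, ENNReal.one_le_ofReal,
    one_le_div (by positivity)]
  have : z.1 ^ 2 ≤ T ^ 2 := by rw [← sq_abs]; exact pow_le_pow_left₀ (abs_nonneg _) hz 2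
  linarith

lemma exists_base (T : ℝ) : ∃ C : ℝ≥0, ∀ g : ℝ × ℤ → ℂ, Measurable g →
    Integrable g μ0 → ∀ (Λ : Finset ℤ), ∀ R, L4 Λ R → ∀ a : ℝ,
    ∀ γ : ℝ≥0∞, γ ≠ 0 → γ ≠ ⊤ → mass g (blk Λ a 1) ≤ γ ^ 2 →
    ∫⁻ z in slab T, ‖E g (blk Λ a 1) z‖ₑ ^ 3 ≤ C * (1 + R) * γ * mass g (blk Λ a 1) := by
  obtain ⟨C1, hC1⟩ := exists_L2
  obtain ⟨C2, hC2⟩ := exists_tube_bounds
  set A : ℝ≥0 := Real.toNNReal (1 + T ^ 2) with hA
  have eA : ENNReal.ofReal (1 + T ^ 2) = A := rfl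
  refine ⟨A * (C1 + 4096 * A ^ 4 * C2 * C2), fun g hgm hg Λ R hR a γ hγ hγ' hm => ?_⟩
  obtain ⟨-, a2, -, a4⟩ := hC2 g hgm hg Λ a 1
  simp only [Nat.cast_one] at a2 a4
  have hF := (E_cont hg (blk_meas Λ a 1)).measurable.enorm
  have hν := νb_meas hgm hg Λ a 1
  calc _ ≤ ∫⁻ z in slab T, γ * ‖E g (blk Λ a 1) z‖ₑ ^ 2 + 4096 * A ^ 4 * C2 * γ * νb g Λ a 1 z := by
        refine setLIntegral_mono' (slab_meas T) fun z hz => le_add_of_sq_le ?_
        have h1 := Sb_sq_le hgm hg Λ a 1 z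
        simp only [Sb, Finset.range_one, Finset.sum_singleton, Nat.cast_zero, zero_mul,
          add_zero] at h1
        have h2 : ENNReal.ofReal (4096 * (1 + z.1 ^ 2) ^ 4) ≤ 4096 * A ^ 4 := by
          rw [← eA, ← ENNReal.ofReal_pow (by positivity), ← ENNReal.ofReal_ofNat 4096,
            ← ENNReal.ofReal_mul (by norm_num)]
          have : z.1 ^ 2 ≤ T ^ 2 := by rw [← sq_abs]; exact pow_le_pow_left₀ (abs_nonneg _) hz 2
          gcongr
        calc _ = ‖E g (blk Λ a 1) z‖ₑ ^ 2 * (‖E g (blk Λ a 1) z‖ₑ ^ 2) ^ 2 := by ring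
          _ ≤ ‖E g (blk Λ a 1) z‖ₑ ^ 2 * (4096 * A ^ 4 * (C2 * γ ^ 2 * νb g Λ a 1 z)) := by
            gcongr
            refine h1.trans ?_
            gcongr
            exact (a2 z).trans (by gcongr)
          _ = _ := by ring
    _ ≤ A * ∫⁻ z : ℝ × ℝ, P z.1 * (γ * ‖E g (blk Λ a 1) z‖ₑ ^ 2 +
        4096 * A ^ 4 * C2 * γ * νb g Λ a 1 z) := slab_int_le T _
    _ = A * (γ * (∫⁻ z : ℝ × ℝ, P z.1 * ‖E g (blk Λ a 1) z‖ₑ ^ 2) +
        4096 * A ^ 4 * C2 * γ * ∫⁻ z : ℝ × ℝ, P z.1 * νb g Λ a 1 z) := by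
        congr 1
        rw [← lintegral_const_mul _ (by fun_prop), ← lintegral_const_mul _ (by fun_prop),
          ← lintegral_add_left (by fun_prop)]
        exact lintegral_congr fun z => by ring
    _ ≤ A * (γ * (C1 * (1 + R) * mass g (blk Λ a 1)) +
        4096 * A ^ 4 * C2 * γ * (C2 * (1 + R) * mass g (blk Λ a 1))) := by
        gcongr
        · exact (hC1 g hgm hg Λ a 1).trans (by gcongr; exact le_mul_of_one_le_right' le_self_add)
        · exact (a4 R hR).trans (by gcongr; exact le_add_self)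
    _ = _ := by push_cast; ring

lemma exists_induct (T : ℝ) (K : ℕ) (hK : 1 ≤ K) : ∃ C : ℝ≥0, ∀ g : ℝ × ℤ → ℂ, Measurable g →
    Integrable g μ0 → ∀ (Λ : Finset ℤ) (M : ℝ), ∀ R, L4 Λ R → ∀ γ : ℝ≥0∞, γ ≠ 0 → γ ≠ ⊤ →
    ∀ m : ℕ, Good Λ K M ((K ^ m : ℕ) : ℝ) → ∀ a : ℝ, mass g (blk Λ a (K ^ m : ℕ)) ≤ γ ^ 2 →
    ∫⁻ z in slab T, ‖E g (blk Λ a (K ^ m : ℕ)) z‖ₑ ^ 3 ≤
      65 ^ m * (C * (1 + R) * γ * mass g (blk Λ a (K ^ m : ℕ))) := by
  obtain ⟨C1, hC1⟩ := exists_base T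
  obtain ⟨C2, hC2⟩ := exists_bilinear T K hK
  refine ⟨C1 + 2 * K ^ 8 * C2, fun g hgm hg Λ M R hR γ hγ hγ' m => ?_⟩
  induction m with
  | zero =>
    intro _ a hm
    simp only [pow_zero, Nat.cast_one, one_mul] at hm ⊢
    refine (hC1 g hgm hg Λ R hR a γ hγ hγ' hm).trans ?_
    gcongr
    exact le_self_add
  | succ m ih =>
    intro hG a hm
    set L : ℕ := K ^ m with hL
    have hL1 : 1 ≤ L := Nat.one_le_pow _ _ hK
    have hL' : (1 : ℝ) ≤ L := by exact_mod_cast hL1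
    have hK' : (1 : ℝ) ≤ K := by exact_mod_cast hK
    have e : ((K ^ (m + 1) : ℕ) : ℝ) = K * L := by rw [hL]; push_cast; ring
    rw [e] at hG hm ⊢
    have hG' : Good Λ K M L := ⟨hG.1, hG.2.1, hG.2.2.imp_left fun h =>
      (le_mul_of_one_le_left (by positivity) hK').trans h⟩
    have hms := mass_blk_split (g := g) Λ a (show (0 : ℝ) < L by linarith) K
    have hmi : ∀ i ∈ Finset.range K, mass g (blk Λ (a + i * L) L) ≤ mass g (blk Λ a (K * L)) := by
      intro i hi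
      rw [hms]
      exact Finset.single_le_sum (f := fun i : ℕ => mass g (blk Λ (a + i * L) L))
        (fun _ _ => zero_le) hi
    have hF := fun i : ℕ => (E_cont hg (blk_meas Λ (a + i * L) L)).measurable.enorm
    set s := (Finset.range K ×ˢ Finset.range K).filter (fun p => p.1 + 2 ≤ p.2) with hs
    calc _ ≤ ∫⁻ z in slab T, 64 * ∑ i ∈ Finset.range K, ‖E g (blk Λ (a + i * L) L) z‖ₑ ^ 3 +
          (K : ℝ≥0∞) ^ 6 * ∑ p ∈ s, min ‖E g (blk Λ (a + p.1 * L) L) z‖ₑ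
            ‖E g (blk Λ (a + p.2 * L) L) z‖ₑ ^ 3 := by
          refine lintegral_mono fun z => le_trans ?_ (broad_narrow K _)
          rw [E_blk_split hg Λ a (show (0 : ℝ) < L by linarith) K z]
          gcongr
          exact enorm_sum_le _ _
      _ = 64 * ∑ i ∈ Finset.range K, (∫⁻ z in slab T, ‖E g (blk Λ (a + i * L) L) z‖ₑ ^ 3) +
          (K : ℝ≥0∞) ^ 6 * ∑ p ∈ s, ∫⁻ z in slab T, min ‖E g (blk Λ (a + p.1 * L) L) z‖ₑ
            ‖E g (blk Λ (a + p.2 * L) L) z‖ₑ ^ 3 := by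
          rw [lintegral_add_left ((Finset.measurable_fun_sum _ fun i _ =>
            (hF i).pow_const 3).const_mul _), lintegral_const_mul' _ _ (by simp),
            lintegral_const_mul' _ _ (by simp),
            lintegral_finsetSum _ fun i _ => (hF i).pow_const 3,
            lintegral_finsetSum _ fun p _ => ((hF p.1).min (hF p.2)).pow_const 3]
      _ ≤ 64 * ∑ i ∈ Finset.range K, 65 ^ m * ((C1 + 2 * K ^ 8 * C2 : ℝ≥0) * (1 + R) * γ *
            mass g (blk Λ (a + i * L) L)) +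
          (K : ℝ≥0∞) ^ 6 * (K ^ 2 * (C2 * (1 + R) * γ * (2 * mass g (blk Λ a (K * L))))) := by
          gcongr with i hi
          · exact ih hG' _ ((hmi i hi).trans hm)
          · refine (Finset.sum_le_card_nsmul _ _
              (C2 * (1 + R) * γ * (2 * mass g (blk Λ a (K * L)))) fun p hp => ?_).trans ?_
            · rw [hs, Finset.mem_filter, Finset.mem_product] at hp
              have q1 : (p.1 : ℝ) + 2 ≤ p.2 := by exact_mod_cast hp.2
              have q2 : (p.2 : ℝ) + 1 ≤ K := by exact_mod_cast Finset.mem_range.mp hp.1.2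
              have q3 : (0 : ℝ) ≤ p.1 := Nat.cast_nonneg _
              refine (hC2 g hgm hg Λ M L hL1 hG R hR a _ _ (by nlinarith) (by nlinarith)
                (by nlinarith) γ hγ hγ' ((hmi _ hp.1.1).trans hm)
                ((hmi _ hp.1.2).trans hm)).trans ?_
              rw [two_mul]
              gcongr
              · exact hmi _ hp.1.1
              · exact hmi _ hp.1.2
            · rw [nsmul_eq_mul]
              gcongr
              have := Finset.card_filter_le (Finset.range K ×ˢ Finset.range K)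
                (fun p => p.1 + 2 ≤ p.2)
              rw [Finset.card_product, Finset.card_range, ← sq] at this
              exact_mod_cast this
      _ = 64 * 65 ^ m * ((C1 + 2 * K ^ 8 * C2 : ℝ≥0) * (1 + R) * γ * mass g (blk Λ a (K * L))) +
          1 * ((2 * K ^ 8 * C2 : ℝ≥0) * (1 + R) * γ * mass g (blk Λ a (K * L))) := by
          rw [← Finset.mul_sum, ← Finset.mul_sum, ← hms]
          push_cast; ring
      _ ≤ 64 * 65 ^ m * ((C1 + 2 * K ^ 8 * C2 : ℝ≥0) * (1 + R) * γ * mass g (blk Λ a (K * L))) +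
          65 ^ m * ((C1 + 2 * K ^ 8 * C2 : ℝ≥0) * (1 + R) * γ * mass g (blk Λ a (K * L))) := by
          gcongr
          · exact one_le_pow₀ (by norm_num)
          · exact le_add_self
      _ = _ := by ring

/-- frequency support in a square -/
def Supp (g : ℝ × ℤ → ℂ) (N ξ0 : ℝ) (n0 : ℤ) : Prop :=
  ∀ y, g y ≠ 0 → |y.1 - ξ0| ≤ N ∧ |(y.2 : ℝ) - n0| ≤ N

/-- the full extension operator -/
noncomputable def Fg (g : ℝ × ℤ → ℂ) : ℝ × ℝ → ℂ := EI μ0 g fx ft

lemma exists_blk {g : ℝ × ℤ → ℂ} {N ξ0 : ℝ} {n0 : ℤ} (h : Supp g N ξ0 n0) :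
    ∃ Λ : Finset ℤ, (∀ n ∈ Λ, |(n : ℝ) - n0| ≤ N) ∧ ∀ l, 2 * N < l →
      (blk Λ (ξ0 - N) l).indicator g = g := by
  refine ⟨(Finset.Icc (n0 - ⌈N⌉) (n0 + ⌈N⌉)).filter fun n : ℤ => |(n : ℝ) - n0| ≤ N,
    fun n hn => (Finset.mem_filter.mp hn).2, fun l hl => ?_⟩
  refine Set.indicator_eq_self.mpr fun y hy => ?_
  obtain ⟨h1, h2⟩ := h y hy
  have h3 := abs_le.mp h1
  have h4 := abs_le.mp h2
  have h5 := Int.le_ceil N
  refine mem_blk.mpr ⟨by linarith [h3.1], by linarith [h3.2], Finset.mem_filter.mpr ⟨?_, h2⟩⟩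
  rw [Finset.mem_Icc]
  constructor
  · have : ((n0 - ⌈N⌉ : ℤ) : ℝ) ≤ y.2 := by push_cast; linarith [h4.1]
    exact_mod_cast this
  · have : (y.2 : ℝ) ≤ ((n0 + ⌈N⌉ : ℤ) : ℝ) := by push_cast; linarith [h4.2]
    exact_mod_cast this

lemma exists_L2' (T : ℝ) : ∃ C : ℝ≥0, ∀ g : ℝ × ℤ → ℂ, Measurable g → Integrable g μ0 →
    ∀ (N ξ0 : ℝ) (n0 : ℤ), Supp g N ξ0 n0 →
    ∫⁻ z in slab T, ‖Fg g z‖ₑ ^ 2 ≤ C * ∫⁻ y, ‖g y‖ₑ ^ 2 ∂μ0 := by
  obtain ⟨C, hC⟩ := exists_L2
  refine ⟨Real.toNNReal (1 + T ^ 2) * C, fun g hgm hg N ξ0 n0 hs => ?_⟩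
  obtain ⟨Λ, -, h2⟩ := exists_blk hs
  have h3 := hC g hgm hg Λ (ξ0 - N) (2 * N + 1)
  rw [mass_eq (blk_meas _ _ _), E, h2 _ (by linarith)] at h3
  refine (slab_int_le T _).trans ?_
  push_cast
  rw [mul_assoc]
  exact mul_le_mul_right h3 _

theorem exists_L3 (T : ℝ) {ε : ℝ} (hε : 0 < ε) : ∃ C : ℝ, 0 < C ∧ ∀ g : ℝ × ℤ → ℂ, Measurable g →
    Integrable g μ0 → ∀ (N ξ0 : ℝ) (n0 : ℤ), 1 ≤ N → Supp g N ξ0 n0 →
    ∀ γ : ℝ≥0∞, γ ≠ 0 → γ ≠ ⊤ → ∫⁻ y, ‖g y‖ₑ ^ 2 ∂μ0 ≤ γ ^ 2 →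
    ∫⁻ z in slab T, ‖Fg g z‖ₑ ^ 3 ≤ ENNReal.ofReal (C * N ^ ε) * γ ^ 3 := by
  classical
  have hε2 : 0 < ε / 2 := by positivity
  set K : ℕ := ⌈(520 : ℝ) ^ (1 / (ε / 2))⌉₊ + 2 with hK
  have hK2 : 2 ≤ K := by omega
  have hK' : (1 : ℝ) ≤ K := by exact_mod_cast (by omega : 1 ≤ K)
  have hK520 : (520 : ℝ) ≤ (K : ℝ) ^ (ε / 2) := by
    have h1 : (520 : ℝ) ^ (1 / (ε / 2)) ≤ K := by
      rw [hK]; push_cast; linarith [Nat.le_ceil ((520 : ℝ) ^ (1 / (ε / 2)))]
    have h2 := Real.rpow_le_rpow (by positivity) h1 hε2.le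
    rwa [← Real.rpow_mul (by norm_num), one_div_mul_cancel hε2.ne', Real.rpow_one] at h2
  obtain ⟨C1, hC1⟩ := exists_induct T K (by omega)
  obtain ⟨C2, hC21, hC2⟩ := exists_L4 hε2
  refine ⟨(4 * K) ^ (ε / 2) * (C1 + 1) * (2 * C2), by positivity,
    fun g hgm hg N ξ0 n0 hN hs γ hγ hγ' hm => ?_⟩
  obtain ⟨Λ, hΛ, h2⟩ := exists_blk hs
  set m : ℕ := Nat.log K ⌈3 * N⌉₊ + 1 with hm'
  have hm1 : 2 * N < ((K ^ m : ℕ) : ℝ) := by
    have h1 : ⌈3 * N⌉₊ < K ^ m := Nat.lt_pow_succ_log_self (by omega) _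
    have h2 : ((⌈3 * N⌉₊ : ℕ) : ℝ) < ((K ^ m : ℕ) : ℝ) := by exact_mod_cast h1
    linarith [Nat.le_ceil (3 * N)]
  have hm2 : (K : ℝ) ^ m ≤ 4 * K * N := by
    have h0 : ⌈3 * N⌉₊ ≠ 0 := by
      rw [← Nat.pos_iff_ne_zero, Nat.ceil_pos]; linarith
    have h1 : ((K ^ Nat.log K ⌈3 * N⌉₊ : ℕ) : ℝ) ≤ ⌈3 * N⌉₊ := by
      exact_mod_cast Nat.pow_log_le_self K h0
    have h2 := Nat.ceil_lt_add_one (show 0 ≤ 3 * N by linarith)
    push_cast at h1
    rw [hm', pow_succ]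
    nlinarith
  set Λp : ℕ → Finset ℤ := fun j => Λ.filter fun n => min m (Nat.log K n.natAbs) = j with hΛp
  set l : ℝ := ((K ^ m : ℕ) : ℝ) with hl
  have hU : blk Λ (ξ0 - N) l = ⋃ j ∈ Finset.range (m + 1), blk (Λp j) (ξ0 - N) l := by
    ext y
    simp only [Set.mem_iUnion, mem_blk, hΛp, Finset.mem_filter, Finset.mem_range, exists_prop]
    constructor
    · rintro ⟨h1, h2, h3⟩
      exact ⟨_, by omega, h1, h2, h3, rfl⟩
    · rintro ⟨j, -, h1, h2, h3, -⟩
      exact ⟨h1, h2, h3⟩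
  have hd : Set.PairwiseDisjoint (Finset.range (m + 1) : Set ℕ)
      fun j => blk (Λp j) (ξ0 - N) l := by
    intro i _ j _ hij
    refine Set.disjoint_left.mpr fun y h1 h2 => hij ?_
    rw [← (Finset.mem_filter.mp (mem_blk.mp h1).2.2).2, (Finset.mem_filter.mp (mem_blk.mp h2).2.2).2]
  have hmass : ∑ j ∈ Finset.range (m + 1), mass g (blk (Λp j) (ξ0 - N) l) ≤ γ ^ 2 := by
    rw [← mass_biUnion _ _ (fun j => blk_meas _ _ _) hd]
    exact (setLIntegral_le_lintegral _ _).trans hm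
  have hG : ∀ j ∈ Finset.range (m + 1), Good (Λp j) K ((K : ℝ) ^ j) l := by
    intro j hj
    refine ⟨one_le_pow₀ hK', fun n hn => ?_, ?_⟩
    · by_cases h0 : n = 0
      · exact Or.inl h0
      · right
        have h1 := (Finset.mem_filter.mp hn).2
        have h3 : K ^ j ≤ n.natAbs := Nat.pow_le_of_le_log (by omega) (by omega)
        rw [← Int.cast_abs, ← Nat.cast_natAbs]
        exact_mod_cast h3
    · by_cases h0 : j = m
      · left; rw [hl, h0]; push_cast; rfl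
      · right
        intro n hn
        have h1 := (Finset.mem_filter.mp hn).2
        have h3 : n.natAbs < K ^ (Nat.log K n.natAbs + 1) := Nat.lt_pow_succ_log_self (by omega) _
        rw [show Nat.log K n.natAbs = j by omega] at h3
        rw [← Int.cast_abs, ← Nat.cast_natAbs, ← pow_succ']
        exact_mod_cast h3.le
  have hF := fun j : ℕ => (E_cont hg (blk_meas (Λp j) (ξ0 - N) l)).measurable.enorm
  set R := ENNReal.ofReal (C2 * N ^ (ε / 2)) with hR
  have hN1 : 1 ≤ N ^ (ε / 2) := Real.one_le_rpow hN hε2.le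
  calc _ ≤ ∫⁻ z in slab T, ((m + 1 : ℕ) : ℝ≥0∞) ^ 3 *
        ∑ j ∈ Finset.range (m + 1), ‖E g (blk (Λp j) (ξ0 - N) l) z‖ₑ ^ 3 := by
        refine lintegral_mono fun z => ?_
        have h3 := sum_cube_le (Finset.range (m + 1)) fun j => ‖E g (blk (Λp j) (ξ0 - N) l) z‖ₑ
        rw [Finset.card_range] at h3
        refine le_trans ?_ h3
        have h4 : Fg g z = E g (blk Λ (ξ0 - N) l) z := by rw [E, h2 _ hm1, Fg]
        simp only
        rw [h4, hU, E_biUnion hg _ _ (fun j => blk_meas _ _ _) hd]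
        gcongr
        exact enorm_sum_le _ _
    _ ≤ 8 ^ m * ∑ j ∈ Finset.range (m + 1),
        65 ^ m * (C1 * (1 + R) * γ * mass g (blk (Λp j) (ξ0 - N) l)) := by
        rw [lintegral_const_mul' _ _ (by simp), lintegral_finsetSum _ fun i _ => (hF i).pow_const 3]
        refine mul_le_mul' ?_ (Finset.sum_le_sum fun j hj => ?_)
        · have : (m + 1) ^ 3 ≤ 8 ^ m := by
            rw [show 8 ^ m = (2 ^ m) ^ 3 by rw [← pow_mul, mul_comm, pow_mul]; norm_num]
            exact Nat.pow_le_pow_left Nat.lt_two_pow_self 3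
          exact_mod_cast this
        · exact hC1 g hgm hg _ _ R (hC2 N n0 _ hN fun n hn => hΛ n (Finset.mem_filter.mp hn).1)
            γ hγ hγ' m (hG j hj) _ (le_trans (Finset.single_le_sum
              (f := fun j => mass g (blk (Λp j) (ξ0 - N) l)) (fun _ _ => zero_le) hj) hmass)
    _ ≤ 8 ^ m * (65 ^ m * (C1 * (1 + R) * γ * γ ^ 2)) := by
        rw [← Finset.mul_sum, ← Finset.mul_sum]; gcongr
    _ = 520 ^ m * C1 * (1 + R) * γ ^ 3 := by
        rw [show (520 : ℝ≥0∞) = 8 * 65 by norm_num, mul_pow]; ring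
    _ ≤ _ := by
        gcongr
        rw [hR, ← ENNReal.ofReal_one, ← ENNReal.ofReal_add zero_le_one (by positivity),
          ← ENNReal.ofReal_ofNat 520, ← ENNReal.ofReal_pow (by norm_num),
          ← ENNReal.ofReal_coe_nnreal, ← ENNReal.ofReal_mul (by positivity),
          ← ENNReal.ofReal_mul (by positivity)]
        refine ENNReal.ofReal_le_ofReal ?_
        have h3 : (520 : ℝ) ^ m ≤ (4 * K) ^ (ε / 2) * N ^ (ε / 2) := by
          calc _ ≤ ((K : ℝ) ^ (ε / 2)) ^ m := by gcongr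
            _ = ((K : ℝ) ^ m) ^ (ε / 2) := by
              rw [← Real.rpow_natCast, ← Real.rpow_natCast, ← Real.rpow_mul (by positivity),
                ← Real.rpow_mul (by positivity), mul_comm]
            _ ≤ (4 * K * N) ^ (ε / 2) := by gcongr
            _ = _ := Real.mul_rpow (by positivity) (by positivity)
        have h4 : N ^ ε = N ^ (ε / 2) * N ^ (ε / 2) := by
          rw [← Real.rpow_add (by linarith)]; ring_nf
        calc (520 : ℝ) ^ m * C1 * (1 + C2 * N ^ (ε / 2))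
            ≤ (4 * K) ^ (ε / 2) * N ^ (ε / 2) * (C1 + 1) * (2 * C2 * N ^ (ε / 2)) := by
              gcongr
              · linarith
              · nlinarith
          _ = _ := by rw [h4]; ring

end Pool.Agent.Lib.MP_fe1582_an
end

-- part Pool.Agent.Lib.MP_fe1582_an.Kern
section

/-!
Gaussian kernels: theta sums and the free Schrodinger kernel.
-/

namespace Pool.Agent.Lib.MP_fe1582_an

open MeasureTheory Complex
open scoped ENNReal NNReal Real ComplexConjugate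

/-- Gaussian weight -/
noncomputable def Ga (L c x : ℝ) : ℝ := Real.exp (-((x - c) / L) ^ 2)

lemma Ga_pos (L c x : ℝ) : 0 < Ga L c x := Real.exp_pos _

lemma Ga_le_one (L c x : ℝ) : Ga L c x ≤ 1 :=
  Real.exp_le_one_iff.mpr (neg_nonpos.mpr (sq_nonneg _))

@[fun_prop] lemma Ga_cont (L c : ℝ) : Continuous (Ga L c) := by unfold Ga; fun_prop

lemma Ga_le_P (L c x : ℝ) : ENNReal.ofReal (Ga L c x) ≤ P ((x - c) / L) :=
  ENNReal.ofReal_le_ofReal (exp_neg_le _ (sq_nonneg _))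

lemma lintegral_P_div {L : ℝ} (hL : 0 < L) (c : ℝ) :
    ∫⁻ v, P ((v - c) / L) ≤ ENNReal.ofReal (4 * L) := by
  have h1 := lintegral_scale P_meas (inv_pos.mpr hL) c
  rw [lintegral_const_mul _ (by fun_prop)] at h1
  have h2 : ∀ v, P ((v - c) / L) = P (L⁻¹ * (c - v)) := fun v => by
    rw [← P_neg]; congr 1; ring
  simp_rw [h2]
  calc _ = ENNReal.ofReal L * (ENNReal.ofReal L⁻¹ * ∫⁻ v, P (L⁻¹ * (c - v))) := by
        rw [← mul_assoc, ← ENNReal.ofReal_mul hL.le, mul_inv_cancel₀ hL.ne']; simp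
    _ ≤ ENNReal.ofReal L * 4 := by rw [h1]; gcongr; exact lintegral_P
    _ = _ := by rw [ENNReal.ofReal_mul (by norm_num), mul_comm]; simp

lemma Ga_integrable {L : ℝ} (hL : 0 < L) (c : ℝ) : Integrable (Ga L c) := by
  refine ⟨(Ga_cont L c).aestronglyMeasurable, ?_⟩
  rw [hasFiniteIntegral_iff_ofReal (Filter.Eventually.of_forall fun x => (Ga_pos L c x).le)]
  exact lt_of_le_of_lt ((lintegral_mono (Ga_le_P L c)).trans (lintegral_P_div hL c))
    ENNReal.ofReal_lt_top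

lemma tsum_Ga_le {L : ℝ} (hL : 1 ≤ L) (c : ℝ) :
    ∑' m : ℤ, ENNReal.ofReal (Ga L c m) ≤ ENNReal.ofReal (16 * L) := by
  have h1 : ∀ m : ℤ, ENNReal.ofReal (Ga L c m) ≤
      ∫⁻ v in Set.Ico ((0 : ℝ) + m) (0 + m + 1), 4 * P ((v - c) / L) := by
    intro m
    refine le_trans ?_ (setLIntegral_mono' (f := fun _ => ENNReal.ofReal (Ga L c m))
      measurableSet_Ico fun v hv => ?_)
    · simp
    · refine (Ga_le_P _ _ _).trans ((P_le_peetre _ ((v - c) / L)).trans ?_)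
      gcongr
      rw [← ENNReal.ofReal_ofNat 4]
      refine ENNReal.ofReal_le_ofReal ?_
      have : ((m - c) / L - (v - c) / L) ^ 2 ≤ 1 := by
        rw [← sub_div, div_pow, div_le_one (by positivity)]
        nlinarith [hv.1, hv.2]
      linarith
  refine (ENNReal.tsum_le_tsum h1).trans ?_
  rw [← lintegral_iUnion (fun _ => measurableSet_Ico) (Set.pairwise_disjoint_Ico_add_intCast 0)]
  refine (setLIntegral_le_lintegral _ _).trans ?_
  rw [lintegral_const_mul' _ _ (by simp), show 16 * L = 4 * (4 * L) by ring,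
    ENNReal.ofReal_mul (by norm_num), ENNReal.ofReal_ofNat]
  gcongr
  exact lintegral_P_div (by linarith) c

lemma Ga_count_integrable {L : ℝ} (hL : 1 ≤ L) (c : ℝ) :
    Integrable (fun n : ℤ => Ga L c n) Measure.count := by
  refine ⟨Measurable.of_discrete.aestronglyMeasurable, ?_⟩
  rw [hasFiniteIntegral_iff_ofReal (Filter.Eventually.of_forall fun x => (Ga_pos L c _).le),
    lintegral_count]
  exact lt_of_le_of_lt (tsum_Ga_le hL c) ENNReal.ofReal_lt_top

/-- the singular kernel `|τ|^(-1/2)` -/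
noncomputable def ks (τ : ℝ) : ℝ≥0∞ := (ENNReal.ofReal √|τ|)⁻¹

@[fun_prop] lemma ks_meas : Measurable ks := by unfold ks; fun_prop

lemma enorm_le_ks {τ : ℝ} {u : ℂ} (h : τ ≠ 0 → ‖u‖ ^ 2 ≤ 4 / |τ|) : ‖u‖ₑ ≤ 2 * ks τ := by
  by_cases h0 : τ = 0
  · simp [ks, h0]
  have h1 : 0 < |τ| := abs_pos.mpr h0
  have h2 : 0 < √|τ| := Real.sqrt_pos.mpr h1
  unfold ks
  rw [← ENNReal.ofReal_inv_of_pos h2, ← ENNReal.ofReal_ofNat 2, ← ENNReal.ofReal_mul (by norm_num),
    ← ofReal_norm]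
  refine ENNReal.ofReal_le_ofReal ((pow_le_pow_iff_left₀ (norm_nonneg _) (by positivity) two_ne_zero).mp ?_)
  rw [mul_pow, inv_pow, Real.sq_sqrt h1.le]
  exact (h h0).trans (le_of_eq (by ring))

lemma ks_mul_ks {τ σ : ℝ} (hσ : 0 < σ) (h : σ ≤ |τ|) : ks τ * ks τ ≤ ENNReal.ofReal σ⁻¹ := by
  unfold ks
  rw [← ENNReal.mul_inv (by simp) (by simp), ← ENNReal.ofReal_mul (Real.sqrt_nonneg _),
    Real.mul_self_sqrt (abs_nonneg _), ENNReal.ofReal_inv_of_pos hσ]
  exact ENNReal.inv_le_inv.mpr (ENNReal.ofReal_le_ofReal h)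

lemma ks_le {τ N : ℝ} (hN : 0 < N) (h : 1 / N ≤ |τ|) : ks τ ≤ ENNReal.ofReal √N := by
  unfold ks
  rw [← inv_inv √N, ENNReal.ofReal_inv_of_pos (by positivity), ← Real.sqrt_inv]
  refine ENNReal.inv_le_inv.mpr (ENNReal.ofReal_le_ofReal (Real.sqrt_le_sqrt ?_))
  rwa [inv_eq_one_div]

lemma lintegral_ks {σ : ℝ} (hσ : 0 < σ) :
    ∫⁻ τ, (Set.Icc (-σ) σ).indicator ks τ ≤ ENNReal.ofReal (4 * √σ) := by
  have h1 : ∫⁻ τ, (Set.Ioc 0 σ).indicator ks τ = ENNReal.ofReal (2 * √σ) := by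
    rw [lintegral_indicator measurableSet_Ioc, setLIntegral_congr_fun measurableSet_Ioc
      (g := fun τ => ENNReal.ofReal (τ ^ (-(1 / 2) : ℝ))) (fun τ hτ => by
        simp only [ks]
        rw [abs_of_pos hτ.1, Real.rpow_neg hτ.1.le, ← Real.sqrt_eq_rpow,
          ENNReal.ofReal_inv_of_pos (Real.sqrt_pos.mpr hτ.1)]),
      ← ofReal_integral_eq_lintegral_ofReal
        (intervalIntegral.intervalIntegrable_rpow' (a := 0) (b := σ) (by norm_num)).1
        ((ae_restrict_iff' measurableSet_Ioc).mpr (Filter.Eventually.of_forall fun τ hτ =>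
          Real.rpow_nonneg hτ.1.le _)),
      ← intervalIntegral.integral_of_le hσ.le, integral_rpow (Or.inl (by norm_num)),
      Real.zero_rpow (by norm_num), Real.sqrt_eq_rpow]
    congr 1
    norm_num; ring
  have h2 : ∀ᵐ τ : ℝ, (Set.Icc (-σ) σ).indicator ks τ ≤
      (Set.Ioc 0 σ).indicator ks τ + (Set.Ioc 0 σ).indicator ks (-τ) := by
    filter_upwards [compl_mem_ae_iff.mpr (Real.volume_singleton (a := 0))] with τ hτ
    by_cases h : τ ∈ Set.Icc (-σ) σ
    · rw [Set.indicator_of_mem h]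
      rcases lt_or_gt_of_ne (show τ ≠ 0 from hτ) with h0 | h0
      · rw [Set.indicator_of_mem (show -τ ∈ Set.Ioc 0 σ from ⟨by linarith, by linarith [h.1]⟩)]
        refine le_add_left (le_of_eq ?_)
        simp [ks]
      · rw [Set.indicator_of_mem (show τ ∈ Set.Ioc 0 σ from ⟨h0, h.2⟩)]
        exact le_self_add
    · simp [h]
  refine (lintegral_mono_ae h2).trans (le_of_eq ?_)
  rw [lintegral_add_left (ks_meas.indicator measurableSet_Ioc),
    lintegral_neg_eq_self ((Set.Ioc 0 σ).indicator ks), h1,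
    ← ENNReal.ofReal_add (by positivity) (by positivity)]
  congr 1; ring

/-- the theta sum -/
noncomputable def θs (N : ℝ) (n0 : ℤ) (τ : ℝ) : ℂ :=
  ∫ n : ℤ, (Ga N n0 n : ℂ) * ex (-(τ * (n : ℝ) ^ 2)) ∂Measure.count

lemma θs_le {N : ℝ} (hN : 1 ≤ N) (n0 : ℤ) (τ : ℝ) : ‖θs N n0 τ‖ₑ ≤ ENNReal.ofReal (16 * N) := by
  refine (enorm_integral_le_lintegral_enorm _).trans ?_
  rw [lintegral_count]
  refine le_trans (le_of_eq ?_) (tsum_Ga_le hN n0)
  refine tsum_congr fun n => ?_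
  rw [enorm_mul, enorm_ex, mul_one, ← ofReal_norm, norm_real, Real.norm_eq_abs,
    abs_of_pos (Ga_pos _ _ _)]

lemma θs_le_ks {N : ℝ} (hN : 1 ≤ N) (n0 : ℤ) {τ : ℝ} (hτ : |τ| ≤ 1 / N) :
    ‖θs N n0 τ‖ₑ ≤ 32 * ks τ := by
  have hN0 : 0 < N := by linarith
  have hpi := Real.pi_pos
  have hint : Integrable (fun n : ℤ => (Ga N n0 n : ℂ) * ex (-(τ * (n : ℝ) ^ 2))) Measure.count :=
    (Ga_count_integrable hN n0).mono' Measurable.of_discrete.aestronglyMeasurable
      (Filter.Eventually.of_forall fun n => by simp [abs_of_pos (Ga_pos _ _ _)])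
  set A : ℂ := ((N ^ 2)⁻¹ : ℝ) + τ * I with hA
  have hAre : A.re = (N ^ 2)⁻¹ := by simp only [hA, add_re, ofReal_re, mul_re, I_re, ofReal_im, I_im]; ring
  have hAim : A.im = τ := by simp only [hA, add_im, ofReal_im, mul_im, I_re, ofReal_re, I_im]; ring
  have hA0 : A ≠ 0 := fun h => by
    rw [h] at hAre
    have : (0 : ℝ) < (N ^ 2)⁻¹ := by positivity
    rw [zero_re] at hAre; linarith
  have ha : 0 < (A / π).re := by rw [div_ofReal_re, hAre]; positivity
  have h1 := Complex.tsum_exp_neg_quadratic ha (-I * ((τ * n0 / π : ℝ) : ℂ))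
  have h2 : θs N n0 τ = ex (-(τ * (n0 : ℝ) ^ 2)) * ∑' m : ℤ,
      cexp (-π * (A / π) * m ^ 2 + 2 * π * (-I * ((τ * n0 / π : ℝ) : ℂ)) * m) := by
    unfold θs
    rw [integral_countable hint, ← (Equiv.addRight n0).tsum_eq, ← tsum_mul_left]
    refine tsum_congr fun m => ?_
    simp only [Measure.real, Measure.count_singleton, ENNReal.toReal_one, one_smul,
      Equiv.coe_addRight, Ga, ex, ofReal_exp, ← Complex.exp_add]
    congr 1
    have : (π : ℂ) ≠ 0 := ofReal_ne_zero.mpr hpi.ne'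
    have : (N : ℂ) ≠ 0 := ofReal_ne_zero.mpr hN0.ne'
    rw [hA]
    push_cast
    field_simp
    ring
  rw [h2, h1, enorm_mul, enorm_ex, one_mul, enorm_mul, show (32 : ℝ≥0∞) = 2 * 16 by norm_num,
    mul_right_comm]
  refine mul_le_mul' (enorm_le_ks fun h0 => ?_) (enorm_tsum_le_tsum_enorm.trans ?_)
  · rw [norm_div, div_pow, sq_norm_cpow_half, norm_div, norm_real, Real.norm_eq_abs,
      abs_of_pos hpi, norm_one, one_pow, one_div_div]
    have h3 : |τ| ≤ ‖A‖ := by rw [← hAim]; exact abs_im_le_norm A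
    gcongr
    exact Real.pi_le_four
  · have h3 := tsum_Ga_le le_rfl (-(τ * n0 / π))
    rw [mul_one, ENNReal.ofReal_ofNat] at h3
    refine le_trans (ENNReal.tsum_le_tsum fun m => ?_) h3
    rw [← ofReal_norm, Complex.norm_exp]
    refine ENNReal.ofReal_le_ofReal (Real.exp_le_exp.mpr ?_)
    have h4 : -π / (A / π) * (m + I * (-I * ((τ * n0 / π : ℝ) : ℂ))) ^ 2 =
        ((-π ^ 2 * (m + τ * n0 / π) ^ 2 : ℝ) : ℂ) * A⁻¹ := by
      rw [← mul_assoc, mul_neg, I_mul_I, neg_neg, one_mul]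
      push_cast
      field_simp
    rw [h4, re_ofReal_mul, inv_re, normSq_apply, hAre, hAim]
    have h5 : 1 / 2 ≤ (N ^ 2)⁻¹ / ((N ^ 2)⁻¹ * (N ^ 2)⁻¹ + τ * τ) := by
      rw [le_div_iff₀ (add_pos_of_pos_of_nonneg (by positivity) (mul_self_nonneg τ))]
      have h6 : τ * τ ≤ (N ^ 2)⁻¹ := by
        rw [← abs_mul_abs_self, ← sq, ← inv_pow, inv_eq_one_div]
        gcongr
      have h7 : (N ^ 2)⁻¹ ≤ 1 := inv_le_one_of_one_le₀ (by nlinarith)
      have h8 : (0 : ℝ) < (N ^ 2)⁻¹ := by positivity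
      nlinarith
    have h9 : 9 ≤ π ^ 2 := by nlinarith [Real.pi_gt_three]
    rw [div_one, sub_neg_eq_add]
    nlinarith [sq_nonneg ((m : ℝ) + τ * n0 / π), mul_nonneg (sub_nonneg.mpr h9)
      (sq_nonneg ((m : ℝ) + τ * n0 / π)), mul_nonneg (mul_nonneg (sq_nonneg π)
      (sq_nonneg ((m : ℝ) + τ * n0 / π))) (sub_nonneg.mpr h5)]

lemma κ_le {N : ℝ} (hN : 0 < N) (ξ0 τ x : ℝ) :
    ‖∫ ξ, (Ga N ξ0 ξ : ℂ) * ex (-(τ * ξ ^ 2)) * ex (x * ξ)‖ₑ ≤ 2 * ks τ := by
  have hpi := Real.pi_pos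
  set A : ℂ := ((N ^ 2)⁻¹ : ℝ) + τ * I with hA
  have hAre : A.re = (N ^ 2)⁻¹ := by simp only [hA, add_re, ofReal_re, mul_re, I_re, ofReal_im, I_im]; ring
  have hAim : A.im = τ := by simp only [hA, add_im, ofReal_im, mul_im, I_re, ofReal_re, I_im]; ring
  have ha : 0 < A.re := by rw [hAre]; positivity
  have h1 := fourierIntegral_gaussian ha ((x - 2 * τ * ξ0 : ℝ) : ℂ)
  have h2 : ∫ ξ, (Ga N ξ0 ξ : ℂ) * ex (-(τ * ξ ^ 2)) * ex (x * ξ) = ex (x * ξ0 - τ * ξ0 ^ 2) *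
      ∫ η : ℝ, cexp (I * ((x - 2 * τ * ξ0 : ℝ) : ℂ) * η) * cexp (-A * η ^ 2) := by
    rw [← integral_add_right_eq_self _ ξ0, ← integral_const_mul]
    refine integral_congr_ae (Filter.Eventually.of_forall fun η => ?_)
    simp only [Ga, ex, ofReal_exp, ← Complex.exp_add]
    congr 1
    have : (N : ℂ) ≠ 0 := ofReal_ne_zero.mpr hN.ne'
    rw [hA]
    push_cast
    field_simp
    ring
  refine enorm_le_ks fun h0 => ?_
  rw [h2, h1, norm_mul, norm_ex, one_mul, norm_mul, mul_pow, sq_norm_cpow_half, norm_div,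
    norm_real, Real.norm_eq_abs, abs_of_pos hpi]
  have h3 : |τ| ≤ ‖A‖ := by rw [← hAim]; exact abs_im_le_norm A
  have h4 : ‖cexp (-((x - 2 * τ * ξ0 : ℝ) : ℂ) ^ 2 / (4 * A))‖ ≤ 1 := by
    rw [Complex.norm_exp, Real.exp_le_one_iff, show -((x - 2 * τ * ξ0 : ℝ) : ℂ) ^ 2 / (4 * A) =
      ((-(x - 2 * τ * ξ0) ^ 2 / 4 : ℝ) : ℂ) * A⁻¹ by push_cast; ring, re_ofReal_mul, inv_re]
    refine mul_nonpos_of_nonpos_of_nonneg ?_ (div_nonneg ha.le (normSq_nonneg _))
    nlinarith [sq_nonneg (x - 2 * τ * ξ0)]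
  have h5 : 0 < |τ| := abs_pos.mpr h0
  calc _ ≤ 4 / |τ| * 1 ^ 2 := by
        gcongr
        exact Real.pi_le_four
    _ = _ := by ring

end Pool.Agent.Lib.MP_fe1582_an
end

-- part Pool.Agent.Lib.MP_fe1582_an.TT
section

/-!
The dual estimate and the weak type bound for large levels.
-/

namespace Pool.Agent.Lib.MP_fe1582_an

open MeasureTheory Complex
open scoped ENNReal NNReal Real ComplexConjugate

lemma swap_ex {X Y : Type*} [MeasurableSpace X] [MeasurableSpace Y] {μ : Measure X} {m : Measure Y}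
    [SFinite μ] [SFinite m] {u : X → ℂ} {a : Y → ℂ} (hu : Integrable u μ) (ha : Integrable a m)
    {φ : X → Y → ℝ} (hφ : Measurable fun p : X × Y => φ p.1 p.2) :
    ∫ x, u x * (∫ y, a y * ex (φ x y) ∂m) ∂μ = ∫ y, a y * (∫ x, u x * ex (φ x y) ∂μ) ∂m := by
  simp_rw [← integral_const_mul]
  rw [integral_integral_swap]
  · refine integral_congr_ae (Filter.Eventually.of_forall fun y => ?_)
    refine integral_congr_ae (Filter.Eventually.of_forall fun z => ?_)
    simp only; ring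
  · have h1 : Integrable (fun p : X × Y => u p.1 * a p.2) (μ.prod m) := hu.mul_prod ha
    refine h1.norm.mono' ?_ (Filter.Eventually.of_forall fun p => ?_)
    · have h2 : AEStronglyMeasurable (fun p : X × Y => ex (φ p.1 p.2)) (μ.prod m) :=
        (measurable_ex.comp hφ).aestronglyMeasurable
      refine (h1.aestronglyMeasurable.mul h2).congr (Filter.Eventually.of_forall fun p => ?_)
      simp only [Function.uncurry, Pi.mul_apply]; ring
    · simp [Function.uncurry]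

/-- partial Fourier transform -/
noncomputable def Hh (h : ℝ × ℝ → ℂ) (t ξ : ℝ) : ℂ := ∫ x, h (t, x) * ex (x * ξ)

/-- mass of a time slice -/
noncomputable def Ah (h : ℝ × ℝ → ℂ) (t : ℝ) : ℝ≥0∞ := ∫⁻ x, ‖h (t, x)‖ₑ

/-- the dual operator -/
noncomputable def hat (h : ℝ × ℝ → ℂ) (y : ℝ × ℤ) : ℂ :=
  ∫ z, h z * ex (z.2 * fx y - z.1 * ft y)

/-- the bilinear form of two time slices -/
noncomputable def βh (h : ℝ × ℝ → ℂ) (N ξ0 : ℝ) (p : ℝ × ℝ) : ℂ :=
  ∫ ξ, (Ga N ξ0 ξ : ℂ) * ex (-((p.1 - p.2) * ξ ^ 2)) * (Hh h p.1 ξ * conj (Hh h p.2 ξ))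

variable {h : ℝ × ℝ → ℂ}

lemma Hh_meas (hm : Measurable h) : Measurable fun p : ℝ × ℝ => Hh h p.1 p.2 :=
  (StronglyMeasurable.integral_prod_right' (ν := volume)
    (f := fun q : (ℝ × ℝ) × ℝ => h (q.1.1, q.2) * ex (q.2 * q.1.2))
    (Measurable.stronglyMeasurable (by fun_prop))).measurable

lemma Ah_meas (hm : Measurable h) : Measurable (Ah h) :=
  Measurable.lintegral_prod_right' (f := fun z : ℝ × ℝ => ‖h z‖ₑ) hm.enorm

lemma Hh_eq_zero (hm : Measurable h) {t : ℝ} (ht : ¬Integrable fun x => h (t, x)) (ξ : ℝ) :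
    Hh h t ξ = 0 := by
  refine integral_undef fun hi => ht ?_
  exact hi.norm.mono' (Measurable.aestronglyMeasurable (by fun_prop))
    (Filter.Eventually.of_forall fun x => by simp)

lemma βh_le_ks (hm : Measurable h) {N : ℝ} (hN : 0 < N) (ξ0 : ℝ) (p : ℝ × ℝ) :
    ‖βh h N ξ0 p‖ₑ ≤ 2 * ks (p.1 - p.2) * (Ah h p.1 * Ah h p.2) := by
  by_cases h1 : Integrable fun x => h (p.1, x)
  swap
  · simp [βh, Hh_eq_zero hm h1]
  by_cases h2 : Integrable fun x => h (p.2, x)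
  swap
  · simp [βh, Hh_eq_zero hm h2]
  have h2' : Integrable fun x => conj (h (p.2, x)) :=
    Complex.conjCLE.toContinuousLinearMap.integrable_comp h2
  have e1 : ∀ ξ, Hh h p.1 ξ * conj (Hh h p.2 ξ) =
      ∫ q : ℝ × ℝ, (h (p.1, q.1) * conj (h (p.2, q.2))) * ex ((q.1 - q.2) * ξ) := by
    intro ξ
    unfold Hh
    rw [← integral_conj, ← integral_prod_mul, Measure.volume_eq_prod]
    refine integral_congr_ae (Filter.Eventually.of_forall fun q => ?_)
    simp only [map_mul, sub_mul, ex_sub]; ring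
  have hu : Integrable fun ξ => (Ga N ξ0 ξ : ℂ) * ex (-((p.1 - p.2) * ξ ^ 2)) :=
    (Ga_integrable hN ξ0).mono' (Continuous.aestronglyMeasurable (by fun_prop))
      (Filter.Eventually.of_forall fun n => by simp [abs_of_pos (Ga_pos _ _ _)])
  unfold βh
  simp_rw [e1]
  rw [swap_ex hu (m := volume) (h1.mul_prod h2') (φ := fun ξ q => (q.1 - q.2) * ξ) (by fun_prop)]
  refine (enorm_integral_le_lintegral_enorm _).trans ?_
  unfold Ah
  rw [← lintegral_prod_mul (Measurable.aemeasurable (by fun_prop))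
    (Measurable.aemeasurable (by fun_prop)), ← lintegral_const_mul _ (by fun_prop),
    Measure.volume_eq_prod]
  refine lintegral_mono fun q => ?_
  simp only [enorm_mul, RCLike.enorm_conj]
  rw [mul_comm]
  gcongr
  exact κ_le hN ξ0 _ _

lemma exists_βh_le : ∃ C : ℝ≥0, ∀ h : ℝ × ℝ → ℂ, Measurable h → (∀ z, ‖h z‖ ≤ 1) →
    ∀ (N ξ0 : ℝ) (p : ℝ × ℝ), ‖βh h N ξ0 p‖ₑ ≤ C * (Ah h p.1 + Ah h p.2) := by
  obtain ⟨C, hC⟩ := exists_plancherel
  refine ⟨C, fun h hm hb N ξ0 p => ?_⟩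
  have h1 : ∀ t, ∫⁻ ξ, ‖Hh h t ξ‖ₑ ^ 2 ≤ C * Ah h t := by
    intro t
    by_cases ht : Integrable fun x => h (t, x)
    · have := hC _ (by fun_prop) ht
      refine le_trans (le_of_eq ?_) (this.trans ?_)
      · simp only [Hh, mul_comm]
      · gcongr
        refine lintegral_mono fun x => ?_
        rw [sq]
        refine mul_le_of_le_one_left' ?_
        rw [← ofReal_norm]; exact ENNReal.ofReal_le_one.mpr (hb _)
    · simp [Hh_eq_zero hm ht]
  have hH := Hh_meas hm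
  refine (enorm_integral_le_lintegral_enorm _).trans ?_
  rw [mul_add]
  refine le_trans ?_ (add_le_add (h1 p.1) (h1 p.2))
  have hH1 : Measurable (Hh h p.1) := hH.comp (measurable_prodMk_left (x := p.1))
  rw [← lintegral_add_left (hH1.enorm.pow_const 2)]
  refine lintegral_mono fun ξ => ?_
  simp only [enorm_mul, RCLike.enorm_conj, enorm_ex, mul_one]
  refine (mul_le_of_le_one_left' ?_).trans (le_add_of_sq_le (le_of_eq (by ring)))
  rw [← ofReal_norm, norm_real, Real.norm_eq_abs, abs_of_pos (Ga_pos _ _ _)]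
  exact ENNReal.ofReal_le_one.mpr (Ga_le_one _ _ _)

lemma hat_meas (hi : Integrable h) : Measurable (hat h) := by
  have := (EI_continuous (m := volume) (ζ := Prod.snd) (τ := Prod.fst) hi measurable_snd
    measurable_fst).measurable.comp (ft_meas.prodMk fx_meas)
  have e : hat h = EI volume h Prod.snd Prod.fst ∘ fun y => (ft y, fx y) := by
    funext y; simp [EI, hat, mul_comm]
  rw [e]; exact this

lemma dual_id (hm : Measurable h) (hi : Integrable h) {N : ℝ} (hN : 1 ≤ N) (ξ0 : ℝ) (n0 : ℤ) :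
    ∫⁻ y, ENNReal.ofReal (Ga N ξ0 y.1 * Ga N n0 y.2) * ‖hat h y‖ₑ ^ 2 ∂μ0 ≤
      ∫⁻ p : ℝ × ℝ, ‖βh h N ξ0 p‖ₑ * ‖θs N n0 (p.1 - p.2)‖ₑ := by
  have hΓ : Integrable (fun y : ℝ × ℤ => Ga N ξ0 y.1 * Ga N n0 y.2) μ0 :=
    (Ga_integrable (by linarith) ξ0).mul_prod (Ga_count_integrable hN n0)
  have hΓ0 : ∀ y : ℝ × ℤ, 0 ≤ Ga N ξ0 y.1 * Ga N n0 y.2 := fun y =>
    (mul_pos (Ga_pos _ _ _) (Ga_pos _ _ _)).le
  rw [lintegral_weight_sq hΓ hΓ0 (hat_meas hi).aestronglyMeasurable ⟨∫ z, ‖h z‖, fun y =>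
    (norm_integral_le_integral_norm _).trans (le_of_eq (by simp))⟩]
  have h1 : ENNReal.ofReal (∫ y, Ga N ξ0 y.1 * Ga N n0 y.2 * ‖hat h y‖ ^ 2 ∂μ0) ≤
      ‖∫ y, ((Ga N ξ0 y.1 * Ga N n0 y.2 : ℝ) : ℂ) * (hat h y * conj (hat h y)) ∂μ0‖ₑ := by
    rw [← integral_weight_sq_eq, ← ofReal_norm, norm_real]
    exact ENNReal.ofReal_le_ofReal (le_abs_self _)
  refine h1.trans ?_
  have hH := Hh_meas hm
  have e1 : ∀ y, hat h y = ∫ t, Hh h t y.1 * ex (-(t * ft y)) := by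
    intro y
    unfold hat Hh
    rw [Measure.volume_eq_prod, integral_prod]
    · refine integral_congr_ae (Filter.Eventually.of_forall fun t => ?_)
      simp only
      rw [← integral_mul_const]
      refine integral_congr_ae (Filter.Eventually.of_forall fun x => ?_)
      simp only [sub_eq_add_neg, ex_add, fx]; ring
    · exact hi.norm.mono' (Measurable.aestronglyMeasurable (by fun_prop))
        (Filter.Eventually.of_forall fun x => by simp)
  have e2 : ∀ y, ((Ga N ξ0 y.1 * Ga N n0 y.2 : ℝ) : ℂ) * (hat h y * conj (hat h y)) =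
      ∫ p : ℝ × ℝ, ((Ga N ξ0 y.1 : ℂ) * ex (-((p.1 - p.2) * y.1 ^ 2)) *
        (Hh h p.1 y.1 * conj (Hh h p.2 y.1))) *
          ((Ga N n0 y.2 : ℂ) * ex (-((p.1 - p.2) * (y.2 : ℝ) ^ 2))) := by
    intro y
    rw [e1, ← integral_conj, ← integral_prod_mul, Measure.volume_eq_prod, ← integral_const_mul]
    refine integral_congr_ae (Filter.Eventually.of_forall fun p => ?_)
    have : ex (-(p.1 * ft y)) * conj (ex (-(p.2 * ft y))) =
        ex (-((p.1 - p.2) * y.1 ^ 2)) * ex (-((p.1 - p.2) * (y.2 : ℝ) ^ 2)) := by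
      rw [← ex_sub, ← ex_add, ft]; congr 1; ring
    simp only [map_mul]
    push_cast
    linear_combination (Ga N ξ0 y.1 * Ga N n0 y.2 * Hh h p.1 y.1 * conj (Hh h p.2 y.1)) * this
  simp_rw [e2]
  rw [integral_integral_swap]
  · refine (enorm_integral_le_lintegral_enorm _).trans (le_of_eq (lintegral_congr fun p => ?_))
    rw [← enorm_mul, βh, θs, ← integral_prod_mul]
    rfl
  · have ha : Integrable fun t => ∫ x, ‖h (t, x)‖ := by
      rw [Measure.volume_eq_prod] at hi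
      exact hi.integral_norm_prod_left
    have hb : ∀ t ξ, ‖Hh h t ξ‖ ≤ ∫ x, ‖h (t, x)‖ := fun t ξ =>
      (norm_integral_le_integral_norm _).trans (le_of_eq (by simp))
    refine (hΓ.mul_prod (ha.mul_prod ha)).mono' (Measurable.aestronglyMeasurable ?_)
      (Filter.Eventually.of_forall fun q => ?_)
    · have m1 : Measurable fun q : (ℝ × ℤ) × ℝ × ℝ => Hh h q.2.1 q.1.1 :=
        hH.comp (measurable_snd.fst.prodMk measurable_fst.fst)
      have m2 : Measurable fun q : (ℝ × ℤ) × ℝ × ℝ => conj (Hh h q.2.2 q.1.1) :=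
        continuous_conj.measurable.comp (hH.comp (measurable_snd.snd.prodMk measurable_fst.fst))
      have m3 := (Ga_cont N ξ0).measurable
      have m4 := (Ga_cont N n0).measurable
      unfold Function.uncurry
      fun_prop
    · simp only [Function.uncurry, norm_mul, norm_ex, mul_one, norm_real, Real.norm_eq_abs,
        abs_of_pos (Ga_pos _ _ _), RCLike.norm_conj]
      rw [mul_right_comm]
      exact mul_le_mul_of_nonneg_left (mul_le_mul (hb _ _) (hb _ _) (norm_nonneg _)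
        ((norm_nonneg _).trans (hb _ 0))) (hΓ0 _)

lemma exists_dual : ∃ C : ℝ≥0, ∀ h : ℝ × ℝ → ℂ, Measurable h → Integrable h → (∀ z, ‖h z‖ ≤ 1) →
    ∀ (N ξ0 : ℝ) (n0 : ℤ), 1 ≤ N → ∀ σ : ℝ, 0 < σ → σ ≤ 1 / N →
    ∫⁻ y, ENNReal.ofReal (Ga N ξ0 y.1 * Ga N n0 y.2) * ‖hat h y‖ₑ ^ 2 ∂μ0 ≤
      C * (ENNReal.ofReal √σ * (∫⁻ z, ‖h z‖ₑ) +
        ENNReal.ofReal (σ⁻¹ + N * √N) * (∫⁻ z, ‖h z‖ₑ) ^ 2) := by
  obtain ⟨C, hC⟩ := exists_βh_le
  refine ⟨256 * C + 64, fun h hm hi hb N ξ0 n0 hN σ hσ hσN => (dual_id hm hi hN ξ0 n0).trans ?_⟩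
  have hA := Ah_meas hm
  have hk : Measurable ((Set.Icc (-σ) σ).indicator ks) := ks_meas.indicator measurableSet_Icc
  have hV : ∫⁻ t, Ah h t = ∫⁻ z, ‖h z‖ₑ := by
    rw [Measure.volume_eq_prod, lintegral_prod _ hm.enorm.aemeasurable]; rfl
  set k := (Set.Icc (-σ) σ).indicator ks with hkk
  set B := ENNReal.ofReal (σ⁻¹ + N * √N) with hB
  have h1 : ∀ p : ℝ × ℝ, ‖βh h N ξ0 p‖ₑ * ‖θs N n0 (p.1 - p.2)‖ₑ ≤
      32 * C * (Ah h p.1 * k (p.1 - p.2) + Ah h p.2 * k (p.1 - p.2)) +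
        64 * B * (Ah h p.1 * Ah h p.2) := by
    intro p
    by_cases c1 : |p.1 - p.2| ≤ σ
    · refine le_add_right ?_
      rw [hkk, Set.indicator_of_mem (show p.1 - p.2 ∈ Set.Icc (-σ) σ from abs_le.mp c1)]
      calc _ ≤ C * (Ah h p.1 + Ah h p.2) * (32 * ks (p.1 - p.2)) :=
            mul_le_mul' (hC h hm hb N ξ0 p) (θs_le_ks hN n0 (c1.trans hσN))
        _ = _ := by ring
    · refine le_add_left ?_
      by_cases c2 : |p.1 - p.2| ≤ 1 / N
      · calc _ ≤ 2 * ks (p.1 - p.2) * (Ah h p.1 * Ah h p.2) * (32 * ks (p.1 - p.2)) :=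
              mul_le_mul' (βh_le_ks hm (by linarith) ξ0 p) (θs_le_ks hN n0 c2)
          _ = 64 * (ks (p.1 - p.2) * ks (p.1 - p.2)) * (Ah h p.1 * Ah h p.2) := by ring
          _ ≤ _ := by
            gcongr
            refine (ks_mul_ks hσ (not_le.mp c1).le).trans (ENNReal.ofReal_le_ofReal ?_)
            have : 0 ≤ N * √N := by positivity
            linarith
      · calc _ ≤ 2 * ks (p.1 - p.2) * (Ah h p.1 * Ah h p.2) * ENNReal.ofReal (16 * N) :=
              mul_le_mul' (βh_le_ks hm (by linarith) ξ0 p) (θs_le hN n0 _)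
          _ ≤ 2 * ENNReal.ofReal √N * (Ah h p.1 * Ah h p.2) * ENNReal.ofReal (16 * N) := by
            gcongr; exact ks_le (by linarith) (not_le.mp c2).le
          _ = 32 * ENNReal.ofReal (N * √N) * (Ah h p.1 * Ah h p.2) := by
            rw [ENNReal.ofReal_mul (by norm_num), ENNReal.ofReal_mul (by linarith),
              ENNReal.ofReal_ofNat]; ring
          _ ≤ _ := by
            gcongr
            · norm_num
            · refine ENNReal.ofReal_le_ofReal ?_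
              have : 0 ≤ σ⁻¹ := by positivity
              linarith
  have hks : ∫⁻ τ, k τ ≤ 4 * ENNReal.ofReal √σ := by
    refine (lintegral_ks hσ).trans (le_of_eq ?_)
    rw [ENNReal.ofReal_mul (by norm_num), ENNReal.ofReal_ofNat]
  have h2 : ∫⁻ p : ℝ × ℝ, Ah h p.1 * k (p.1 - p.2) ≤ 4 * ENNReal.ofReal √σ * ∫⁻ z, ‖h z‖ₑ := by
    rw [← hV, Measure.volume_eq_prod, lintegral_prod _ (Measurable.aemeasurable (by fun_prop)),
      ← lintegral_const_mul _ hA]
    refine lintegral_mono fun t => ?_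
    simp only
    rw [lintegral_const_mul _ (by fun_prop), lintegral_sub_left_eq_self k t, mul_comm]
    gcongr
  have h3 : ∫⁻ p : ℝ × ℝ, Ah h p.2 * k (p.1 - p.2) ≤ 4 * ENNReal.ofReal √σ * ∫⁻ z, ‖h z‖ₑ := by
    rw [← hV, Measure.volume_eq_prod, lintegral_prod_symm _ (Measurable.aemeasurable (by fun_prop)),
      ← lintegral_const_mul _ hA]
    refine lintegral_mono fun t => ?_
    simp only
    rw [lintegral_const_mul _ (by fun_prop), lintegral_sub_right_eq_self k t, mul_comm]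
    gcongr
  have h4 : ∫⁻ p : ℝ × ℝ, Ah h p.1 * Ah h p.2 = (∫⁻ z, ‖h z‖ₑ) ^ 2 := by
    rw [← hV, Measure.volume_eq_prod, lintegral_prod_mul hA.aemeasurable hA.aemeasurable, sq]
  refine (lintegral_mono h1).trans ?_
  rw [lintegral_add_left (by fun_prop), lintegral_const_mul _ (by fun_prop),
    lintegral_const_mul _ (by fun_prop), lintegral_add_left (by fun_prop), h4]
  calc _ ≤ 32 * C * (4 * ENNReal.ofReal √σ * (∫⁻ z, ‖h z‖ₑ) +
        4 * ENNReal.ofReal √σ * ∫⁻ z, ‖h z‖ₑ) + 64 * B * (∫⁻ z, ‖h z‖ₑ) ^ 2 := by gcongr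
    _ = 256 * C * (ENNReal.ofReal √σ * ∫⁻ z, ‖h z‖ₑ) + 64 * (B * (∫⁻ z, ‖h z‖ₑ) ^ 2) := by ring
    _ ≤ _ := by
      push_cast
      rw [mul_add]
      gcongr
      · exact le_self_add
      · exact le_add_self

theorem exists_weak (T : ℝ) : ∃ C : ℝ, 1 ≤ C ∧ ∀ g : ℝ × ℤ → ℂ, Measurable g →
    Integrable g μ0 → ∀ (N ξ0 : ℝ) (n0 : ℤ), 1 ≤ N → Supp g N ξ0 n0 →
    ∀ γ : ℝ, 0 < γ → ∫⁻ y, ‖g y‖ₑ ^ 2 ∂μ0 ≤ ENNReal.ofReal γ ^ 2 →
    ∀ l : ℝ, 0 < l → C * γ ^ 2 * (N * √N) ≤ l ^ 2 →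
    volume {z | z ∈ slab T ∧ l < ‖Fg g z‖} ≤ ENNReal.ofReal (C ^ 2 * γ ^ 3 / l ^ 3) := by
  obtain ⟨C1, hC1⟩ := exists_dual
  obtain ⟨C2, hC2⟩ := exists_L2' T
  refine ⟨4 * (9 * C1 + 1), by have := C1.2; linarith,
    fun g hgm hg N ξ0 n0 hN hs γ hγ hm l hl hlC => ?_⟩
  set A : ℝ := 9 * C1 + 1 with hA
  have hA1 : 1 ≤ A := by have := C1.2; linarith
  have hF : Continuous (Fg g) := EI_continuous hg fx_meas ft_meas
  set S := {z | z ∈ slab T ∧ l < ‖Fg g z‖} with hS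
  have hSm : MeasurableSet S :=
    (slab_meas T).inter (measurableSet_lt measurable_const hF.measurable.norm)
  have hl' : ∀ z ∈ S, ENNReal.ofReal l ≤ ‖Fg g z‖ₑ := fun z hz => by
    rw [← ofReal_norm]; exact ENNReal.ofReal_le_ofReal hz.2.le
  have hfin : volume S ≠ ⊤ := by
    have h1 : ENNReal.ofReal l ^ 2 * volume S ≤ C2 * ENNReal.ofReal γ ^ 2 := by
      rw [← setLIntegral_const]
      refine le_trans (setLIntegral_mono' hSm fun z hz => pow_le_pow_left₀ zero_le (hl' z hz) 2) ?_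
      exact (lintegral_mono_set fun z hz => hz.1).trans
        ((hC2 g hgm hg N ξ0 n0 hs).trans (by gcongr))
    intro h2
    rw [h2, ENNReal.mul_top (by simpa using hl)] at h1
    exact absurd (top_le_iff.mp h1) (by finiteness)
  set h : ℝ × ℝ → ℂ := S.indicator fun z => conj (Fg g z) / ‖Fg g z‖ with hh
  have hhm : Measurable h := Measurable.indicator ((continuous_conj.comp hF).measurable.div
    (continuous_ofReal.comp hF.norm).measurable) hSm
  have hh1 : ∀ z, ‖h z‖ₑ = S.indicator 1 z := by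
    intro z
    by_cases hz : z ∈ S
    · have : 0 < ‖Fg g z‖ := hl.trans hz.2
      rw [hh, Set.indicator_of_mem hz, Set.indicator_of_mem hz, ← ofReal_norm, norm_div,
        RCLike.norm_conj, norm_real, norm_norm, div_self this.ne']
      simp
    · simp [hh, hz]
  have hV : ∫⁻ z, ‖h z‖ₑ = volume S := by
    simp_rw [hh1]; exact lintegral_indicator_one hSm
  have hi : Integrable h := ⟨hhm.aestronglyMeasurable, by
    rw [HasFiniteIntegral, hV]; exact hfin.lt_top⟩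
  have hb : ∀ z, ‖h z‖ ≤ 1 := fun z => by
    rw [← ENNReal.ofReal_le_one, ofReal_norm, hh1]
    exact Set.indicator_le_self' (fun _ _ => zero_le) z
  set σ : ℝ := 4 * A * γ ^ 2 / l ^ 2 with hσ
  have hσ0 : 0 < σ := by positivity
  have hsq : 1 ≤ √N := Real.one_le_sqrt.mpr hN
  have hσN : σ ≤ 1 / N := by
    rw [hσ, div_le_div_iff₀ (by positivity) (by linarith), one_mul]
    refine le_trans ?_ hlC
    gcongr
    exact le_mul_of_one_le_right (by linarith) hsq
  have h1 := hC1 h hhm hi hb N ξ0 n0 hN σ hσ0 hσN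
  rw [hV] at h1
  have h2 : ENNReal.ofReal l * volume S ≤ ∫⁻ y, ‖g y‖ₑ * ‖hat h y‖ₑ ∂μ0 := by
    have e1 : ∫ z, h z * Fg g z = ∫ y, g y * hat h y ∂μ0 :=
      swap_ex hi hg (φ := fun z y => z.2 * fx y - z.1 * ft y) (by fun_prop)
    have e2 : ∫ z, h z * Fg g z = ((∫ z in S, ‖Fg g z‖ : ℝ) : ℂ) := by
      rw [← integral_complex_ofReal, ← integral_indicator hSm]
      refine integral_congr_ae (Filter.Eventually.of_forall fun z => ?_)
      by_cases hz : z ∈ S
      · have : (‖Fg g z‖ : ℂ) ≠ 0 := ofReal_ne_zero.mpr (hl.trans hz.2).ne'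
        simp only [hh, Set.indicator_of_mem hz]
        rw [div_mul_eq_mul_div, ← normSq_eq_conj_mul_self, normSq_eq_norm_sq]
        push_cast; field_simp
      · simp [hh, hz]
    have hint : IntegrableOn (fun z => ‖Fg g z‖) S := by
      refine Measure.integrableOn_of_bounded (M := ∫ y, ‖g y‖ ∂μ0) hfin
        hF.norm.aestronglyMeasurable (Filter.Eventually.of_forall fun z => ?_)
      rw [norm_norm]; exact norm_EI_le z
    calc _ = ∫⁻ _ in S, ENNReal.ofReal l := (setLIntegral_const _ _).symm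
      _ ≤ ∫⁻ z in S, ‖Fg g z‖ₑ := setLIntegral_mono' hSm hl'
      _ = ‖∫ z, h z * Fg g z‖ₑ := by
        rw [e2, ← ofReal_norm, norm_real, Real.norm_eq_abs,
          abs_of_nonneg (integral_nonneg fun _ => norm_nonneg _),
          ofReal_integral_eq_lintegral_ofReal hint (Filter.Eventually.of_forall fun _ =>
            norm_nonneg _)]
        simp only [ofReal_norm]
      _ ≤ _ := by
        rw [e1]
        exact (enorm_integral_le_lintegral_enorm _).trans (le_of_eq (by simp only [enorm_mul]))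
  have hhat := hat_meas hi
  have m3 := (Ga_cont N ξ0).measurable
  have m4 := (Ga_cont N n0).measurable
  have h3 := sq_lintegral_le μ0 (h := fun y => ‖g y‖ₑ * ‖hat h y‖ₑ) (a := fun y => ‖g y‖ₑ ^ 2)
    (b := fun y => 9 * (ENNReal.ofReal (Ga N ξ0 y.1 * Ga N n0 y.2) * ‖hat h y‖ₑ ^ 2))
    (Measurable.aemeasurable (by fun_prop)) (Measurable.aemeasurable (by fun_prop)) (fun y => by
      by_cases hy : g y = 0
      · simp [hy]
      obtain ⟨q1, q2⟩ := hs y hy
      have q3 : ∀ c x : ℝ, |x - c| ≤ N → 1 ≤ 3 * Ga N c x := by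
        intro c x hx
        have : ((x - c) / N) ^ 2 ≤ 1 := by
          rw [div_pow, div_le_one (by positivity), ← sq_abs]
          exact pow_le_pow_left₀ (abs_nonneg _) hx 2
        unfold Ga
        rw [Real.exp_neg, ← div_eq_mul_inv, one_le_div (Real.exp_pos _)]
        exact (Real.exp_le_exp.mpr this).trans (by linarith [Real.exp_one_lt_d9])
      rw [mul_pow, ← mul_assoc 9]
      gcongr
      refine le_mul_of_one_le_left' ?_
      rw [← ENNReal.ofReal_ofNat 9, ← ENNReal.ofReal_mul (by norm_num), ENNReal.one_le_ofReal]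
      nlinarith [q3 _ _ q1, q3 _ _ q2])
  rw [lintegral_const_mul' _ _ (by simp)] at h3
  have h4 := (pow_le_pow_left₀ zero_le h2 2).trans (h3.trans (mul_le_mul' hm (mul_le_mul_right h1 9)))
  lift volume S to ℝ≥0 using hfin with V hV'
  have hNN : 0 ≤ N * √N := by positivity
  have h5 : (l * V) ^ 2 ≤ γ ^ 2 * (9 * (C1 * (√σ * V + (σ⁻¹ + N * √N) * V ^ 2))) := by
    rw [← ENNReal.ofReal_coe_nnreal, ← ENNReal.ofReal_coe_nnreal (p := C1),
      ← ENNReal.ofReal_ofNat 9, ← ENNReal.ofReal_mul hl.le, ← ENNReal.ofReal_pow (by positivity),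
      ← ENNReal.ofReal_pow (by positivity), ← ENNReal.ofReal_pow (by positivity),
      ← ENNReal.ofReal_mul (by positivity), ← ENNReal.ofReal_mul (by positivity),
      ← ENNReal.ofReal_add (by positivity) (by positivity), ← ENNReal.ofReal_mul (by positivity),
      ← ENNReal.ofReal_mul (by positivity), ← ENNReal.ofReal_mul (by positivity)] at h4
    exact (ENNReal.ofReal_le_ofReal_iff (by positivity)).mp h4
  rw [← ENNReal.ofReal_coe_nnreal]
  refine ENNReal.ofReal_le_ofReal ?_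
  rcases eq_or_lt_of_le V.2 with hV0 | hV0
  · have : (V : ℝ) = 0 := hV0.symm
    rw [this]; positivity
  have hV0 : (0 : ℝ) < V := hV0
  have h6 : √σ ≤ 2 * A * γ / l := by
    rw [Real.sqrt_le_left (by positivity), hσ, div_pow]
    gcongr
    nlinarith [sq_nonneg γ, mul_nonneg (sq_nonneg γ) (sub_nonneg.mpr hA1)]
  have h7 : A * γ ^ 2 * (σ⁻¹ + N * √N) ≤ l ^ 2 / 2 := by
    have : A * γ ^ 2 * σ⁻¹ = l ^ 2 / 4 := by rw [hσ]; field_simp
    nlinarith
  have h8 : (l * V) ^ 2 ≤ A * γ ^ 2 * (2 * A * γ / l) * V + l ^ 2 / 2 * V ^ 2 := by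
    calc _ ≤ γ ^ 2 * (A * (√σ * V + (σ⁻¹ + N * √N) * V ^ 2)) := by
          refine h5.trans ?_
          rw [← mul_assoc 9]
          gcongr
          linarith
      _ = A * γ ^ 2 * √σ * V + A * γ ^ 2 * (σ⁻¹ + N * √N) * V ^ 2 := by ring
      _ ≤ _ := by gcongr
  have h9 : l ^ 2 / 2 * V ≤ A * γ ^ 2 * (2 * A * γ / l) := by
    refine le_of_mul_le_mul_right ?_ hV0
    nlinarith
  rw [le_div_iff₀ (by positivity)]
  have h10 : l ^ 2 / 2 * V * l ≤ A * γ ^ 2 * (2 * A * γ) := by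
    calc _ ≤ A * γ ^ 2 * (2 * A * γ / l) * l := by gcongr
      _ = _ := by field_simp
  have : 0 ≤ A ^ 2 * γ ^ 3 := by positivity
  nlinarith

end Pool.Agent.Lib.MP_fe1582_an
end
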